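import Pool.Agent.GCQ.Pick

/-!
# GCQ-Blocks: many disjoint typical cliques

PLAN. Take `δ`, `n0` from `pick`. Induction on `B`: for `B + 1` take the blocks for `B` (`s * B ≤ n / 2`), let `R = univ \ (E ∪ the set of all u b i)`: `R.card ≥ n - n / 4 - n / 2 = n / 4`, apply `pick`, and `Fin.snoc` (or `Fin.cons`).
-/

set_option autoImplicit false

open Finset

namespace GCQ

theorem blocks (γ : ℝ) (hγ : 0 < γ) (hγ1 : γ ≤ 1 / 2) (s : ℕ) (ε : ℝ) (hε : 0 < ε) :
    ∃ δ : ℝ, 0 < δ ∧ ∃ n0 : ℕ, ∀ n ≥ n0, ∀ G : SimpleGraph (Fin n), Rect G γ δ →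
      ∀ E : Finset (Fin n), (E.card : ℝ) ≤ n / 4 → ∀ B : ℕ, (s : ℝ) * B ≤ n / 2 →
      ∃ u : Fin B → Fin s → Fin n, (∀ b i, u b i ∉ E) ∧
        (∀ b i j, i ≠ j → G.Adj (u b i) (u b j)) ∧ (∀ b b' i j, u b i = u b' j → b = b') ∧
        ∀ b, Typ G (1 - γ) ε (u b) := by
  classical
  obtain ⟨δ, hδ, n0, hpick⟩ := pick γ hγ hγ1 s ε hε
  refine ⟨δ, hδ, n0, fun n hn G hG E hE B => ?_⟩
  induction B with
  | zero =>
    intro _
    exact ⟨fun b => b.elim0, fun b => b.elim0, fun b => b.elim0, fun b => b.elim0,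
      fun b => b.elim0⟩
  | succ B ih =>
    intro hB
    push_cast at hB
    have hs0 : (0 : ℝ) ≤ s := Nat.cast_nonneg s
    obtain ⟨u, hu1, hu2, hu3, hu4⟩ := ih (by nlinarith)
    set F : Finset (Fin n) := univ.image (fun p : Fin B × Fin s => u p.1 p.2) with hF
    have hFc : (F.card : ℝ) ≤ s * B := by
      have h1 : F.card ≤ B * s := by
        refine card_image_le.trans ?_
        rw [card_univ, Fintype.card_prod, Fintype.card_fin, Fintype.card_fin]
      have h2 : (F.card : ℝ) ≤ ((B * s : ℕ) : ℝ) := by exact_mod_cast h1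
      push_cast at h2
      linarith
    have hR : (n : ℝ) / 4 ≤ ((univ \ (E ∪ F)).card : ℝ) := by
      have h1 : (univ \ (E ∪ F)).card + (E ∪ F).card = n := by
        rw [card_sdiff_add_card, union_eq_left.2 (subset_univ _), card_univ, Fintype.card_fin]
      have h2 : ((univ \ (E ∪ F)).card : ℝ) + (E ∪ F).card = n := by exact_mod_cast h1
      have h3 : ((E ∪ F).card : ℝ) ≤ E.card + F.card := by exact_mod_cast card_union_le E F
      nlinarith
    obtain ⟨w, hw1, hw2, hw3⟩ := hpick n hn G hG (univ \ (E ∪ F)) hR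
    have hwE : ∀ i, w i ∉ E := fun i h =>
      (mem_sdiff.1 (hw1 i)).2 (mem_union_left _ h)
    have hwu : ∀ b i j, u b i ≠ w j := by
      intro b i j h
      refine (mem_sdiff.1 (hw1 j)).2 (mem_union_right _ ?_)
      rw [← h]
      exact mem_image.2 ⟨(b, i), mem_univ _, rfl⟩
    refine ⟨Fin.snoc (α := fun _ => Fin s → Fin n) u w, ?_, ?_, ?_, ?_⟩
    · intro b
      refine Fin.lastCases ?_ (fun b => ?_) b
      · intro i
        rw [Fin.snoc_last]
        exact hwE i
      · intro i
        rw [Fin.snoc_castSucc]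
        exact hu1 b i
    · intro b
      refine Fin.lastCases ?_ (fun b => ?_) b
      · intro i j hij
        rw [Fin.snoc_last]
        exact hw2 i j hij
      · intro i j hij
        rw [Fin.snoc_castSucc]
        exact hu2 b i j hij
    · intro b b' i j
      refine Fin.lastCases ?_ (fun b => ?_) b
      · refine Fin.lastCases ?_ (fun b' => ?_) b'
        · intro _
          rfl
        · intro h
          rw [Fin.snoc_last, Fin.snoc_castSucc] at h
          exact absurd h.symm (hwu b' j i)
      · refine Fin.lastCases ?_ (fun b' => ?_) b'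
        · intro h
          rw [Fin.snoc_last, Fin.snoc_castSucc] at h
          exact absurd h (hwu b i j)
        · intro h
          rw [Fin.snoc_castSucc, Fin.snoc_castSucc] at h
          rw [hu3 b b' i j h]
    · intro b
      refine Fin.lastCases ?_ (fun b => ?_) b
      · rw [Fin.snoc_last]
        exact hw3
      · rw [Fin.snoc_castSucc]
        exact hu4 b

end GCQ
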