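import Mathlib

/-!
# GCQ-CntN: the number of families of vectors most of which lie in a subspace (Mathlib only)

The families are covered by at most `2 ^ n` boxes, one for each set of exceptional indices.
-/

set_option autoImplicit false

open Finset Module

namespace GCQ

open Classical in
private lemma card_sub {F : Type} [Field F] [Fintype F] {s : ℕ} (W : Submodule F (Fin s → F)) :
    (univ.filter (fun x : Fin s → F => x ∈ W)).card = Fintype.card F ^ finrank F W := by
  have h1 : Fintype.card W = Fintype.card F ^ finrank F W := Module.card_eq_pow_finrank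
  rw [← h1, Fintype.card_subtype]

open Classical in
private lemma card_box {F : Type} [Field F] [Fintype F] {n s : ℕ}
    (W : Fin n → Submodule F (Fin s → F)) (m : ℕ) (T : Finset (Fin n)) (hT : T.card ≤ m) :
    (Fintype.piFinset (fun v : Fin n => if v ∈ T then (univ : Finset (Fin s → F))
      else univ.filter (fun x : Fin s → F => x ∈ W v))).card ≤
      Fintype.card F ^ (s * m + ∑ v, finrank F (W v)) := by
  have hq : 0 < Fintype.card F := Fintype.card_pos
  rw [Fintype.card_piFinset]
  have h1 : ∀ v : Fin n, (if v ∈ T then (univ : Finset (Fin s → F))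
      else univ.filter (fun x : Fin s → F => x ∈ W v)).card ≤
      Fintype.card F ^ ((if v ∈ T then s else 0) + finrank F (W v)) := by
    intro v
    by_cases hv : v ∈ T
    · rw [if_pos hv, if_pos hv, Finset.card_univ, Fintype.card_fun, Fintype.card_fin]
      exact Nat.pow_le_pow_right hq (Nat.le_add_right _ _)
    · rw [if_neg hv, if_neg hv, card_sub, Nat.zero_add]
  refine (Finset.prod_le_prod' fun v _ => h1 v).trans ?_
  rw [Finset.prod_pow_eq_pow_sum, Finset.sum_add_distrib]
  apply Nat.pow_le_pow_right hq
  apply Nat.add_le_add_right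
  rw [← Finset.sum_filter, Finset.sum_const, Finset.filter_mem_eq_inter, Finset.univ_inter,
    smul_eq_mul, Nat.mul_comm]
  exact Nat.mul_le_mul_left s hT

open Classical in
theorem cntN {F : Type} [Field F] [Fintype F] {n s : ℕ} (C : Fin n → Submodule F (Fin s → F))
    (U : Submodule F (Fin s → F)) (m : ℕ) :
    Nat.card {N : Fin n → Fin s → F // (∀ v, N v ∈ C v) ∧
      (univ.filter (fun v => N v ∉ U)).card ≤ m} ≤
      2 ^ n * Fintype.card F ^ (s * m + ∑ v, finrank F (C v ⊓ U : Submodule F (Fin s → F))) := by
  rw [Nat.card_eq_fintype_card, Fintype.card_subtype]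
  set box : Finset (Fin n) → Finset (Fin n → Fin s → F) := fun T =>
    Fintype.piFinset (fun v : Fin n => if v ∈ T then (univ : Finset (Fin s → F))
      else univ.filter (fun x : Fin s → F => x ∈ (C v ⊓ U : Submodule F (Fin s → F))))
    with hbox
  have hcov : (univ.filter (fun N : Fin n → Fin s → F => (∀ v, N v ∈ C v) ∧
      (univ.filter (fun v => N v ∉ U)).card ≤ m)) ⊆
      ((univ : Finset (Finset (Fin n))).filter (fun T => T.card ≤ m)).biUnion box := by
    intro N hN
    rw [Finset.mem_filter] at hN
    obtain ⟨-, hC, hm⟩ := hN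
    rw [Finset.mem_biUnion]
    refine ⟨univ.filter (fun v => N v ∉ U), ?_, ?_⟩
    · rw [Finset.mem_filter]
      exact ⟨Finset.mem_univ _, hm⟩
    · rw [hbox]
      simp only [Fintype.mem_piFinset]
      intro v
      by_cases hv : N v ∈ U
      · rw [if_neg (by simp [hv]), Finset.mem_filter]
        exact ⟨Finset.mem_univ _, hC v, hv⟩
      · rw [if_pos (by simp [hv])]
        exact Finset.mem_univ _
  refine (Finset.card_le_card hcov).trans (Finset.card_biUnion_le.trans ?_)
  have h2 : ∑ T ∈ ((univ : Finset (Finset (Fin n))).filter (fun T => T.card ≤ m)),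
      (box T).card ≤ ∑ T ∈ ((univ : Finset (Finset (Fin n))).filter (fun T => T.card ≤ m)),
      Fintype.card F ^ (s * m + ∑ v, finrank F (C v ⊓ U : Submodule F (Fin s → F))) := by
    apply Finset.sum_le_sum
    intro T hT
    exact card_box (fun v => C v ⊓ U) m T (Finset.mem_filter.1 hT).2
  refine h2.trans ?_
  rw [Finset.sum_const, smul_eq_mul]
  apply Nat.mul_le_mul_right
  refine (Finset.card_le_univ _).trans ?_
  rw [Fintype.card_finset, Fintype.card_fin]

end GCQ
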