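import Mathlib

/-!
# GCQ-Code: a Vandermonde matrix over `ZMod p` (Mathlib only)

PLAN. `x i j = (i : ZMod p) ^ j`; the nodes `(i : ZMod p)`, `i < s ≤ p`, are distinct. Let `z` have support `T` with `T.card = m ≤ r`. If `m > 0` then with `e : Fin m ≃ T` we have `∑ a : Fin m, z (e a) * (node (e a)) ^ j = 0` for
`j < m ≤ r`, and `Matrix.eq_zero_of_forall_pow_sum_mul_pow_eq_zero` (Vandermonde; look for the exact name) gives `z (e a) = 0`.
Alternatively with polynomials: the functional `f ↦ ∑ i, z i * f (i)` vanishes on all polynomials of degree `< r`; take `f = ∏ over T.erase i0 of (X - node)`.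
-/

set_option autoImplicit false

open Finset

namespace GCQ

theorem code (p : ℕ) [Fact p.Prime] (s r : ℕ) (hs : s ≤ p) :
    ∃ x : Fin s → Fin r → ZMod p, ∀ z : Fin s → ZMod p, (∀ j, ∑ i, z i * x i j = 0) →
      (univ.filter (fun i => z i ≠ 0)).card ≤ r → z = 0 := by
  classical
  refine ⟨fun i j => ((i : ℕ) : ZMod p) ^ (j : ℕ), ?_⟩
  intro z hz hcard
  have hinj : ∀ i i' : Fin s, (((i : ℕ) : ZMod p)) = ((i' : ℕ) : ZMod p) → i = i' := by
    intro i i' h
    have h1 := (ZMod.natCast_eq_natCast_iff' (i : ℕ) (i' : ℕ) p).1 h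
    rw [Nat.mod_eq_of_lt (lt_of_lt_of_le i.2 hs), Nat.mod_eq_of_lt (lt_of_lt_of_le i'.2 hs)] at h1
    exact Fin.ext h1
  have hpoly : ∀ f : Polynomial (ZMod p), f.natDegree < r →
      ∑ i, z i * f.eval ((i : ℕ) : ZMod p) = 0 := by
    intro f hf
    have h1 : ∀ i : Fin s, z i * f.eval ((i : ℕ) : ZMod p) =
        ∑ j : Fin r, f.coeff (j : ℕ) * (z i * ((i : ℕ) : ZMod p) ^ (j : ℕ)) := by
      intro i
      rw [Polynomial.eval_eq_sum_range' hf, Finset.mul_sum, Finset.sum_range]
      refine Finset.sum_congr rfl fun j _ => ?_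
      ring
    rw [Finset.sum_congr rfl fun i _ => h1 i, Finset.sum_comm]
    refine Finset.sum_eq_zero fun j _ => ?_
    rw [← Finset.mul_sum, hz j, mul_zero]
  by_contra hne
  obtain ⟨i0, hi0⟩ := Function.ne_iff.1 hne
  have hi0' : z i0 ≠ 0 := hi0
  set T := univ.filter (fun i => z i ≠ 0) with hT
  have hmem : i0 ∈ T := by simp [hT, hi0']
  have hdeg : (∏ i ∈ T.erase i0, (Polynomial.X - Polynomial.C (((i : ℕ) : ZMod p)))).natDegree < r := by
    rw [Polynomial.natDegree_prod_of_monic _ _ (fun i _ => Polynomial.monic_X_sub_C _)]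
    simp only [Polynomial.natDegree_X_sub_C, Finset.sum_const, smul_eq_mul, mul_one]
    rw [Finset.card_erase_of_mem hmem]
    have : 0 < T.card := Finset.card_pos.2 ⟨i0, hmem⟩
    omega
  have h2 := hpoly _ hdeg
  rw [Finset.sum_eq_single i0] at h2
  · rcases mul_eq_zero.1 h2 with h3 | h3
    · exact hi0' h3
    · rw [Polynomial.eval_prod, Finset.prod_eq_zero_iff] at h3
      obtain ⟨i, hi, h4⟩ := h3
      simp only [Polynomial.eval_sub, Polynomial.eval_X, Polynomial.eval_C] at h4
      have h5 := hinj i0 i (sub_eq_zero.1 h4)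
      rw [h5] at hi
      exact (Finset.notMem_erase i T) hi
  · intro i _ hi
    by_cases hzi : z i = 0
    · rw [hzi, zero_mul]
    · have hiT : i ∈ T.erase i0 := Finset.mem_erase.2 ⟨hi, by simp [hT, hzi]⟩
      have : (∏ i ∈ T.erase i0, (Polynomial.X - Polynomial.C (((i : ℕ) : ZMod p)))).eval
          ((i : ℕ) : ZMod p) = 0 := by
        rw [Polynomial.eval_prod]
        exact Finset.prod_eq_zero hiT (by simp)
      rw [this, mul_zero]
  · intro h
    exact absurd (Finset.mem_univ i0) h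

end GCQ
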