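import Pool.Agent.GCQ.Defs

/-!
# GCQ-GenHall: generic rows are independent under Hall's condition

Hall's theorem gives an injective choice `f v` with `v ∈ Q (f v)` on the set `T`, and
`GCT.gen_inj` is applied at the point which is `1` at the pairs `(v, f v)` and `0` elsewhere.
-/

set_option autoImplicit false

open Finset

namespace GCQ

private theorem gen_one {n : ℕ} {κ : Type} [Fintype κ] (Q : κ → Finset (Fin n))
    (T : Finset (Fin n)) (hT : Hall Q T) :
    GCT.Gen (fun x : Fin n × κ → ℝ => ∀ c : {v // v ∈ T} → ℝ,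
      (∀ j : κ, ∑ v : {v // v ∈ T}, (if v.1 ∈ Q j then x (v.1, j) else 0) * c v = 0) →
        ∀ v, c v = 0) := by
  classical
  obtain ⟨f, hf, hfm⟩ := (Finset.all_card_le_biUnion_card_iff_exists_injective
    (fun v : {v // v ∈ T} => (univ : Finset κ).filter (fun j => v.1 ∈ Q j))).1 (by
      intro s
      have h1 := hT (s.map (Function.Embedding.subtype _)) (by
        intro v hv
        obtain ⟨w, -, rfl⟩ := Finset.mem_map.1 hv
        exact w.2)
      rw [Finset.card_map] at h1
      refine h1.trans ?_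
      unfold hit
      apply Finset.card_le_card
      intro j hj
      rw [Finset.mem_filter, Finset.not_disjoint_iff] at hj
      obtain ⟨-, v, hv1, hv2⟩ := hj
      obtain ⟨w, hw, rfl⟩ := Finset.mem_map.1 hv2
      rw [Finset.mem_biUnion]
      exact ⟨w, hw, Finset.mem_filter.2 ⟨Finset.mem_univ _, hv1⟩⟩)
  have hmem : ∀ v : {v // v ∈ T}, v.1 ∈ Q (f v) := fun v => (Finset.mem_filter.1 (hfm v)).2
  have key := GCT.gen_inj (ι := Fin n × κ) (R := κ) (S := {v // v ∈ T})
    (fun j v => if v.1 ∈ Q j then MvPolynomial.X (v.1, j) else 0)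
    (fun p => if h : p.1 ∈ T then (if f ⟨p.1, h⟩ = p.2 then 1 else 0) else 0) (by
      intro c hc v0
      have h1 := hc (f v0)
      rw [Finset.sum_eq_single v0] at h1
      · rw [if_pos (hmem v0), MvPolynomial.eval_X, dif_pos v0.2, if_pos rfl, one_mul] at h1
        exact h1
      · intro v _ hv
        have h2 : f v ≠ f v0 := fun h => hv (hf h)
        by_cases h3 : v.1 ∈ Q (f v0)
        · rw [if_pos h3, MvPolynomial.eval_X, dif_pos v.2, if_neg h2, zero_mul]
        · rw [if_neg h3, map_zero, zero_mul]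
      · intro h
        exact absurd (Finset.mem_univ _) h)
  refine key.mono ?_
  intro x hx c hc
  apply hx c
  intro j
  rw [← hc j]
  refine Finset.sum_congr rfl fun v _ => ?_
  by_cases h3 : v.1 ∈ Q j
  · rw [if_pos h3, if_pos h3, MvPolynomial.eval_X]
  · rw [if_neg h3, if_neg h3, map_zero]

theorem gen_hall {n : ℕ} {κ : Type} [Fintype κ] (Q : κ → Finset (Fin n)) (T : Finset (Fin n))
    (hT : Hall Q T) : GCT.Gen (fun x : Fin n × κ → ℝ => ∀ c : Fin n → ℝ, (∀ v, c v ≠ 0 → v ∈ T) →
      (∀ j, ∑ v, c v * mat Q x v j = 0) → ∀ v, c v = 0) := by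
  classical
  refine (gen_one Q T hT).mono ?_
  intro x hx c hc hsum v
  by_contra hv
  have hvT := hc v hv
  have h0 := hx (fun w => c w.1) (by
    intro j
    rw [Finset.sum_coe_sort T (fun w => (if w ∈ Q j then x (w, j) else 0) * c w)]
    refine Eq.trans ?_ (hsum j)
    refine (Finset.sum_subset (Finset.subset_univ T) ?_).trans ?_
    · intro w _ hw
      have h2 : c w = 0 := by
        by_contra h3
        exact hw (hc w h3)
      rw [h2, mul_zero]
    · refine Finset.sum_congr rfl fun w _ => ?_
      rw [mat, mul_comm]) ⟨v, hvT⟩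
  exact hv h0

end GCQ
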