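import Pool.Agent.GCQ.Transf
import Pool.Agent.GCQ.GenHall

/-!
# GCQ-Glue: blocks and Hall's condition give a positive semidefinite matrix
-/

set_option autoImplicit false

open Finset
open scoped RealInnerProductSpace

namespace GCQ

private theorem glue_stress {n s B : ℕ} {κ : Type} [Fintype κ] (G : SimpleGraph (Fin n))
    (Q : κ → Finset (Fin n)) (u : Fin B → Fin s → Fin n)
    (hu : ∀ b, Function.Injective (u b)) (J : Fin B → Finset κ)
    (hJ : ∀ b, ∀ j ∈ J b, Q j ⊆ univ.image (u b)) (M : Fin n → κ → ℝ)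
    (hM0 : ∀ v j, v ∉ Q j → M v j = 0)
    (h1 : ∀ b, ∀ T0 : Finset (Fin n), T0.card ≤ 2 → Kill G (u b) T0 (J b) M)
    (h2 : ∀ T, Hall Q T → ∀ c : Fin n → ℝ, (∀ v, c v ≠ 0 → v ∈ T) →
      (∀ j, ∑ v, c v * M v j = 0) → ∀ v, c v = 0)
    (hV : ∀ S : Finset (Fin n), S.Nonempty → (∀ b i, u b i ∉ S) →
      ∃ v ∈ S, ∀ w, Hall Q (insert w (MrGC.nb Gᶜ S v))) (u0 v0 : Fin n)
    (N : Fin n → Fin n → ℝ) (hsym : ∀ a b, N a b = N b a)
    (hN : ∀ a b, N a b ≠ 0 → Gᶜ.Adj a b ∨ (a = u0 ∧ b = v0) ∨ (a = v0 ∧ b = u0))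
    (hsum : ∀ a j, ∑ v, N a v * M v j = 0) : ∀ a b, N a b = 0 := by
  classical
  have hblock : ∀ b i v, N (u b i) v = 0 := by
    intro b
    have hK := h1 b {u0, v0} card_le_two (fun i v => N (u b i) v)
    refine hK ?_ ?_ ?_
    · intro i v hiv
      rcases hN (u b i) v hiv with h | ⟨h3, h4⟩ | ⟨h3, h4⟩
      · left
        intro hadj
        rw [SimpleGraph.compl_adj] at h
        exact h.2 hadj
      · right
        rw [h4]
        exact mem_insert_of_mem (mem_singleton_self _)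
      · right
        rw [h4]
        exact mem_insert_self _ _
    · intro v j hj
      have h3 := hsum v j
      have h4 : ∑ w, N v w * M w j = ∑ w ∈ univ.image (u b), N v w * M w j := by
        symm
        refine sum_subset (subset_univ _) ?_
        intro w _ hw
        rw [hM0 w j (fun h => hw (hJ b j hj h)), mul_zero]
      rw [h4, sum_image (fun a _ c _ h => hu b h)] at h3
      rw [← h3]
      exact sum_congr rfl fun i _ => by rw [hsym v (u b i)]
    · intro i j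
      exact hsum (u b i) j
  by_contra hcon
  push Not at hcon
  obtain ⟨a, b, hab⟩ := hcon
  obtain ⟨v, hvS, hH⟩ := hV (univ.filter (fun a => ∃ w, N a w ≠ 0))
    ⟨a, mem_filter.2 ⟨mem_univ _, b, hab⟩⟩ (by
      intro b i h
      obtain ⟨w, hw⟩ := (mem_filter.1 h).2
      exact hw (hblock b i w))
  obtain ⟨-, w0, hw0⟩ := mem_filter.1 hvS
  refine hw0 (h2 _ (hH (if v = u0 then v0 else u0)) (N v) ?_ (fun j => hsum v j) w0)
  intro w hw
  have hwS : w ∈ univ.filter (fun a => ∃ w, N a w ≠ 0) :=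
    mem_filter.2 ⟨mem_univ _, v, by rwa [hsym w v]⟩
  rw [mem_insert]
  rcases hN v w hw with h | ⟨h1, h2⟩ | ⟨h1, h2⟩
  · exact Or.inr (MrGC.mem_nb.2 ⟨hwS, h⟩)
  · left
    rw [if_pos h1, h2]
  · left
    by_cases h3 : v = u0
    · rw [if_pos h3, h2, ← h3, h1]
    · rw [if_neg h3, h2]

theorem glue {n s B : ℕ} {κ : Type} [Fintype κ] (G : SimpleGraph (Fin n)) (Q : κ → Finset (Fin n))
    (hQ : ∀ j, ∀ a ∈ Q j, ∀ b ∈ Q j, ¬ Gᶜ.Adj a b) (u : Fin B → Fin s → Fin n)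
    (hu : ∀ b, Function.Injective (u b)) (J : Fin B → Finset κ)
    (hJ : ∀ b, ∀ j ∈ J b, Q j ⊆ univ.image (u b))
    (hkill : ∀ b, ∀ T0 : Finset (Fin n), T0.card ≤ 2 → ∃ (p : ℕ) (_ : Fact p.Prime)
      (X : Fin n → κ → ZMod p), (∀ v j, v ∉ Q j → X v j = 0) ∧ Kill G (u b) T0 (J b) X)
    (hV : ∀ S : Finset (Fin n), S.Nonempty → (∀ b i, u b i ∉ S) →
      ∃ v ∈ S, ∀ w, Hall Q (insert w (MrGC.nb Gᶜ S v))) :
    MrGC.PR Gᶜ (Fintype.card κ) := by
  classical
  have hgen1 : GCT.Gen (fun x : Fin n × κ → ℝ => ∀ b : Fin B, ∀ T0 : Finset (Fin n),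
      T0.card ≤ 2 → Kill G (u b) T0 (J b) (mat Q x)) := by
    refine GCT.Gen.all fun b => GCT.Gen.all fun T0 => ?_
    by_cases hT0 : T0.card ≤ 2
    · obtain ⟨p, hp, X, hX, hK⟩ := hkill b T0 hT0
      exact (gen_kill G (u b) T0 (J b) Q X hX hK).mono (fun x hx _ => hx)
    · exact GCT.gen_true.mono (fun x _ h => absurd h hT0)
  have hgen2 : GCT.Gen (fun x : Fin n × κ → ℝ => ∀ T : Finset (Fin n), Hall Q T →
      ∀ c : Fin n → ℝ, (∀ v, c v ≠ 0 → v ∈ T) →
      (∀ j, ∑ v, c v * mat Q x v j = 0) → ∀ v, c v = 0) := by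
    refine GCT.Gen.all fun T => ?_
    by_cases hT : Hall Q T
    · exact (gen_hall Q T hT).mono (fun x hx _ => hx)
    · exact GCT.gen_true.mono (fun x _ h => absurd h hT)
  obtain ⟨x, h1, h2⟩ := (hgen1.and hgen2).exists_pt
  have hM0 : ∀ v j, v ∉ Q j → mat Q x v j = 0 := by
    intro v j hv
    unfold mat
    rw [if_neg hv]
  let X : Fin n → EuclideanSpace ℝ κ := fun v => WithLp.toLp 2 (mat Q x v)
  have hXv : ∀ v j, X v j = mat Q x v j := fun v j => rfl
  have hOR : MrGC.OR Gᶜ univ X := by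
    intro v _ w _ hvw
    rw [PiLp.inner_apply]
    refine Finset.sum_eq_zero fun j _ => ?_
    by_cases hv : v ∈ Q j
    · have hw : w ∉ Q j := fun hw => hQ j v hv w hw hvw
      rw [hXv w j, hM0 w j hw, inner_zero_right]
    · rw [hXv v j, hM0 v j hv, inner_zero_left]
  obtain ⟨Y, hY1, hY2⟩ := GCA.faithful_of_stressFree Gᶜ X hOR (fun u0 v0 _ _ _ => by
    intro N hsym hN hsum
    refine glue_stress G Q u hu J hJ (mat Q x) hM0 h1 h2 hV u0 v0 N hsym hN ?_
    intro a j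
    have h3 := congrArg (fun z : EuclideanSpace ℝ κ => z j) (hsum a)
    simp only [PiLp.zero_apply] at h3
    rw [← h3, WithLp.ofLp_sum, Finset.sum_apply]
    refine sum_congr rfl fun v _ => ?_
    rw [WithLp.ofLp_smul, Pi.smul_apply, smul_eq_mul])
  have h := MrGC.pr_of_rep hY1 hY2
  rwa [finrank_euclideanSpace] at h

end GCQ
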