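import Pool.Agent.GCQ.Thin

/-!
# GCQ-Sumf: the sum of the dimensions for a typical clique

PLAN. Take `P`, `d` from `Typ`, `l` from `thin`. Let `F S = finrank (van U S)`, `0 ≤ F ≤ finrank U ≤ s`. For a part `Y`: `∑ v ∈ Y, F (tr G u v) = ∑ S, (number of v ∈ Y with trace S) * F S` (`Finset.sum_fiberwise`), so
`∑ v, F (tr G u v) = ∑ Y ∈ P.parts, ..` (`Finset.sum_biUnion`/`P.sum_parts`-like; the parts partition `univ`) `≤ ∑ Y, Y.card * ex (d Y) F + s * (ε n)` and by `thin` `ex (d Y) F ≤ finrank U - ∑ i, l i * d Y i` (`0 ≤ d Y i ≤ μ ≤ κ`).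
Moreover for each `i`: `∑ Y, Y.card * d Y i ≥ g n - ε n`: `Y.card * d Y i = Y.card * ex (d Y) (1_{i ∈ S})` (`ex_mem`) `≥ ∑ S, n_S(Y) 1_{i ∈ S} - ∑ S |..|`, and `∑ Y, ∑ S ∋ i, n_S(Y)` is the number of the `v` adjacent to `u i`, `= dg G (u i) ≥ g n`.
Altogether `∑ v, F ≤ finrank U * n - ∑ i, l i * (g n - ε n) + s ε n ≤ finrank U * n - (∑ l i) g n + 2 s ε n` (`l i ≤ 1`) and `κ * ∑ l i ≥ finrank U * tl s k κ`, `g ≥ 0`, `n ≥ 0`.
-/

set_option autoImplicit false

open Finset Module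

namespace GCQ

/-- a sum over the vertices in terms of the traces on the parts -/
private theorem sum_tr {n s : ℕ} (G : SimpleGraph (Fin n)) (u : Fin s → Fin n)
    (P : Finpartition (univ : Finset (Fin n))) (H : Finset (Fin s) → ℝ) :
    ∑ v, H (tr G u v) = ∑ Y ∈ P.parts, ∑ S : Finset (Fin s),
      (((Y.filter (fun v => tr G u v = S)).card : ℕ) : ℝ) * H S := by
  have h1 : ∑ v, H (tr G u v) = ∑ Y ∈ P.parts, ∑ v ∈ Y, H (tr G u v) := by
    conv_lhs => rw [← P.biUnion_parts]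
    rw [Finset.sum_biUnion]
    · rfl
    · exact P.disjoint
  rw [h1]
  apply Finset.sum_congr rfl
  intro Y _
  rw [← Finset.sum_fiberwise Y (fun v => tr G u v) (fun v => H (tr G u v))]
  apply Finset.sum_congr rfl
  intro S _
  rw [Finset.sum_congr rfl (g := fun _ => H S)]
  · rw [Finset.sum_const, nsmul_eq_mul]
  · intro v hv
    rw [(Finset.mem_filter.1 hv).2]

private theorem dg_eq {n s : ℕ} (G : SimpleGraph (Fin n)) (u : Fin s → Fin n) (i : Fin s) :
    ∑ v, (if i ∈ tr G u v then (1 : ℝ) else 0) = dg G (u i) := by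
  classical
  rw [Finset.sum_boole, dg]
  congr 2
  ext v
  simp [tr]

theorem sumf {K : Type} [Field K] {n s k : ℕ} (G : SimpleGraph (Fin n)) (u : Fin s → Fin n)
    (μ κ ε g : ℝ) (hμ : μ ≤ κ) (hκ0 : 0 < κ) (hκ1 : κ ≤ 1) (hg0 : 0 ≤ g) (ht : Typ G μ ε u)
    (hg : ∀ i, g * n ≤ dg G (u i)) (U : Submodule K (Fin s → K)) (hU : Robust U k) :
    ∑ v, (finrank K (van U (tr G u v)) : ℝ) ≤
      finrank K U * ((1 - tl s k κ / κ * g) * n) + 2 * s * ε * n := by
  obtain ⟨P, d, hd, herr⟩ := ht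
  obtain ⟨l, hl, hl1, hl2⟩ := thin U hU κ hκ0.le hκ1
  -- notation
  set D : ℝ := (finrank K U : ℝ) with hD
  set F : Finset (Fin s) → ℝ := fun S => (finrank K (van U S) : ℝ) with hF
  have hD0 : 0 ≤ D := Nat.cast_nonneg _
  have hDs : D ≤ s := by
    have h := Submodule.finrank_le U
    rw [Module.finrank_fin_fun] at h
    exact Nat.cast_le.2 h
  have hF0 : ∀ S, 0 ≤ F S := fun S => Nat.cast_nonneg _
  have hFD : ∀ S, F S ≤ D := by
    intro S
    have h : van U S ≤ U := fun z hz => hz.1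
    exact Nat.cast_le.2 (Submodule.finrank_mono h)
  have hn0 : (0 : ℝ) ≤ n := Nat.cast_nonneg _
  have hεn : 0 ≤ ε * n := le_trans (Finset.sum_nonneg fun Y _ => Finset.sum_nonneg fun S _ =>
    abs_nonneg _) herr
  have hcard : ∑ Y ∈ P.parts, ((Y.card : ℕ) : ℝ) = n := by
    have h := P.sum_card_parts
    rw [Finset.card_univ, Fintype.card_fin] at h
    exact_mod_cast h
  -- Step A
  have hA : ∑ v, F (tr G u v) ≤ ∑ Y ∈ P.parts, (Y.card : ℝ) * ex (d Y) F + D * (ε * n) := by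
    rw [sum_tr G u P F]
    have h1 : ∀ Y ∈ P.parts, ∑ S : Finset (Fin s),
        (((Y.filter (fun v => tr G u v = S)).card : ℕ) : ℝ) * F S ≤
        (Y.card : ℝ) * ex (d Y) F + D * ∑ S : Finset (Fin s),
          |(((Y.filter (fun v => tr G u v = S)).card : ℕ) : ℝ) -
            (∏ i, if i ∈ S then d Y i else 1 - d Y i) * Y.card| := by
      intro Y _
      rw [ex, Finset.mul_sum, Finset.mul_sum, ← Finset.sum_add_distrib]
      apply Finset.sum_le_sum
      intro S _
      have h2 := le_abs_self ((((Y.filter (fun v => tr G u v = S)).card : ℕ) : ℝ) -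
            (∏ i, if i ∈ S then d Y i else 1 - d Y i) * Y.card)
      have h3 := abs_nonneg ((((Y.filter (fun v => tr G u v = S)).card : ℕ) : ℝ) -
            (∏ i, if i ∈ S then d Y i else 1 - d Y i) * Y.card)
      nlinarith [mul_le_mul_of_nonneg_right h2 (hF0 S), mul_le_mul_of_nonneg_right (hFD S) h3]
    refine (Finset.sum_le_sum h1).trans ?_
    rw [Finset.sum_add_distrib, ← Finset.mul_sum]
    exact add_le_add le_rfl (mul_le_mul_of_nonneg_left herr hD0)
  -- Step B
  have hB : ∀ Y ∈ P.parts, (Y.card : ℝ) * ex (d Y) F ≤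
      (Y.card : ℝ) * D - ∑ i, l i * ((Y.card : ℝ) * d Y i) := by
    intro Y hY
    have h1 := hl2 (d Y) (fun i => ⟨(hd Y hY i).1, (hd Y hY i).2.trans hμ⟩)
    have h2 := mul_le_mul_of_nonneg_left h1 (Nat.cast_nonneg Y.card : (0 : ℝ) ≤ Y.card)
    rw [mul_sub, Finset.mul_sum] at h2
    refine h2.trans (le_of_eq ?_)
    congr 1
    apply Finset.sum_congr rfl
    intro i _
    ring
  -- Step C
  have hC : ∀ i, g * n - ε * n ≤ ∑ Y ∈ P.parts, (Y.card : ℝ) * d Y i := by
    intro i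
    have h1 : ∀ Y ∈ P.parts, ∑ S : Finset (Fin s),
        (((Y.filter (fun v => tr G u v = S)).card : ℕ) : ℝ) * (if i ∈ S then 1 else 0) ≤
        (Y.card : ℝ) * d Y i + ∑ S : Finset (Fin s),
          |(((Y.filter (fun v => tr G u v = S)).card : ℕ) : ℝ) -
            (∏ i, if i ∈ S then d Y i else 1 - d Y i) * Y.card| := by
      intro Y _
      rw [← ex_mem (d Y) i, ex, Finset.mul_sum, ← Finset.sum_add_distrib]
      apply Finset.sum_le_sum
      intro S _
      have h2 := le_abs_self ((((Y.filter (fun v => tr G u v = S)).card : ℕ) : ℝ) -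
            (∏ i, if i ∈ S then d Y i else 1 - d Y i) * Y.card)
      have h3 := abs_nonneg ((((Y.filter (fun v => tr G u v = S)).card : ℕ) : ℝ) -
            (∏ i, if i ∈ S then d Y i else 1 - d Y i) * Y.card)
      by_cases hi : i ∈ S
      · rw [if_pos hi]
        linarith
      · rw [if_neg hi]
        linarith
    have h2 := Finset.sum_le_sum h1
    rw [← sum_tr G u P (fun S => if i ∈ S then 1 else 0), dg_eq, Finset.sum_add_distrib] at h2
    linarith [hg i]
  -- conclusion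
  have hBs : ∑ Y ∈ P.parts, (Y.card : ℝ) * ex (d Y) F ≤
      n * D - ∑ i, l i * ∑ Y ∈ P.parts, (Y.card : ℝ) * d Y i := by
    refine (Finset.sum_le_sum hB).trans (le_of_eq ?_)
    rw [Finset.sum_sub_distrib, ← Finset.sum_mul, hcard, Finset.sum_comm]
    congr 1
    apply Finset.sum_congr rfl
    intro i _
    rw [Finset.mul_sum]
  have hCs : (∑ i, l i) * (g * n - ε * n) ≤ ∑ i, l i * ∑ Y ∈ P.parts, (Y.card : ℝ) * d Y i := by
    rw [Finset.sum_mul]
    exact Finset.sum_le_sum fun i _ => mul_le_mul_of_nonneg_left (hC i) (hl i).1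
  have hls : ∑ i, l i ≤ s := by
    refine (Finset.sum_le_sum fun i _ => (hl i).2).trans (le_of_eq ?_)
    rw [Finset.sum_const, Finset.card_univ, Fintype.card_fin, nsmul_eq_mul, mul_one]
  have hlD : D * tl s k κ / κ ≤ ∑ i, l i := by
    rw [div_le_iff₀ hκ0]
    linarith
  have hgn : 0 ≤ g * n := mul_nonneg hg0 hn0
  have h5 := mul_le_mul_of_nonneg_right hlD hgn
  have h6 := mul_le_mul_of_nonneg_right hls hεn
  have h7 := mul_le_mul_of_nonneg_right hDs hεn
  have h8 : D * ((1 - tl s k κ / κ * g) * n) = n * D - D * tl s k κ / κ * (g * n) := by ring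
  rw [h8]
  linarith

end GCQ
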