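import Pool.Agent.GCP.Defs
import Pool.Agent.GCT.Gen

/-!
# Project GCQ (MP_2c4812_co): definitions

THEOREM: for every `γ > 0` there are `c, δ > 0` and `n0` such that every graph on `n ≥ n0` vertices in which any two disjoint sets of at least
`δ n` vertices have density in `[γ, 1 - γ]` satisfies `mr_+(G) + mr_+(Gᶜ) ≤ (1 - c) n`.
-/

set_option autoImplicit false

open Finset

namespace GCQ

/-- the number of members of the family `Q` which meet `T` -/
noncomputable def hit {n : ℕ} {κ : Type} [Fintype κ] (Q : κ → Finset (Fin n)) (T : Finset (Fin n)) : ℕ :=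
  by classical exact (univ.filter (fun j => ¬ Disjoint (Q j) T)).card

/-- Hall's condition for the set `T` and the family `Q` -/
def Hall {n : ℕ} {κ : Type} [Fintype κ] (Q : κ → Finset (Fin n)) (T : Finset (Fin n)) : Prop :=
  ∀ T' ⊆ T, T'.card ≤ hit Q T'

/-- the vectors of `U` which vanish on `S` -/
def van {K : Type} [Field K] {s : ℕ} (U : Submodule K (Fin s → K)) (S : Finset (Fin s)) :
    Submodule K (Fin s → K) where
  carrier := {z | z ∈ U ∧ ∀ i ∈ S, z i = 0}
  add_mem' := fun {a b} ha hb => ⟨U.add_mem ha.1 hb.1, fun i hi => by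
    rw [Pi.add_apply, ha.2 i hi, hb.2 i hi, add_zero]⟩
  zero_mem' := ⟨U.zero_mem, fun _ _ => rfl⟩
  smul_mem' := fun c z hz => ⟨U.smul_mem c hz.1, fun i hi => by
    rw [Pi.smul_apply, hz.2 i hi, smul_zero]⟩

/-- a vector of `U` with at least `k` zeros is zero -/
def Robust {K : Type} [Field K] {s : ℕ} (U : Submodule K (Fin s → K)) (k : ℕ) : Prop :=
  ∀ T : Finset (Fin s), k ≤ T.card → van U T = ⊥

/-- the expectation of `F S` for a random set `S` which contains `i` with probability `x i`, independently -/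
noncomputable def ex {s : ℕ} (x : Fin s → ℝ) (F : Finset (Fin s) → ℝ) : ℝ :=
  ∑ S : Finset (Fin s), (∏ i, if i ∈ S then x i else 1 - x i) * F S

open Classical in
/-- the indices `i` with `u i` adjacent to `v` -/
noncomputable def tr {n s : ℕ} (G : SimpleGraph (Fin n)) (u : Fin s → Fin n) (v : Fin n) :
    Finset (Fin s) := univ.filter (fun i => G.Adj (u i) v)

open Classical in
/-- the degree -/
noncomputable def dg {n : ℕ} (G : SimpleGraph (Fin n)) (v : Fin n) : ℕ :=
  (univ.filter (fun w => G.Adj v w)).card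

/-- the probability that a random subset of `Fin s` of density `κ` has at least `k` elements -/
noncomputable def tl (s k : ℕ) (κ : ℝ) : ℝ :=
  ex (fun _ : Fin s => κ) (fun S => if k ≤ S.card then 1 else 0)

/-- the traces of the vertices on `u` are distributed like independent ones with densities at most `μ` (on each part
of some partition), up to an error `ε n` -/
def Typ {n s : ℕ} (G : SimpleGraph (Fin n)) (μ ε : ℝ) (u : Fin s → Fin n) : Prop :=
  ∃ (P : Finpartition (univ : Finset (Fin n))) (d : Finset (Fin n) → Fin s → ℝ),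
    (∀ Y ∈ P.parts, ∀ i, 0 ≤ d Y i ∧ d Y i ≤ μ) ∧
    ∑ Y ∈ P.parts, ∑ S : Finset (Fin s),
      |(((Y.filter (fun v => tr G u v = S)).card : ℕ) : ℝ) -
        (∏ i, if i ∈ S then d Y i else 1 - d Y i) * Y.card| ≤ ε * n

/-- all pairs of disjoint sets with at least `δ n` elements have density in `[γ, 1 - γ]` -/
def Rect {n : ℕ} (G : SimpleGraph (Fin n)) (γ δ : ℝ) : Prop :=
  ∀ X Y : Finset (Fin n), Disjoint X Y → δ * n ≤ X.card → δ * n ≤ Y.card →
    γ * (X.card * Y.card) ≤ GCP.edg G X Y ∧ (GCP.edg G X Y : ℝ) ≤ (1 - γ) * (X.card * Y.card)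

/-- the only `N : Fin s → Fin n → K`, supported on the non-edges between `u i` and `v` and on the columns `v ∈ T0`,
with all columns orthogonal to the columns `j ∈ J` of `X` and all rows orthogonal to all columns of `X`, is zero -/
def Kill {n s : ℕ} {κ K : Type} [CommRing K] (G : SimpleGraph (Fin n)) (u : Fin s → Fin n)
    (T0 : Finset (Fin n)) (J : Finset κ) (X : Fin n → κ → K) : Prop :=
  ∀ N : Fin s → Fin n → K, (∀ i v, N i v ≠ 0 → ¬ G.Adj (u i) v ∨ v ∈ T0) →
    (∀ v, ∀ j ∈ J, ∑ i, N i v * X (u i) j = 0) → (∀ i j, ∑ v, N i v * X v j = 0) → ∀ i v, N i v = 0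

/-- the matrix with the entries `x` and the support given by the family `Q` -/
noncomputable def mat {n : ℕ} {κ : Type} (Q : κ → Finset (Fin n)) (x : Fin n × κ → ℝ) :
    Fin n → κ → ℝ := fun v j => if v ∈ Q j then x (v, j) else 0

/-- the number of pairs `(x, y) ∈ X × Y` with `ρ x y` -/
noncomputable def edgR {n : ℕ} (ρ : Fin n → Fin n → Prop) (X Y : Finset (Fin n)) : ℕ :=
  by classical exact ((X ×ˢ Y).filter (fun p => ρ p.1 p.2)).card

/-- the pair `(P, P')` is regular for `ρ` with density `d` and error `ε` -/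
def CutR {n : ℕ} (ρ : Fin n → Fin n → Prop) (P P' : Finset (Fin n)) (ε d : ℝ) : Prop :=
  ∀ X ⊆ P, ∀ Y ⊆ P', |(edgR ρ X Y : ℝ) - d * (X.card * Y.card)| ≤ ε * (P.card * P'.card)

end GCQ
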