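import Pool.Agent.GCQ.Defs

/-!
# GCQ-DegV: degeneracy outside of a large set

PLAN. `E1 = univ.filter (fun v => v ∉ L ∧ (number of w ∈ L with Gᶜ.Adj v w) < γ * L.card)`. CLAIM `E1.card < δ n`: otherwise `Rect` for the disjoint sets `E1`, `L` gives `edg G E1 L ≤ (1 - γ) |E1| |L|`, so the number of the pairs `(v, w) ∈ E1 × L` with `Gᶜ.Adj v w` is
`|E1| |L| - edg G E1 L ≥ γ |E1| |L|` (`Gᶜ.Adj v w ↔ ¬ G.Adj v w` for `v ≠ w`), but it is the sum over `v ∈ E1` of numbers `< γ |L|`, and `E1` is nonempty (`0 < δ n ≤ E1.card`): contradiction.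
`E2 = univ.filter (fun v => D' < dg Gᶜ v)`. If `S ⊆ E1 ∪ E2` then any `v ∈ S` has `(nb Gᶜ S v).card ≤ S.card ≤ δ n + τ n`. Otherwise take `v ∈ S`, `v ∉ E1`, `v ∉ E2`; `v ∉ L`, so `v` has at least `γ |L|` `Gᶜ`-neighbours in `L`, these are not in `S`, so
`(nb Gᶜ S v).card + γ |L| ≤ dg Gᶜ v ≤ D'`.
-/

set_option autoImplicit false

open Finset

namespace GCQ

open Classical in
private theorem dv_row {n : ℕ} (G : SimpleGraph (Fin n)) (L : Finset (Fin n)) {v : Fin n} (hv : v ∉ L) :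
    (L.filter (fun w => G.Adj v w)).card + (L.filter (fun w => Gᶜ.Adj v w)).card = L.card := by
  have h : L.filter (fun w => Gᶜ.Adj v w) = L.filter (fun w => ¬ G.Adj v w) := by
    refine Finset.filter_congr fun w hw => ?_
    rw [SimpleGraph.compl_adj]
    constructor
    · exact fun h => h.2
    · exact fun h => ⟨fun h2 => hv (h2 ▸ hw), h⟩
  rw [h]
  exact Finset.card_filter_add_card_filter_not _

open Classical in
private theorem dv_edg {n : ℕ} (G : SimpleGraph (Fin n)) (X Y : Finset (Fin n)) :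
    GCP.edg G X Y = ∑ v ∈ X, (Y.filter (fun w => G.Adj v w)).card := by
  unfold GCP.edg
  rw [Finset.card_filter, Finset.sum_product]
  exact Finset.sum_congr rfl fun v _ => (Finset.card_filter _ _).symm

open Classical in
private theorem dv_E1 {n : ℕ} (G : SimpleGraph (Fin n)) (γ δ : ℝ) (hδ : 0 < δ * n)
    (hR : Rect G γ δ) (L : Finset (Fin n)) (hL : δ * n ≤ L.card) :
    ((univ.filter (fun v => v ∉ L ∧
      ((L.filter (fun w => Gᶜ.Adj v w)).card : ℝ) < γ * L.card)).card : ℝ) < δ * n := by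
  by_contra hcon
  rw [not_lt] at hcon
  set E1 := univ.filter (fun v => v ∉ L ∧
      ((L.filter (fun w => Gᶜ.Adj v w)).card : ℝ) < γ * L.card) with hE1
  have hd : Disjoint E1 L := by
    rw [Finset.disjoint_left]
    intro v hv
    rw [hE1, Finset.mem_filter] at hv
    exact hv.2.1
  have h1 := (hR E1 L hd hcon hL).2
  rw [dv_edg] at h1
  have hne : E1.Nonempty := by
    rw [← Finset.card_pos]
    have h2 : (0 : ℝ) < E1.card := lt_of_lt_of_le hδ hcon
    exact_mod_cast h2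
  have h2 : ∑ v ∈ E1, ((L.filter (fun w => Gᶜ.Adj v w)).card : ℝ) < ∑ v ∈ E1, γ * (L.card : ℝ) := by
    refine Finset.sum_lt_sum_of_nonempty hne fun v hv => ?_
    rw [hE1, Finset.mem_filter] at hv
    exact hv.2.2
  have h3 : ∑ v ∈ E1, ((L.filter (fun w => G.Adj v w)).card : ℝ) +
      ∑ v ∈ E1, ((L.filter (fun w => Gᶜ.Adj v w)).card : ℝ) = E1.card * L.card := by
    rw [← Finset.sum_add_distrib, ← nsmul_eq_mul, ← Finset.sum_const]
    refine Finset.sum_congr rfl fun v hv => ?_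
    rw [hE1, Finset.mem_filter] at hv
    exact_mod_cast dv_row G L hv.2.1
  rw [Finset.sum_const, nsmul_eq_mul] at h2
  push_cast at h1
  linarith

open Classical in
theorem degV {n : ℕ} (G : SimpleGraph (Fin n)) (γ δ τ : ℝ) (hδ : 0 < δ * n) (hR : Rect G γ δ)
    (L : Finset (Fin n)) (hL : δ * n ≤ L.card) (D' : ℕ)
    (hD : ((univ.filter (fun v => D' < dg Gᶜ v)).card : ℝ) ≤ τ * n) (S : Finset (Fin n))
    (hS : S.Nonempty) (hSL : Disjoint S L) :
    ∃ v ∈ S, ((MrGC.nb Gᶜ S v).card : ℝ) ≤ max (D' - γ * L.card) ((τ + δ) * n) := by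
  have hE1 := dv_E1 G γ δ hδ hR L hL
  by_cases h : ∃ v ∈ S, ¬ (v ∉ L ∧ ((L.filter (fun w => Gᶜ.Adj v w)).card : ℝ) < γ * L.card) ∧
      ¬ D' < dg Gᶜ v
  · obtain ⟨v, hvS, h1, h2⟩ := h
    have hvL : v ∉ L := fun h => Finset.disjoint_left.1 hSL hvS h
    have h3 : γ * L.card ≤ ((L.filter (fun w => Gᶜ.Adj v w)).card : ℝ) := by
      by_contra h4
      exact h1 ⟨hvL, not_le.1 h4⟩
    refine ⟨v, hvS, le_max_of_le_left ?_⟩
    have h5 : (MrGC.nb Gᶜ S v).card + (L.filter (fun w => Gᶜ.Adj v w)).card ≤ dg Gᶜ v := by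
      have hdis : Disjoint (MrGC.nb Gᶜ S v) (L.filter (fun w => Gᶜ.Adj v w)) := by
        rw [Finset.disjoint_left]
        intro w hw hw'
        rw [MrGC.mem_nb] at hw
        rw [Finset.mem_filter] at hw'
        exact Finset.disjoint_left.1 hSL hw.1 hw'.1
      rw [← Finset.card_union_of_disjoint hdis]
      unfold dg
      refine Finset.card_le_card fun w hw => ?_
      simp only [Finset.mem_filter, Finset.mem_univ, true_and]
      rcases Finset.mem_union.1 hw with hw | hw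
      · exact (MrGC.mem_nb.1 hw).2
      · exact (Finset.mem_filter.1 hw).2
    have h6 : ((MrGC.nb Gᶜ S v).card : ℝ) + ((L.filter (fun w => Gᶜ.Adj v w)).card : ℝ) ≤ D' := by
      exact_mod_cast h5.trans (not_lt.1 h2)
    linarith
  · obtain ⟨v, hv⟩ := hS
    refine ⟨v, hv, le_max_of_le_right ?_⟩
    have h1 : S ⊆ univ.filter (fun v => v ∉ L ∧
        ((L.filter (fun w => Gᶜ.Adj v w)).card : ℝ) < γ * L.card) ∪
        univ.filter (fun v => D' < dg Gᶜ v) := by
      intro w hw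
      rw [Finset.mem_union, Finset.mem_filter, Finset.mem_filter]
      by_contra h2
      rw [not_or] at h2
      exact h ⟨w, hw, fun h3 => h2.1 ⟨Finset.mem_univ _, h3⟩,
        fun h3 => h2.2 ⟨Finset.mem_univ _, h3⟩⟩
    have h2 : ((MrGC.nb Gᶜ S v).card : ℝ) ≤ S.card := by
      have h3 : MrGC.nb Gᶜ S v ⊆ S := fun w hw => (MrGC.mem_nb.1 hw).1
      exact_mod_cast Finset.card_le_card h3
    have h3 : (S.card : ℝ) ≤ ((univ.filter (fun v => v ∉ L ∧
        ((L.filter (fun w => Gᶜ.Adj v w)).card : ℝ) < γ * L.card)).card : ℝ) +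
        ((univ.filter (fun v => D' < dg Gᶜ v)).card : ℝ) := by
      exact_mod_cast (Finset.card_le_card h1).trans (Finset.card_union_le _ _)
    linarith

end GCQ
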