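import Pool.Agent.GCQ.Defs
import Pool.Agent.GCP.Deg

/-!
# GCQ-Dich: either the degeneracies have a small sum or the graph is nearly regular

PLAN. `0 < γ ≤ 1/2`. WLOG `τ ≤ 1 / 8`, `η ≤ 1` (shrink). Choose `c1 = min (γ / 16) (min (γ τ / 8) (η / 4))`, `δ = min (γ / 64) (τ / 4)` and `n0` large (`δ n0 ≥ 4`, `c1 n0 ≥ 4`, ...). For a graph `H` let `D_H` be its degeneracy (least `D` with
`GCP.Degen H D`) and `S_H` a nonempty set with `D_H ≤ (MrGC.nb H S_H v).card` for all `v ∈ S_H` (see `Pool/Agent/GCP/Deg.lean`; if `D_H = 0` take `univ`). Let `D1, S1` belong to `G` and `D2, S2` to `Gᶜ`; `D1 + D2 + 1 ≤ n`. If `D1 + D2 ≤ (1 - c1) n`: first alternative. Otherwise: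
(a) `D1 ≤ (1 - γ / 2) |S1| + δ n + 1` and the same for `D2`: if `|S1| ≤ 4 δ n` then use `D1 ≤ |S1|` and `4 δ n ≤ γ n / 16`.. (state it in the weak form `D1 ≤ (1 - γ/2) |S1| + 4 δ n + 1`); otherwise split `S1` into two halves `A`, `A'` (at least `δ n` elements each); `Rect`
gives `edg Gᶜ A A' ≥ γ |A| |A'|` so some `v ∈ A` has at least `γ |A'|` non-neighbours in `A'`, and `D1 ≤ |nb G S1 v| ≤ |S1| - γ |A'| ≤ (1 - γ/2) |S1| + 1`. (b) `S = S1 ∩ S2` has at least `δ n` elements: otherwise `|S1| + |S2| ≤ n + δ n` and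
`D1 + D2 ≤ (1 - γ/2)(1 + δ) n + 8 δ n + 2 < (1 - c1) n`. (c) `|univ \ S1| ≤ (τ / 2) n`, and the same for `S2`: otherwise `Rect` for `S` and `univ \ S1` (disjoint): `edg G S (univ \ S1) ≥ γ |S| |univ \ S1|`, some `v ∈ S` has at least `γ τ n / 2` `G`-neighbours outside `S1`, so
`D1 + D2 ≤ |nb G S1 v| + |nb Gᶜ S2 v| ≤ (dg G v - γ τ n / 2) + dg Gᶜ v ≤ n - γ τ n / 2`: contradiction to `D1 + D2 > (1 - c1) n`. (For `S2` use `Gᶜ`-neighbours outside `S2`.) (d) For `v ∈ S`: `dg Gᶜ v ≥ D2`, so `dg G v ≤ n - 1 - D2 ≤ D1 + c1 n`; in the same way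
`dg Gᶜ v ≤ D2 + c1 n`. Take `D = ⌈D1 + c1 n⌉₊`, `D' = ⌈D2 + c1 n⌉₊`: the exceptional vertices are outside `S`, at most `τ n`; `D + D' ≤ n + 2 c1 n + 2 ≤ (1 + η) n`; `D ≤ (1 - γ/4) n` by (a) (`D1 ≤ (1 - γ/2) n + 4 δ n + 1`);
`D ≥ D1 > (1 - c1) n - D2 ≥ (γ / 2 - c1 - 4 δ) n - 1 ≥ γ n / 4`, in the same way `D'`.
-/

set_option autoImplicit false

open Finset

namespace GCQ

private theorem mem_nbD {n : ℕ} {Ω : SimpleGraph (Fin n)} {S : Finset (Fin n)} {v u : Fin n} :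
    u ∈ MrGC.nb Ω S v ↔ u ∈ S ∧ Ω.Adj v u := by
  classical
  simp [MrGC.nb]

/-- the least degeneracy with a witness -/
private theorem exists_minD {n : ℕ} (hn : 0 < n) (Ω : SimpleGraph (Fin n)) :
    ∃ D : ℕ, GCP.Degen Ω D ∧ ∃ S : Finset (Fin n), S.Nonempty ∧
      ∀ v ∈ S, D ≤ (MrGC.nb Ω S v).card := by
  classical
  have hex : ∃ D, GCP.Degen Ω D := by
    refine ⟨n, fun S hS => ?_⟩
    obtain ⟨v, hv⟩ := hS
    exact ⟨v, hv, (card_le_univ _).trans (by simp)⟩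
  obtain ⟨D, hD, hmin⟩ : ∃ D, GCP.Degen Ω D ∧ ∀ D' < D, ¬ GCP.Degen Ω D' :=
    ⟨Nat.find hex, Nat.find_spec hex, fun _ h => Nat.find_min hex h⟩
  refine ⟨D, hD, ?_⟩
  rcases Nat.eq_zero_or_pos D with h0 | h0
  · refine ⟨univ, ⟨⟨0, hn⟩, mem_univ _⟩, fun v _ => ?_⟩
    rw [h0]
    exact Nat.zero_le _
  · have hm : ¬ GCP.Degen Ω (D - 1) := hmin (D - 1) (by omega)
    unfold GCP.Degen at hm
    push Not at hm
    obtain ⟨S, hS, h⟩ := hm
    refine ⟨S, hS, fun v hv => ?_⟩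
    have := h v hv
    omega

private theorem edg_sum {n : ℕ} (G : SimpleGraph (Fin n)) (X Y : Finset (Fin n)) :
    GCP.edg G X Y = ∑ v ∈ X, (MrGC.nb G Y v).card := by
  classical
  unfold GCP.edg
  rw [card_filter, sum_product]
  refine sum_congr rfl fun v _ => ?_
  have h : MrGC.nb G Y v = Y.filter (fun w => G.Adj v w) := by
    ext u
    rw [mem_nbD, mem_filter]
  rw [h, card_filter]

private theorem nb_compl {n : ℕ} (G : SimpleGraph (Fin n)) (Y : Finset (Fin n)) (v : Fin n)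
    (hv : v ∉ Y) : (MrGC.nb G Y v).card + (MrGC.nb Gᶜ Y v).card = Y.card := by
  classical
  rw [← card_union_of_disjoint]
  · congr 1
    ext u
    rw [mem_union, mem_nbD, mem_nbD, SimpleGraph.compl_adj]
    constructor
    · rintro (h | h)
      · exact h.1
      · exact h.1
    · intro h
      by_cases h1 : G.Adj v u
      · exact Or.inl ⟨h, h1⟩
      · exact Or.inr ⟨h, fun h2 => hv (h2 ▸ h), h1⟩
  · rw [disjoint_left]
    intro u hu hu'
    rw [mem_nbD] at hu hu'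
    exact ((SimpleGraph.compl_adj G v u).1 hu'.2).2 hu.2

private theorem edg_compl {n : ℕ} (G : SimpleGraph (Fin n)) (X Y : Finset (Fin n))
    (h : Disjoint X Y) : GCP.edg G X Y + GCP.edg Gᶜ X Y = X.card * Y.card := by
  rw [edg_sum, edg_sum, ← sum_add_distrib]
  rw [sum_congr rfl (fun v hv => nb_compl G Y v (disjoint_left.1 h hv)), sum_const, smul_eq_mul]

private theorem rect_compl {n : ℕ} (G : SimpleGraph (Fin n)) (γ δ : ℝ) (h : Rect G γ δ) :
    Rect Gᶜ γ δ := by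
  intro X Y hXY hX hY
  obtain ⟨h1, h2⟩ := h X Y hXY hX hY
  have h3 : (GCP.edg G X Y : ℝ) + GCP.edg Gᶜ X Y = X.card * Y.card := by
    exact_mod_cast edg_compl G X Y hXY
  constructor <;> nlinarith

private theorem dg_eq {n : ℕ} (G : SimpleGraph (Fin n)) (S : Finset (Fin n)) (v : Fin n) :
    (MrGC.nb G S v).card + (MrGC.nb G (univ \ S) v).card = dg G v := by
  classical
  unfold dg
  rw [← card_union_of_disjoint]
  · congr 1
    ext u
    rw [mem_union, mem_nbD, mem_nbD, mem_filter, mem_sdiff]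
    constructor
    · rintro (h | h)
      · exact ⟨mem_univ _, h.2⟩
      · exact ⟨mem_univ _, h.2⟩
    · rintro ⟨_, h⟩
      by_cases h1 : u ∈ S
      · exact Or.inl ⟨h1, h⟩
      · exact Or.inr ⟨⟨mem_univ _, h1⟩, h⟩
  · rw [disjoint_left]
    intro u hu hu'
    rw [mem_nbD] at hu hu'
    exact (mem_sdiff.1 hu'.1).2 hu.1

private theorem dg_compl {n : ℕ} (G : SimpleGraph (Fin n)) (v : Fin n) :
    dg G v + dg Gᶜ v + 1 = n := by
  classical
  have h1 := nb_compl G (univ.erase v) v (notMem_erase v univ)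
  have h2 : ∀ H : SimpleGraph (Fin n), (MrGC.nb H (univ.erase v) v).card = dg H v := by
    intro H
    unfold dg
    congr 1
    ext u
    rw [mem_nbD, mem_filter, mem_erase]
    constructor
    · rintro ⟨_, h⟩
      exact ⟨mem_univ _, h⟩
    · rintro ⟨_, h⟩
      exact ⟨⟨fun h3 => H.irrefl (h3 ▸ h), mem_univ _⟩, h⟩
  rw [h2, h2, card_erase_of_mem (mem_univ v), card_univ, Fintype.card_fin] at h1
  have : 0 < n := v.pos
  omega

private theorem nb_le {n : ℕ} (G : SimpleGraph (Fin n)) (S : Finset (Fin n)) (v : Fin n) :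
    (MrGC.nb G S v).card ≤ S.card :=
  card_le_card (fun u hu => (mem_nbD.1 hu).1)

/-- step (a) -/
private theorem step_a {n : ℕ} (G : SimpleGraph (Fin n)) (γ δ : ℝ) (hγ : 0 < γ) (hγ1 : γ ≤ 1 / 2)
    (hδn : 4 ≤ δ * n) (hG : Rect G γ δ) (S : Finset (Fin n)) (hS : S.Nonempty) (D : ℕ)
    (hD : ∀ v ∈ S, D ≤ (MrGC.nb G S v).card) : (D : ℝ) ≤ (1 - γ / 2) * S.card + 4 * δ * n := by
  classical
  by_cases hs : (S.card : ℝ) ≤ 4 * δ * n
  · obtain ⟨v, hv⟩ := hS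
    have h1 : (D : ℝ) ≤ S.card := by exact_mod_cast (hD v hv).trans (nb_le G S v)
    have h2 : (0 : ℝ) ≤ S.card := Nat.cast_nonneg _
    nlinarith
  · push Not at hs
    obtain ⟨A, hAS, hA⟩ := exists_subset_card_eq (s := S) (n := S.card / 2) (Nat.div_le_self _ _)
    have hA' : (S \ A).card = S.card - S.card / 2 := by
      rw [card_sdiff_of_subset hAS, hA]
    have k1 : (S.card : ℝ) ≤ 2 * A.card + 1 := by
      rw [hA]
      have : S.card ≤ 2 * (S.card / 2) + 1 := by omega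
      exact_mod_cast this
    have k2 : (S.card : ℝ) ≤ 2 * (S \ A).card := by
      rw [hA']
      have : S.card ≤ 2 * (S.card - S.card / 2) := by omega
      exact_mod_cast this
    have k3 : (A.card : ℝ) + (S \ A).card = S.card := by
      rw [hA, hA']
      have : S.card / 2 + (S.card - S.card / 2) = S.card := by omega
      exact_mod_cast this
    obtain ⟨-, h2⟩ := hG A (S \ A) disjoint_sdiff (by nlinarith) (by nlinarith)
    have hAne : A.Nonempty := by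
      rw [← card_pos]
      have : (0 : ℝ) < A.card := by nlinarith
      exact_mod_cast this
    obtain ⟨v, hvA, hv⟩ : ∃ v ∈ A, ((MrGC.nb G (S \ A) v).card : ℝ) ≤ (1 - γ) * (S \ A).card := by
      by_contra hcon
      push Not at hcon
      have h3 : ∑ _v ∈ A, (1 - γ) * ((S \ A).card : ℝ) < ∑ v ∈ A, ((MrGC.nb G (S \ A) v).card : ℝ) :=
        sum_lt_sum_of_nonempty hAne (fun v hv => hcon v hv)
      rw [sum_const, nsmul_eq_mul] at h3
      rw [edg_sum] at h2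
      push_cast at h2
      nlinarith
    have h4 : (MrGC.nb G S v).card ≤ A.card + (MrGC.nb G (S \ A) v).card := by
      have h5 : MrGC.nb G S v ⊆ A ∪ MrGC.nb G (S \ A) v := by
        intro u hu
        rw [mem_union]
        rw [mem_nbD] at hu
        by_cases hu1 : u ∈ A
        · exact Or.inl hu1
        · exact Or.inr (mem_nbD.2 ⟨mem_sdiff.2 ⟨hu.1, hu1⟩, hu.2⟩)
      exact (card_le_card h5).trans (card_union_le _ _)
    have h6 : (D : ℝ) ≤ A.card + (MrGC.nb G (S \ A) v).card := by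
      exact_mod_cast (hD v (hAS hvA)).trans h4
    nlinarith

/-- step (c) -/
private theorem step_c {n : ℕ} (G : SimpleGraph (Fin n)) (γ δ τ : ℝ) (hγ : 0 < γ) 
    (hδτ : δ ≤ τ / 4) (hτ : 0 < τ) (hn : 0 < n) (hG : Rect G γ δ) (S T1 T2 : Finset (Fin n))
    (hS : δ * n ≤ S.card) (hSne : S.Nonempty) (hST1 : S ⊆ T1) (hST2 : S ⊆ T2) (D1 D2 : ℕ)
    (hD1 : ∀ v ∈ T1, D1 ≤ (MrGC.nb G T1 v).card) (hD2 : ∀ v ∈ T2, D2 ≤ (MrGC.nb Gᶜ T2 v).card)
    (hD : (1 - γ * τ / 4) * n < (D1 : ℝ) + D2) :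
    ((univ \ T1).card : ℝ) ≤ τ / 2 * n := by
  classical
  by_contra hcon
  push Not at hcon
  have hn' : (0 : ℝ) < n := by exact_mod_cast hn
  have hdis : Disjoint S (univ \ T1) := by
    rw [disjoint_left]
    intro u hu hu'
    exact (mem_sdiff.1 hu').2 (hST1 hu)
  obtain ⟨h1, -⟩ := hG S (univ \ T1) hdis hS (by nlinarith)
  obtain ⟨v, hvS, hv⟩ : ∃ v ∈ S, γ * ((univ \ T1).card : ℝ) ≤ (MrGC.nb G (univ \ T1) v).card := by
    by_contra hcon2
    push Not at hcon2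
    have h3 : ∑ v ∈ S, ((MrGC.nb G (univ \ T1) v).card : ℝ) < ∑ _v ∈ S, γ * ((univ \ T1).card : ℝ) :=
      sum_lt_sum_of_nonempty hSne (fun v hv => hcon2 v hv)
    rw [sum_const, nsmul_eq_mul] at h3
    rw [edg_sum] at h1
    push_cast at h1
    nlinarith
  have h2 := dg_eq G T1 v
  have h3 := dg_eq Gᶜ T2 v
  have h4 := dg_compl G v
  have h5 := hD1 v (hST1 hvS)
  have h6 := hD2 v (hST2 hvS)
  have h7 : D1 + D2 + (MrGC.nb G (univ \ T1) v).card + 1 ≤ n := by omega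
  have h8 : (D1 : ℝ) + D2 + (MrGC.nb G (univ \ T1) v).card + 1 ≤ n := by exact_mod_cast h7
  have h9 : γ * (τ / 2 * n) < γ * ((univ \ T1).card : ℝ) := mul_lt_mul_of_pos_left hcon hγ
  have h10 : 0 < γ * τ * n := by positivity
  nlinarith

open Classical in
theorem dich (γ τ η : ℝ) (hγ : 0 < γ) (hγ1 : γ ≤ 1 / 2) (hτ : 0 < τ) (hη : 0 < η) :
    ∃ c1 δ : ℝ, 0 < c1 ∧ 0 < δ ∧ ∃ n0 : ℕ, ∀ n ≥ n0, ∀ G : SimpleGraph (Fin n), Rect G γ δ →
      (∃ D D' : ℕ, GCP.Degen G D ∧ GCP.Degen Gᶜ D' ∧ D + D' + 1 ≤ n ∧ (D : ℝ) + D' ≤ (1 - c1) * n) ∨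
      (∃ D D' : ℕ, (D : ℝ) + D' ≤ (1 + η) * n ∧ (D : ℝ) ≤ (1 - γ / 4) * n ∧
        (D' : ℝ) ≤ (1 - γ / 4) * n ∧ γ / 4 * n ≤ D ∧ γ / 4 * n ≤ D' ∧
        ((univ.filter (fun v => D < dg G v)).card : ℝ) ≤ τ * n ∧
        ((univ.filter (fun v => D' < dg Gᶜ v)).card : ℝ) ≤ τ * n) := by
  obtain ⟨c1, hc1, hc1a, hc1b, hc1c⟩ : ∃ c1 : ℝ, 0 < c1 ∧ c1 ≤ γ / 16 ∧ c1 ≤ γ * τ / 8 ∧ c1 ≤ η / 4 :=
    ⟨min (γ / 16) (min (γ * τ / 8) (η / 4)), by positivity, min_le_left _ _,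
      (min_le_right _ _).trans (min_le_left _ _), (min_le_right _ _).trans (min_le_right _ _)⟩
  obtain ⟨δ, hδ, hδa, hδb⟩ : ∃ δ : ℝ, 0 < δ ∧ δ ≤ γ / 64 ∧ δ ≤ τ / 4 :=
    ⟨min (γ / 64) (τ / 4), by positivity, min_le_left _ _, min_le_right _ _⟩
  refine ⟨c1, δ, hc1, hδ, ⌈4 / δ⌉₊ + ⌈2 / η⌉₊ + ⌈8 / γ⌉₊ + 1, ?_⟩
  intro n hn G hG
  have hn0 : 0 < n := by omega
  have hn' : (0 : ℝ) < n := by exact_mod_cast hn0
  have hδn : 4 ≤ δ * n := by
    have h1 : 4 / δ ≤ n := (Nat.le_ceil _).trans (by exact_mod_cast (by omega : ⌈4 / δ⌉₊ ≤ n))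
    rw [div_le_iff₀ hδ] at h1
    linarith
  have hηn : 2 ≤ η * n := by
    have h1 : 2 / η ≤ n := (Nat.le_ceil _).trans (by exact_mod_cast (by omega : ⌈2 / η⌉₊ ≤ n))
    rw [div_le_iff₀ hη] at h1
    linarith
  have hγn : 8 ≤ γ * n := by
    have h1 : 8 / γ ≤ n := (Nat.le_ceil _).trans (by exact_mod_cast (by omega : ⌈8 / γ⌉₊ ≤ n))
    rw [div_le_iff₀ hγ] at h1
    linarith
  obtain ⟨D1, hdeg1, S1, hS1, hD1⟩ := exists_minD hn0 G
  obtain ⟨D2, hdeg2, S2, hS2, hD2⟩ := exists_minD hn0 Gᶜ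
  have hsum : D1 + D2 + 1 ≤ n := by
    obtain ⟨E, E', hE, hE1, hE2⟩ := GCP.degen_sum hn0 G
    obtain ⟨v, hv, hv1⟩ := hE1 S1 hS1
    obtain ⟨w, hw, hw1⟩ := hE2 S2 hS2
    have := hD1 v hv
    have := hD2 w hw
    omega
  by_cases hcase : (D1 : ℝ) + D2 ≤ (1 - c1) * n
  · exact Or.inl ⟨D1, D2, hdeg1, hdeg2, hsum, hcase⟩
  · push Not at hcase
    right
    have hGc := rect_compl G γ δ hG
    have hsum' : (D1 : ℝ) + D2 + 1 ≤ n := by exact_mod_cast hsum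
    have a1 := step_a G γ δ hγ hγ1 hδn hG S1 hS1 D1 hD1
    have a2 := step_a Gᶜ γ δ hγ hγ1 hδn hGc S2 hS2 D2 hD2
    have b1 : (S1.card : ℝ) ≤ n := by
      have : S1.card ≤ n := (card_le_univ _).trans (by simp)
      exact_mod_cast this
    have b2 : (S2.card : ℝ) ≤ n := by
      have : S2.card ≤ n := (card_le_univ _).trans (by simp)
      exact_mod_cast this
    -- the products that occur
    have m1 : c1 * n ≤ γ / 16 * n := mul_le_mul_of_nonneg_right hc1a hn'.le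
    have m2 : c1 * n ≤ γ * τ / 8 * n := mul_le_mul_of_nonneg_right hc1b hn'.le
    have m3 : c1 * n ≤ η / 4 * n := mul_le_mul_of_nonneg_right hc1c hn'.le
    have m4 : δ * n ≤ γ / 64 * n := mul_le_mul_of_nonneg_right hδa hn'.le
    have hb : δ * n ≤ (S1 ∩ S2).card := by
      by_contra hcon
      push Not at hcon
      have h1 : (S1.card : ℝ) + S2.card ≤ n + (S1 ∩ S2).card := by
        have h2 := card_union_add_card_inter S1 S2
        have h3 : (S1 ∪ S2).card ≤ n := (card_le_univ _).trans (by simp)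
        have h4 : S1.card + S2.card ≤ n + (S1 ∩ S2).card := by omega
        exact_mod_cast h4
      have h5 : (1 - γ / 2) * ((S1.card : ℝ) + S2.card) ≤ (1 - γ / 2) * (n + δ * n) :=
        mul_le_mul_of_nonneg_left (by linarith) (by linarith)
      nlinarith
    have hSne : (S1 ∩ S2).Nonempty := by
      rw [← card_pos]
      have : (0 : ℝ) < (S1 ∩ S2).card := by linarith
      exact_mod_cast this
    have hlow : (1 - γ * τ / 4) * n < (D1 : ℝ) + D2 := by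
      have : 0 < γ * τ * n := by positivity
      nlinarith
    have c1' := step_c G γ δ τ hγ hδb hτ hn0 hG (S1 ∩ S2) S1 S2 hb hSne inter_subset_left
      inter_subset_right D1 D2 hD1 hD2 hlow
    have c2' := step_c Gᶜ γ δ τ hγ hδb hτ hn0 hGc (S1 ∩ S2) S2 S1 hb hSne inter_subset_right
      inter_subset_left D2 D1 hD2 (by rw [compl_compl]; exact hD1) (by linarith)
    have hout : ((univ \ (S1 ∩ S2)).card : ℝ) ≤ τ * n := by
      have h1 : (univ \ (S1 ∩ S2)) ⊆ (univ \ S1) ∪ (univ \ S2) := by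
        intro u hu
        rw [mem_sdiff, mem_inter] at hu
        rw [mem_union, mem_sdiff, mem_sdiff]
        by_cases h2 : u ∈ S1
        · exact Or.inr ⟨mem_univ _, fun h3 => hu.2 ⟨h2, h3⟩⟩
        · exact Or.inl ⟨mem_univ _, h2⟩
      have h2 : ((univ \ (S1 ∩ S2)).card : ℝ) ≤ (univ \ S1).card + (univ \ S2).card := by
        exact_mod_cast (card_le_card h1).trans (card_union_le _ _)
      linarith
    have hc1n : 0 < c1 * n := by positivity
    have e1 : (D1 : ℝ) + c1 * n ≤ ⌈(D1 : ℝ) + c1 * n⌉₊ := Nat.le_ceil _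
    have e1' : (⌈(D1 : ℝ) + c1 * n⌉₊ : ℝ) < D1 + c1 * n + 1 :=
      Nat.ceil_lt_add_one (by positivity)
    have e2 : (D2 : ℝ) + c1 * n ≤ ⌈(D2 : ℝ) + c1 * n⌉₊ := Nat.le_ceil _
    have e2' : (⌈(D2 : ℝ) + c1 * n⌉₊ : ℝ) < D2 + c1 * n + 1 :=
      Nat.ceil_lt_add_one (by positivity)
    have f1 : (1 - γ / 2) * (S1.card : ℝ) ≤ (1 - γ / 2) * n :=
      mul_le_mul_of_nonneg_left b1 (by linarith)
    have f2 : (1 - γ / 2) * (S2.card : ℝ) ≤ (1 - γ / 2) * n :=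
      mul_le_mul_of_nonneg_left b2 (by linarith)
    have g1 : ∀ v ∈ S1 ∩ S2, dg G v ≤ ⌈(D1 : ℝ) + c1 * n⌉₊ := by
      intro v hv
      have h1 := dg_compl G v
      have h2 := hD2 v (mem_inter.1 hv).2
      have h3 := dg_eq Gᶜ S2 v
      have h4 : dg G v + D2 + 1 ≤ n := by omega
      have h5 : (dg G v : ℝ) + D2 + 1 ≤ n := by exact_mod_cast h4
      have h6 : (dg G v : ℝ) ≤ ⌈(D1 : ℝ) + c1 * n⌉₊ := by linarith
      exact_mod_cast h6
    have g2 : ∀ v ∈ S1 ∩ S2, dg Gᶜ v ≤ ⌈(D2 : ℝ) + c1 * n⌉₊ := by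
      intro v hv
      have h1 := dg_compl G v
      have h2 := hD1 v (mem_inter.1 hv).1
      have h3 := dg_eq G S1 v
      have h4 : dg Gᶜ v + D1 + 1 ≤ n := by omega
      have h5 : (dg Gᶜ v : ℝ) + D1 + 1 ≤ n := by exact_mod_cast h4
      have h6 : (dg Gᶜ v : ℝ) ≤ ⌈(D2 : ℝ) + c1 * n⌉₊ := by linarith
      exact_mod_cast h6
    refine ⟨⌈(D1 : ℝ) + c1 * n⌉₊, ⌈(D2 : ℝ) + c1 * n⌉₊, by linarith, by linarith, by linarith,
      by linarith, by linarith, ?_, ?_⟩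
    · refine le_trans ?_ hout
      have h1 : (univ.filter (fun v => ⌈(D1 : ℝ) + c1 * n⌉₊ < dg G v)) ⊆ univ \ (S1 ∩ S2) := by
        intro u hu
        rw [mem_filter] at hu
        rw [mem_sdiff]
        exact ⟨mem_univ _, fun h2 => absurd (g1 u h2) (by omega)⟩
      exact_mod_cast card_le_card h1
    · refine le_trans ?_ hout
      have h1 : (univ.filter (fun v => ⌈(D2 : ℝ) + c1 * n⌉₊ < dg Gᶜ v)) ⊆ univ \ (S1 ∩ S2) := by
        intro u hu
        rw [mem_filter] at hu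
        rw [mem_sdiff]
        exact ⟨mem_univ _, fun h2 => absurd (g2 u h2) (by omega)⟩
      exact_mod_cast card_le_card h1

end GCQ
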