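import Mathlib

/-!
# GCQ-Ess: the essential span of a family of vectors (Mathlib only)
-/

set_option autoImplicit false

open Finset Module

namespace GCQ

/-- the functional with the coefficients `φ` -/
private def essL {F : Type} [Field F] {s : ℕ} (φ : Fin s → F) : (Fin s → F) →ₗ[F] F where
  toFun x := ∑ i, x i * φ i
  map_add' x y := by
    rw [← sum_add_distrib]
    exact sum_congr rfl fun i _ => by rw [Pi.add_apply, add_mul]
  map_smul' c x := by
    rw [RingHom.id_apply, smul_eq_mul, mul_sum]
    exact sum_congr rfl fun i _ => by rw [Pi.smul_apply, smul_eq_mul, mul_assoc]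

private theorem essL_surj {F : Type} [Field F] {s : ℕ} (f : (Fin s → F) →ₗ[F] F) :
    ∃ φ : Fin s → F, essL φ = f := by
  refine ⟨fun i => f (fun j => if i = j then 1 else 0), ?_⟩
  ext x
  simp only [LinearMap.comp_apply]
  rw [LinearMap.pi_apply_eq_sum_univ f]
  rfl

open Classical in
theorem ess {F : Type} [Field F] [Fintype F] {n s t e2 : ℕ} {κ : Type} [Fintype κ]
    (Q : κ → Finset (Fin n)) (ht : 0 < t)
    (hit : ∀ T : Finset (Fin n), t ≤ T.card → (univ.filter (fun j => Disjoint (Q j) T)).card ≤ e2)
    (N : Fin n → Fin s → F) (hN : (s + 1) * t < (univ.filter (fun v => N v ≠ 0)).card) :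
    ∃ U : Submodule F (Fin s → F), U ≠ ⊥ ∧ (univ.filter (fun v => N v ∉ U)).card ≤ s * t ∧
      (univ.filter (fun j => finrank F (Submodule.span F (N '' (Q j : Set (Fin n)))) <
        finrank F U)).card ≤ Fintype.card F ^ s * e2 := by
  let b : Submodule F (Fin s → F) → ℕ := fun U => (univ.filter (fun v => N v ∉ U)).card
  have hex : ∃ k : ℕ, ∃ U : Submodule F (Fin s → F), finrank F U = k ∧
      b U ≤ (s + 1 - finrank F U) * t := by
    refine ⟨_, ⊤, rfl, ?_⟩
    have h0 : b ⊤ = 0 := by
      change (univ.filter (fun v => N v ∉ (⊤ : Submodule F (Fin s → F)))).card = 0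
      rw [card_eq_zero, filter_eq_empty_iff]
      intro v _ h
      exact h Submodule.mem_top
    rw [h0]
    exact Nat.zero_le _
  obtain ⟨U, hUk, hUb⟩ := Nat.find_spec hex
  have hmin : ∀ U' : Submodule F (Fin s → F), finrank F U' < finrank F U →
      (s + 1 - finrank F U') * t < b U' := by
    intro U' hU'
    by_contra hcon
    push Not at hcon
    rw [hUk] at hU'
    exact Nat.find_min hex hU' ⟨U', rfl, hcon⟩
  have hUs : finrank F U ≤ s := by
    have h1 := Submodule.finrank_le U
    rwa [Module.finrank_fintype_fun_eq_card, Fintype.card_fin] at h1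
  have hUne : U ≠ ⊥ := by
    intro h
    have h1 : finrank F U = 0 := by
      rw [h]
      exact finrank_bot F _
    rw [h1, Nat.sub_zero] at hUb
    have h2 : b U = (univ.filter (fun v => N v ≠ 0)).card := by
      change (univ.filter (fun v => N v ∉ U)).card = _
      congr 1
      refine filter_congr fun v _ => ?_
      rw [h, Submodule.mem_bot]
    rw [h2] at hUb
    exact absurd hN (not_lt.2 hUb)
  have hU1 : 1 ≤ finrank F U := by
    rw [Nat.one_le_iff_ne_zero]
    intro h
    exact hUne (Submodule.finrank_eq_zero.1 h)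
  refine ⟨U, hUne, hUb.trans (Nat.mul_le_mul_right _ (by omega)), ?_⟩
  let T : (Fin s → F) → Finset (Fin n) := fun φ =>
    univ.filter (fun v => N v ∈ U ∧ essL φ (N v) ≠ 0)
  -- the sets `T φ` are large
  have hT : ∀ φ : Fin s → F, (∃ x ∈ U, essL φ x ≠ 0) → t ≤ (T φ).card := by
    rintro φ ⟨x, hxU, hx⟩
    have hlt : U ⊓ LinearMap.ker (essL φ) < U := by
      refine lt_of_le_of_ne inf_le_left ?_
      intro h
      have h1 : x ∈ U ⊓ LinearMap.ker (essL φ) := by
        rw [h]
        exact hxU
      exact hx (LinearMap.mem_ker.1 (Submodule.mem_inf.1 h1).2)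
    have hfr := Submodule.finrank_lt_finrank_of_lt hlt
    have h1 := hmin _ hfr
    have h2 : b (U ⊓ LinearMap.ker (essL φ)) ≤ b U + (T φ).card := by
      change (univ.filter (fun v => N v ∉ U ⊓ LinearMap.ker (essL φ))).card ≤
        (univ.filter (fun v => N v ∉ U)).card + (T φ).card
      refine le_trans (card_le_card ?_) (card_union_le _ _)
      intro v hv
      rw [mem_filter] at hv
      rw [mem_union, mem_filter]
      by_cases hvU : N v ∈ U
      · right
        refine mem_filter.2 ⟨mem_univ _, hvU, ?_⟩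
        intro h0
        exact hv.2 (Submodule.mem_inf.2 ⟨hvU, LinearMap.mem_ker.2 h0⟩)
      · left
        exact ⟨mem_univ _, hvU⟩
    have h3 : (s + 1 - finrank F U + 1) * t ≤
        (s + 1 - finrank F ↥(U ⊓ LinearMap.ker (essL φ))) * t :=
      Nat.mul_le_mul_right _ (by omega)
    rw [add_mul, one_mul] at h3
    -- minimality does not bound b U from above by less
    have h4 := hUb
    -- b U ≤ (s + 1 - r) t and (s + 1 - r) t + t < b U + card T
    omega
  -- the exceptional `j`
  have hsub : univ.filter (fun j => finrank F (Submodule.span F (N '' (Q j : Set (Fin n)))) <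
      finrank F U) ⊆ (univ : Finset (Fin s → F)).biUnion (fun φ =>
        if (∃ x ∈ U, essL φ x ≠ 0) then univ.filter (fun j => Disjoint (Q j) (T φ)) else ∅) := by
    intro j hj
    rw [mem_filter] at hj
    have hW : ∃ x ∈ U, x ∉ Submodule.span F (N '' {v | v ∈ Q j ∧ N v ∈ U}) := by
      by_contra hcon
      push Not at hcon
      have h1 : U ≤ Submodule.span F (N '' (Q j : Set (Fin n))) := by
        intro x hx
        refine Submodule.span_mono ?_ (hcon x hx)
        exact Set.image_mono (fun v hv => hv.1)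
      exact absurd (Submodule.finrank_mono h1) (not_le.2 hj.2)
    obtain ⟨x, hxU, hxW⟩ := hW
    obtain ⟨f, hf1, hf2⟩ := Submodule.exists_le_ker_of_notMem hxW
    obtain ⟨φ, rfl⟩ := essL_surj f
    rw [mem_biUnion]
    refine ⟨φ, mem_univ _, ?_⟩
    rw [if_pos ⟨x, hxU, hf1⟩, mem_filter]
    refine ⟨mem_univ _, ?_⟩
    rw [disjoint_left]
    intro v hv hvT
    obtain ⟨-, hvU, hv0⟩ := mem_filter.1 hvT
    exact hv0 (LinearMap.mem_ker.1 (hf2 (Submodule.subset_span ⟨v, ⟨hv, hvU⟩, rfl⟩)))
  refine (card_le_card hsub).trans ?_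
  have hcard : (univ : Finset (Fin s → F)).card = Fintype.card F ^ s := by
    rw [card_univ, Fintype.card_fun, Fintype.card_fin]
  rw [← hcard]
  refine card_biUnion_le_card_mul _ _ _ ?_
  intro φ _
  split_ifs with h
  · exact hit _ (hT φ h)
  · rw [card_empty]
    exact Nat.zero_le _

end GCQ
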