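import Pool.Agent.GCQ.Defs

/-!
# GCQ-Ex: product expectations

`ex x F = ∑ S, (∏ i, if i ∈ S then x i else 1 - x i) * F S`.  Splitting at an index `i`:
`ex x F = (1 - x i) * A i x F + x i * A i x (F ∘ insert i)` with `A i x F` the sum over the sets without `i` of the
reduced weight times `F`; `A i x F` does not depend on `x i`.  All statements follow from this.
-/

set_option autoImplicit false

open Finset

namespace GCQ

/-- the reduced weight -/
private noncomputable def exw {s : ℕ} (i : Fin s) (x : Fin s → ℝ) (S : Finset (Fin s)) : ℝ :=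
  ∏ j ∈ univ.erase i, if j ∈ S then x j else 1 - x j

/-- the reduced expectation -/
private noncomputable def exA {s : ℕ} (i : Fin s) (x : Fin s → ℝ) (F : Finset (Fin s) → ℝ) : ℝ :=
  ∑ S ∈ (univ.erase i).powerset, exw i x S * F S

private theorem exw_eq {s : ℕ} (i : Fin s) (x : Fin s → ℝ) (S : Finset (Fin s)) :
    (∏ j, if j ∈ S then x j else 1 - x j) = (if i ∈ S then x i else 1 - x i) * exw i x S :=
  (Finset.mul_prod_erase univ (fun j => if j ∈ S then x j else 1 - x j) (mem_univ i)).symm

private theorem exw_insert {s : ℕ} (i : Fin s) (x : Fin s → ℝ) (S : Finset (Fin s)) :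
    exw i x (insert i S) = exw i x S := by
  unfold exw
  refine Finset.prod_congr rfl (fun j hj => ?_)
  have hji : j ≠ i := (Finset.mem_erase.1 hj).1
  by_cases h : j ∈ S
  · rw [if_pos h, if_pos (Finset.mem_insert_of_mem h)]
  · rw [if_neg h, if_neg (fun h' => (Finset.mem_insert.1 h').elim hji h)]

private theorem exw_nonneg {s : ℕ} (i : Fin s) (x : Fin s → ℝ) (hx : ∀ i, 0 ≤ x i ∧ x i ≤ 1)
    (S : Finset (Fin s)) : 0 ≤ exw i x S := by
  unfold exw
  refine Finset.prod_nonneg (fun j _ => ?_)
  by_cases h : j ∈ S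
  · rw [if_pos h]
    exact (hx j).1
  · rw [if_neg h]
    linarith [(hx j).2]

private theorem ex_notmem {s : ℕ} {i : Fin s} {S : Finset (Fin s)}
    (hS : S ∈ ((univ : Finset (Fin s)).erase i).powerset) : i ∉ S := fun h =>
  Finset.notMem_erase i univ (Finset.mem_powerset.1 hS h)

/-- splitting at `i` -/
private theorem ex_split {s : ℕ} (i : Fin s) (x : Fin s → ℝ) (F : Finset (Fin s) → ℝ) :
    ex x F = (1 - x i) * exA i x F + x i * exA i x (fun S => F (insert i S)) := by
  have h1 : (univ : Finset (Finset (Fin s))) = (insert i ((univ : Finset (Fin s)).erase i)).powerset := by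
    rw [Finset.insert_erase (mem_univ i)]
    ext S
    simp only [mem_univ, Finset.mem_powerset, Finset.subset_univ]
  unfold ex
  rw [h1, Finset.sum_powerset_insert (Finset.notMem_erase i univ)]
  unfold exA
  rw [Finset.mul_sum, Finset.mul_sum]
  congr 1
  · refine Finset.sum_congr rfl (fun S hS => ?_)
    rw [exw_eq i, if_neg (ex_notmem hS)]
    ring
  · refine Finset.sum_congr rfl (fun S hS => ?_)
    rw [exw_eq i, if_pos (Finset.mem_insert_self i S), exw_insert]
    ring

theorem ex_add {s : ℕ} (x : Fin s → ℝ) (F H : Finset (Fin s) → ℝ) :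
    ex x (fun S => F S + H S) = ex x F + ex x H := by
  unfold ex
  rw [← Finset.sum_add_distrib]
  refine Finset.sum_congr rfl (fun S _ => ?_)
  ring

theorem ex_mul {s : ℕ} (x : Fin s → ℝ) (c : ℝ) (F : Finset (Fin s) → ℝ) :
    ex x (fun S => c * F S) = c * ex x F := by
  unfold ex
  rw [Finset.mul_sum]
  refine Finset.sum_congr rfl (fun S _ => ?_)
  ring

theorem ex_sum {s : ℕ} {ι : Type} (x : Fin s → ℝ) (I : Finset ι) (F : ι → Finset (Fin s) → ℝ) :
    ex x (fun S => ∑ i ∈ I, F i S) = ∑ i ∈ I, ex x (F i) := by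
  unfold ex
  rw [Finset.sum_comm]
  refine Finset.sum_congr rfl (fun S _ => ?_)
  rw [Finset.mul_sum]

theorem ex_one {s : ℕ} (x : Fin s → ℝ) : ex x (fun _ => 1) = 1 := by
  have h1 := Finset.prod_add (f := x) (g := fun i => 1 - x i) (s := (univ : Finset (Fin s)))
  have h2 : (∏ i : Fin s, (x i + (1 - x i))) = 1 := by
    refine Finset.prod_eq_one (fun i _ => ?_)
    ring
  rw [h2, Finset.powerset_univ] at h1
  unfold ex
  refine Eq.trans (Finset.sum_congr rfl (fun S _ => ?_)) h1.symm
  rw [mul_one, Finset.prod_ite, Finset.filter_univ_mem, Finset.sdiff_eq_filter]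

theorem ex_le {s : ℕ} (x : Fin s → ℝ) (hx : ∀ i, 0 ≤ x i ∧ x i ≤ 1) (F H : Finset (Fin s) → ℝ)
    (h : ∀ S, F S ≤ H S) : ex x F ≤ ex x H := by
  unfold ex
  refine Finset.sum_le_sum (fun S _ => mul_le_mul_of_nonneg_left (h S) ?_)
  refine Finset.prod_nonneg (fun j _ => ?_)
  by_cases hj : j ∈ S
  · rw [if_pos hj]
    exact (hx j).1
  · rw [if_neg hj]
    linarith [(hx j).2]

theorem ex_ind {s : ℕ} (x : Fin s → ℝ) (i : Fin s) (H : Finset (Fin s) → ℝ) :
    ex x (fun S => if i ∈ S then H (S.filter (fun j => j < i)) else 0) =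
      x i * ex x (fun S => H (S.filter (fun j => j < i))) := by
  have hf : ∀ S : Finset (Fin s), (insert i S).filter (fun j => j < i) = S.filter (fun j => j < i) := by
    intro S
    rw [Finset.filter_insert, if_neg (lt_irrefl i)]
  have h1 : exA i x (fun S => if i ∈ S then H (S.filter (fun j => j < i)) else 0) = 0 := by
    unfold exA
    refine Finset.sum_eq_zero (fun S hS => ?_)
    beta_reduce
    rw [if_neg (ex_notmem hS), mul_zero]
  have h2 : exA i x (fun S => if i ∈ insert i S then H ((insert i S).filter (fun j => j < i)) else 0) =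
      exA i x (fun S => H (S.filter (fun j => j < i))) := by
    unfold exA
    refine Finset.sum_congr rfl (fun S _ => ?_)
    beta_reduce
    rw [if_pos (Finset.mem_insert_self i S), hf]
  have h3 : exA i x (fun S => H ((insert i S).filter (fun j => j < i))) =
      exA i x (fun S => H (S.filter (fun j => j < i))) := by
    unfold exA
    refine Finset.sum_congr rfl (fun S _ => ?_)
    beta_reduce
    rw [hf]
  rw [ex_split i x (fun S => if i ∈ S then H (S.filter (fun j => j < i)) else 0),
    ex_split i x (fun S => H (S.filter (fun j => j < i))), h1, h2, h3]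
  ring

theorem ex_mem {s : ℕ} (x : Fin s → ℝ) (i : Fin s) :
    ex x (fun S => if i ∈ S then 1 else 0) = x i := by
  have h := ex_ind x i (fun _ => 1)
  rw [ex_one, mul_one] at h
  exact h

private theorem ex_upd {s : ℕ} (z : Fin s → ℝ) (hz : ∀ i, 0 ≤ z i ∧ z i ≤ 1) (i : Fin s) (b : ℝ)
    (hb : z i ≤ b) (F : Finset (Fin s) → ℝ) (hF : ∀ S T, S ⊆ T → F T ≤ F S) :
    ex (Function.update z i b) F ≤ ex z F := by
  have hA : ∀ H : Finset (Fin s) → ℝ, exA i (Function.update z i b) H = exA i z H := by
    intro H
    unfold exA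
    refine Finset.sum_congr rfl (fun S _ => ?_)
    have hw : exw i (Function.update z i b) S = exw i z S := by
      unfold exw
      refine Finset.prod_congr rfl (fun j hj => ?_)
      rw [Function.update_of_ne (Finset.mem_erase.1 hj).1]
    rw [hw]
  have hAB : exA i z (fun S => F (insert i S)) ≤ exA i z F := by
    unfold exA
    exact Finset.sum_le_sum (fun S _ => mul_le_mul_of_nonneg_left
      (hF S (insert i S) (Finset.subset_insert i S)) (exw_nonneg i z hz S))
  rw [ex_split i z F, ex_split i (Function.update z i b) F, hA, hA, Function.update_self]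
  nlinarith [mul_nonneg (sub_nonneg.2 hb) (sub_nonneg.2 hAB)]

theorem ex_anti {s : ℕ} (x y : Fin s → ℝ) (hx : ∀ i, 0 ≤ x i ∧ x i ≤ y i ∧ y i ≤ 1)
    (F : Finset (Fin s) → ℝ) (hF : ∀ S T, S ⊆ T → F T ≤ F S) : ex y F ≤ ex x F := by
  have key : ∀ E : Finset (Fin s), ex (fun i => if i ∈ E then y i else x i) F ≤ ex x F := by
    intro E
    induction E using Finset.induction_on with
    | empty =>
      have h : (fun i => if i ∈ (∅ : Finset (Fin s)) then y i else x i) = x := by
        funext i
        rw [if_neg (Finset.notMem_empty i)]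
      rw [h]
    | insert i E hi ih =>
      have h : (fun j => if j ∈ insert i E then y j else x j) =
          Function.update (fun j => if j ∈ E then y j else x j) i (y i) := by
        funext j
        by_cases hj : j = i
        · rw [hj, Function.update_self, if_pos (Finset.mem_insert_self i E)]
        · rw [Function.update_of_ne hj]
          by_cases hjE : j ∈ E
          · rw [if_pos hjE, if_pos (Finset.mem_insert_of_mem hjE)]
          · rw [if_neg hjE, if_neg (fun h' => (Finset.mem_insert.1 h').elim hj hjE)]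
      rw [h]
      refine le_trans (ex_upd _ (fun j => ?_) i (y i) ?_ F hF) ih
      · obtain ⟨h1, h2, h3⟩ := hx j
        show 0 ≤ (if j ∈ E then y j else x j) ∧ (if j ∈ E then y j else x j) ≤ 1
        by_cases hjE : j ∈ E
        · rw [if_pos hjE]
          exact ⟨by linarith, h3⟩
        · rw [if_neg hjE]
          exact ⟨h1, by linarith⟩
      · show (if i ∈ E then y i else x i) ≤ y i
        rw [if_neg hi]
        exact (hx i).2.1
  have h := key univ
  have h2 : (fun i => if i ∈ (univ : Finset (Fin s)) then y i else x i) = y := by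
    funext i
    rw [if_pos (mem_univ i)]
  rw [h2] at h
  exact h

end GCQ
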