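import Pool.Agent.GCQ.Defs
import Pool.Agent.GCP.Hit
import Pool.Agent.GCP.Pot
import Pool.Agent.GCP.Fix
import Pool.Agent.GCP.Rect

/-!
# GCQ-Fam: families of cliques with the hitting property and with Hall's property
-/

set_option autoImplicit false

open Finset

namespace GCQ

open Classical in
/-- families of cliques such that every set with `e n` elements is missed by few of them -/
theorem fam (γ : ℝ) (hγ : 0 < γ) (hγ1 : γ ≤ 1) (e : ℝ) (he : 0 < e) (he1 : e ≤ 1) (L : ℕ) :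
    ∃ δ0 : ℝ, 0 < δ0 ∧ ∃ n0 : ℕ, ∀ n ≥ n0, ∀ G : SimpleGraph (Fin n), ∀ δ : ℝ, δ ≤ δ0 → Rect G γ δ →
      ∀ d : ℕ, ∃ Q : Fin d → Finset (Fin n), (∀ j, ∀ u ∈ Q j, ∀ v ∈ Q j, u ≠ v → G.Adj u v) ∧
        ∀ T : Finset (Fin n), e * n ≤ T.card →
          L * (univ.filter (fun j => Disjoint (Q j) T)).card ≤ n + d := by
  obtain ⟨τ, hτ, h⟩ := GCP.hitting e he he1 L
  obtain ⟨N, n0, hN⟩ := h γ hγ hγ1
  refine ⟨1 / (2 * (N + 1 : ℕ)), by positivity, max n0 (N + 1), fun n hn G δ hδ hR d => ?_⟩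
  have hn0 : n0 ≤ n := (le_max_left _ _).trans hn
  have hnN : N + 1 ≤ n := (le_max_right _ _).trans hn
  have hD : GCP.Dense G τ γ (N + 1) := by
    refine GCP.rect (Nat.succ_pos N) hnN G τ γ hτ.le fun X Y hXY hX hY => ?_
    have h1 : δ * n ≤ (n : ℝ) / (2 * (N + 1 : ℕ)) := by
      calc δ * n ≤ 1 / (2 * (N + 1 : ℕ)) * n := mul_le_mul_of_nonneg_right hδ (by positivity)
        _ = (n : ℝ) / (2 * (N + 1 : ℕ)) := by ring
    exact (hR X Y hXY (h1.trans hX) (h1.trans hY)).1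
  have hD' : GCP.Dense G τ γ N := fun P hP hc => hD P hP (hc.trans (Nat.le_succ _))
  obtain ⟨Q, hQ1, hQ2⟩ := GCP.pot
    (fun Q : Finset (Fin n) => ∀ u ∈ Q, ∀ v ∈ Q, u ≠ v → G.Adj u v)
    (fun T => e * n ≤ T.card) L (by
      intro w hw
      obtain ⟨Q, h1, h2⟩ := hN n hn0 G hD' w hw
      refine ⟨Q, h1, ?_⟩
      convert h2 using 3) d
  refine ⟨Q, hQ1, fun T hT => ?_⟩
  convert hQ2 T hT using 3

/-- a small family of cliques with Hall's property for all sets with at most `m` elements -/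
theorem fam2 {n : ℕ} (G : SimpleGraph (Fin n)) (t m e2 : ℕ) (htm : 2 * t ≤ m)
    (Q : Fin (m + e2) → Finset (Fin n)) (hQ : ∀ j, ∀ u ∈ Q j, ∀ v ∈ Q j, u ≠ v → G.Adj u v)
    (hit1 : ∀ T : Finset (Fin n), t ≤ T.card →
      (by classical exact (univ.filter (fun j => Disjoint (Q j) T)).card) ≤ e2) :
    ∃ (d : ℕ) (Q' : Fin d → Finset (Fin n)), d ≤ m + e2 + t ∧
      (∀ j, ∀ u ∈ Q' j, ∀ v ∈ Q' j, u ≠ v → G.Adj u v) ∧
      ∀ T : Finset (Fin n), T.card ≤ m → Hall Q' T := by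
  classical
  obtain ⟨k, Q', hk, hQ', hH⟩ := GCP.hall Q t m htm (by
    intro T h1 h2
    have h3 := hit1 T h1
    have h4 := Finset.card_filter_add_card_filter_not (s := (univ : Finset (Fin (m + e2))))
      (fun j => Disjoint (Q j) T)
    rw [Finset.card_univ, Fintype.card_fin] at h4
    have h5 : GCP.hit Q T = (univ.filter (fun j => ¬ Disjoint (Q j) T)).card := by
      unfold GCP.hit
      congr!
    have h3' : (univ.filter (fun j => Disjoint (Q j) T)).card ≤ e2 := by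
      convert h3 using 2
    omega)
  refine ⟨m + e2 + k, Q', by omega, ?_, ?_⟩
  · intro j u hu v hv huv
    rcases hQ' j with ⟨i, hi⟩ | ⟨x, hx⟩
    · rw [hi] at hu hv
      exact hQ i u hu v hv huv
    · rw [hx, Finset.mem_singleton] at hu hv
      exact absurd (hu.trans hv.symm) huv
  · intro T hT T' hT'
    have h6 := hH T hT T' hT'
    have h7 : GCP.hit Q' T' = hit Q' T' := by
      unfold GCP.hit hit
      congr!
    rw [← h7]
    exact h6

end GCQ
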