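import Mathlib

/-!
# GCQ-Tinf: if all members of a space have small support then the union of the supports is small (Mathlib only)

PLAN. Count the pairs `(N, v)` with `N ∈ W`, `N v ≠ 0`: at most `m * card W`. For every `v` in the union `T` of the supports the subspace `{N ∈ W | N v = 0}` is a proper subgroup of `W`, so it has at most `card W / 2` elements
(its index is at least `2`; or: pick `N0 ∈ W` with `N0 v ≠ 0`, then `N ↦ N + N0` maps the `N` with `N v = 0` injectively to those with `N v ≠ 0`), so at least half of `W` has `N v ≠ 0`. Hence `T.card * card W / 2 ≤ m * card W`.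
-/

set_option autoImplicit false

open Finset Module

namespace GCQ

open Classical in
theorem tinf {F : Type} [Field F] [Fintype F] {n s m : ℕ} (W : Submodule F (Fin n → Fin s → F))
    (h : ∀ N ∈ W, (univ.filter (fun v => N v ≠ 0)).card ≤ m) :
    (univ.filter (fun v => ∃ N ∈ W, N v ≠ 0)).card ≤ 2 * m := by
  set T := univ.filter (fun v => ∃ N ∈ W, N v ≠ 0) with hT
  set A : Finset (Fin n → Fin s → F) := univ.filter (fun N => N ∈ W) with hA
  have hA0 : 0 < A.card := Finset.card_pos.2 ⟨0, by rw [hA, mem_filter]; exact ⟨mem_univ _, W.zero_mem⟩⟩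
  have h1 : ∀ v ∈ T, A.card ≤ 2 * (A.filter (fun N => N v ≠ 0)).card := by
    intro v hv
    rw [hT, mem_filter] at hv
    obtain ⟨-, N0, hN0, hN0v⟩ := hv
    have h2 : (A.filter (fun N => ¬ N v ≠ 0)).card ≤ (A.filter (fun N => N v ≠ 0)).card := by
      refine Finset.card_le_card_of_injOn (fun N => N + N0) ?_ ?_
      · intro N hN
        rw [Finset.mem_coe, mem_filter, hA, mem_filter, not_not] at hN
        rw [Finset.mem_coe, mem_filter, hA, mem_filter]
        refine ⟨⟨mem_univ _, W.add_mem hN.1.2 hN0⟩, ?_⟩
        show (N + N0) v ≠ 0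
        rw [Pi.add_apply, hN.2, zero_add]
        exact hN0v
      · intro N _ N' _ hNN
        exact add_right_cancel hNN
    have h3 := Finset.card_filter_add_card_filter_not (s := A) (fun N => N v ≠ 0)
    omega
  have h4 : ∑ v ∈ T, (A.filter (fun N => N v ≠ 0)).card ≤ ∑ N ∈ A, m := by
    calc ∑ v ∈ T, (A.filter (fun N => N v ≠ 0)).card
        = ∑ v ∈ T, ∑ N ∈ A, (if N v ≠ 0 then 1 else 0) := by
          refine Finset.sum_congr rfl fun v _ => ?_
          rw [Finset.card_filter]
      _ = ∑ N ∈ A, ∑ v ∈ T, (if N v ≠ 0 then 1 else 0) := Finset.sum_comm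
      _ ≤ ∑ N ∈ A, m := by
          refine Finset.sum_le_sum fun N hN => ?_
          rw [hA, mem_filter] at hN
          rw [← Finset.card_filter]
          refine le_trans (Finset.card_le_card ?_) (h N hN.2)
          intro v hv
          rw [mem_filter] at hv ⊢
          exact ⟨mem_univ _, hv.2⟩
  rw [Finset.sum_const, smul_eq_mul] at h4
  have h5 : T.card * A.card ≤ ∑ v ∈ T, 2 * (A.filter (fun N => N v ≠ 0)).card := by
    rw [← smul_eq_mul, ← Finset.sum_const]
    exact Finset.sum_le_sum h1
  rw [← Finset.mul_sum] at h5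
  have h6 : T.card * A.card ≤ (2 * m) * A.card := by
    calc T.card * A.card ≤ 2 * ∑ v ∈ T, (A.filter (fun N => N v ≠ 0)).card := h5
      _ ≤ 2 * (A.card * m) := Nat.mul_le_mul_left _ h4
      _ = (2 * m) * A.card := by ring
  exact Nat.le_of_mul_le_mul_right h6 hA0

end GCQ
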