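import Pool.Agent.GCQ.Rank
import Pool.Agent.GCQ.Ess
import Pool.Agent.GCQ.CntN

/-!
# GCQ-Union: the union bound

The union bound over the families `N`, grouped by their essential span `U` (`ess`), with the
counting lemmas `rank` and `cntN`.
-/

set_option autoImplicit false

open Finset Module

namespace GCQ

open Classical in
private theorem cardS {F : Type} [Field F] [Fintype F] {n s : ℕ} {κ : Type} [Fintype κ]
    (Q : κ → Finset (Fin n)) (N : Fin n → Fin s → F) :
    (univ.filter (fun Z : κ → Fin n → F =>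
      ∀ j, (∀ v, v ∉ Q j → Z j v = 0) ∧ ∑ v, Z j v • N v = 0)).card *
      Fintype.card F ^ (∑ j, finrank F (Submodule.span F (N '' (Q j : Set (Fin n))))) =
      Fintype.card F ^ (∑ j, (Q j).card) := by
  have h1 : (univ.filter (fun Z : κ → Fin n → F =>
      ∀ j, (∀ v, v ∉ Q j → Z j v = 0) ∧ ∑ v, Z j v • N v = 0)).card =
      ∏ j, Nat.card {Z : Fin n → F // (∀ v, v ∉ Q j → Z v = 0) ∧ ∑ v, Z v • N v = 0} := by
    rw [← Nat.card_pi, ← Fintype.card_subtype, ← Nat.card_eq_fintype_card]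
    exact Nat.card_congr (Equiv.subtypePiEquivPi (β := fun _ : κ => Fin n → F)
      (p := fun j Z => (∀ v, v ∉ Q j → Z v = 0) ∧ ∑ v, Z v • N v = 0))
  rw [h1, ← Finset.prod_pow_eq_pow_sum, ← Finset.prod_pow_eq_pow_sum, ← Finset.prod_mul_distrib]
  exact Finset.prod_congr rfl fun j _ => rank (Q j) N

/-- the number of the subspaces of `F ^ s` -/
private theorem exists_enum {F : Type} [Field F] [Fintype F] (s : ℕ) :
    ∃ S : Finset (Submodule F (Fin s → F)), (∀ U, U ∈ S) ∧
      S.card ≤ Fintype.card F ^ (s ^ 2) := by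
  classical
  refine ⟨Finset.image (fun f : Fin s → Fin s → F => Submodule.span F (Set.range f)) univ,
    fun U => ?_, ?_⟩
  · rw [Finset.mem_image]
    have hU : finrank F U ≤ s := by
      have h := Submodule.finrank_le U
      rwa [Module.finrank_fin_fun] at h
    obtain ⟨b⟩ : Nonempty (Basis (Fin (finrank F U)) F U) := ⟨Module.finBasis F U⟩
    refine ⟨fun i => if h : (i : ℕ) < finrank F U then (b ⟨i, h⟩ : Fin s → F) else 0,
      Finset.mem_univ _, ?_⟩
    apply le_antisymm
    · rw [Submodule.span_le]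
      rintro _ ⟨i, rfl⟩
      dsimp only
      split_ifs with h
      · exact (b ⟨i, h⟩).2
      · exact U.zero_mem
    · intro x hx
      have h1 : (⟨x, hx⟩ : U) ∈ Submodule.span F (Set.range b) := by
        rw [b.span_eq]; trivial
      have h2 : x ∈ Submodule.map U.subtype (Submodule.span F (Set.range b)) :=
        ⟨⟨x, hx⟩, h1, rfl⟩
      rw [Submodule.map_span] at h2
      refine Submodule.span_mono ?_ h2
      rintro _ ⟨_, ⟨i, rfl⟩, rfl⟩
      refine ⟨⟨i, i.2.trans_le hU⟩, ?_⟩
      dsimp only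
      rw [dif_pos i.2]
      rfl
  · refine Finset.card_image_le.trans ?_
    rw [Finset.card_univ, Fintype.card_fun, Fintype.card_fun, Fintype.card_fin, ← pow_mul]
    exact le_of_eq (by ring)

open Classical in
private theorem unionF {F : Type} [Field F] [Fintype F] {n s t e2 d' A : ℕ} {κ : Type} [Fintype κ]
    (Q : κ → Finset (Fin n)) (ht : 0 < t)
    (hit : ∀ T : Finset (Fin n), t ≤ T.card → (univ.filter (fun j => Disjoint (Q j) T)).card ≤ e2)
    (hd : d' + Fintype.card F ^ s * e2 ≤ Fintype.card κ) (hA : 2 ^ A ≤ Fintype.card F)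
    (hA0 : 0 < A) (C : Fin n → Submodule F (Fin s → F))
    (H : ∀ U : Submodule F (Fin s → F), U ≠ ⊥ →
      s ^ 2 + n / A + 1 + s ^ 2 * t +
        ∑ v, finrank F (C v ⊓ U : Submodule F (Fin s → F)) < finrank F U * d') :
    ∃ Z : κ → Fin n → F, (∀ j v, v ∉ Q j → Z j v = 0) ∧
      ∀ N : Fin n → Fin s → F, (∀ v, N v ∈ C v) → (∀ j, ∑ v, Z j v • N v = 0) →
        (univ.filter (fun v => N v ≠ 0)).card ≤ (s + 1) * t := by
  by_contra hcon
  push Not at hcon
  obtain ⟨q, hq⟩ : ∃ q : ℕ, q = Fintype.card F := ⟨_, rfl⟩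
  obtain ⟨K, hK⟩ : ∃ K : ℕ, K = ∑ j, (Q j).card := ⟨_, rfl⟩
  have hq2 : 2 ≤ q := by
    rw [hq]; exact Fintype.one_lt_card
  have hqpos : 0 < q := by omega
  rw [← hq] at hd hA
  -- the sets
  obtain ⟨Sf, hSf⟩ : ∃ Sf : (Fin n → Fin s → F) → Finset (κ → Fin n → F), Sf = fun N =>
      univ.filter (fun Z : κ → Fin n → F =>
        ∀ j, (∀ v, v ∉ Q j → Z j v = 0) ∧ ∑ v, Z j v • N v = 0) := ⟨_, rfl⟩
  have hcardS : ∀ N, (Sf N).card *
      q ^ (∑ j, finrank F (Submodule.span F (N '' (Q j : Set (Fin n))))) = q ^ K := by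
    intro N
    rw [hSf, hq, hK]
    exact cardS Q N
  -- the families for `U`
  obtain ⟨T, hT⟩ : ∃ T : Submodule F (Fin s → F) → Finset (Fin n → Fin s → F),
      T = fun U : Submodule F (Fin s → F) =>
      univ.filter (fun N : Fin n → Fin s → F => (∀ v, N v ∈ C v) ∧ U ≠ ⊥ ∧
        (univ.filter (fun v => N v ∉ U)).card ≤ s * t ∧
        (univ.filter (fun j => finrank F (Submodule.span F (N '' (Q j : Set (Fin n)))) <
        finrank F U)).card ≤ Fintype.card F ^ s * e2) := ⟨_, rfl⟩
  obtain ⟨S, hS, hScard⟩ := exists_enum (F := F) s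
  rw [← hq] at hScard
  -- the covering
  have hcov : Sf 0 ⊆ S.biUnion (fun U => (T U).biUnion Sf) := by
    intro Z hZ
    rw [hSf] at hZ
    simp only [Finset.mem_filter, Finset.mem_univ, true_and] at hZ
    obtain ⟨N, hN1, hN2, hN3⟩ := hcon Z (fun j => (hZ j).1)
    obtain ⟨U, hU1, hU2, hU3⟩ := ess Q ht hit N hN3
    rw [Finset.mem_biUnion]
    refine ⟨U, hS U, ?_⟩
    rw [Finset.mem_biUnion]
    refine ⟨N, ?_, ?_⟩
    · rw [hT]
      simp only [Finset.mem_filter, Finset.mem_univ, true_and]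
      exact ⟨hN1, hU1, hU2, hU3⟩
    · rw [hSf]
      simp only [Finset.mem_filter, Finset.mem_univ, true_and]
      exact fun j => ⟨(hZ j).1, hN2 j⟩
  -- the cardinality of `Sf 0`
  have hS0 : q ^ K ≤ (Sf 0).card := by
    have h := hcardS 0
    have h0 : ∑ j, finrank F (Submodule.span F ((0 : Fin n → Fin s → F) '' (Q j : Set (Fin n)))) =
        0 := by
      apply Finset.sum_eq_zero
      intro j _
      have h1 : Submodule.span F ((0 : Fin n → Fin s → F) '' (Q j : Set (Fin n))) = ⊥ := by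
        rw [Submodule.span_eq_bot]
        rintro _ ⟨v, _, rfl⟩
        rfl
      rw [h1, finrank_bot]
    rw [h0, pow_zero, mul_one] at h
    exact h.ge
  -- the bound for one family
  have hone : ∀ U, ∀ N ∈ T U, (Sf N).card * q ^ (finrank F U * d') ≤ q ^ K := by
    intro U N hN
    rw [hT] at hN
    simp only [Finset.mem_filter, Finset.mem_univ, true_and] at hN
    obtain ⟨hN1, hU1, hU2, hU3⟩ := hN
    rw [← hcardS N]
    apply Nat.mul_le_mul_left
    apply Nat.pow_le_pow_right hqpos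
    rw [← hq] at hU3
    have h1 : (univ.filter (fun j => finrank F (Submodule.span F (N '' (Q j : Set (Fin n)))) <
        finrank F U)).card + (univ.filter (fun j =>
          ¬ finrank F (Submodule.span F (N '' (Q j : Set (Fin n)))) < finrank F U)).card =
        Fintype.card κ := by
      rw [Finset.card_filter_add_card_filter_not, Finset.card_univ]
    have h2 : d' ≤ (univ.filter (fun j =>
          ¬ finrank F (Submodule.span F (N '' (Q j : Set (Fin n)))) < finrank F U)).card := by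
      omega
    calc finrank F U * d' ≤ finrank F U * (univ.filter (fun j =>
          ¬ finrank F (Submodule.span F (N '' (Q j : Set (Fin n)))) < finrank F U)).card :=
          Nat.mul_le_mul_left _ h2
      _ = ∑ j ∈ univ.filter (fun j =>
          ¬ finrank F (Submodule.span F (N '' (Q j : Set (Fin n)))) < finrank F U),
            finrank F U := by
          rw [Finset.sum_const, smul_eq_mul, mul_comm]
      _ ≤ ∑ j ∈ univ.filter (fun j =>
          ¬ finrank F (Submodule.span F (N '' (Q j : Set (Fin n)))) < finrank F U),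
            finrank F (Submodule.span F (N '' (Q j : Set (Fin n)))) := by
          apply Finset.sum_le_sum
          intro j hj
          exact not_lt.mp (Finset.mem_filter.mp hj).2
      _ ≤ ∑ j, finrank F (Submodule.span F (N '' (Q j : Set (Fin n)))) :=
          Finset.sum_le_sum_of_subset (Finset.filter_subset _ _)
  -- the number of the families
  have hTcard : ∀ U, (T U).card ≤ q ^ (n / A + 1) *
      q ^ (s * (s * t) + ∑ v, finrank F (C v ⊓ U : Submodule F (Fin s → F))) := by
    intro U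
    have h1 : (T U).card ≤ Nat.card {N : Fin n → Fin s → F // (∀ v, N v ∈ C v) ∧
      (univ.filter (fun v => N v ∉ U)).card ≤ s * t} := by
      rw [Nat.card_eq_fintype_card, Fintype.card_subtype, hT]
      apply Finset.card_le_card
      intro N hN
      simp only [Finset.mem_filter, Finset.mem_univ, true_and] at hN ⊢
      exact ⟨hN.1, hN.2.2.1⟩
    refine h1.trans ((cntN C U (s * t)).trans ?_)
    rw [← hq]
    apply Nat.mul_le_mul_right
    calc 2 ^ n ≤ 2 ^ (A * (n / A + 1)) :=
          Nat.pow_le_pow_right (by norm_num) (Nat.lt_mul_div_succ n hA0).le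
      _ = (2 ^ A) ^ (n / A + 1) := by rw [pow_mul]
      _ ≤ q ^ (n / A + 1) := Nat.pow_le_pow_left hA _
  -- the bound for one `U`
  have hX : ∀ U, (∑ N ∈ T U, (Sf N).card) * q ^ (s ^ 2 + 1) ≤ q ^ K := by
    intro U
    by_cases hU : U = ⊥
    · have h0 : T U = ∅ := by
        rw [hT]
        apply Finset.filter_eq_empty_iff.mpr
        intro N _ h
        exact h.2.1 hU
      rw [h0, Finset.sum_empty, zero_mul]
      exact Nat.zero_le _
    · have hH := H U hU
      obtain ⟨E, hE⟩ : ∃ E : ℕ, E = n / A + 1 +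
          (s * (s * t) + ∑ v, finrank F (C v ⊓ U : Submodule F (Fin s → F))) := ⟨_, rfl⟩
      have hle : s ^ 2 + 1 + E ≤ finrank F U * d' := by
        rw [hE]
        have h1 : s * (s * t) = s ^ 2 * t := by ring
        rw [h1]
        omega
      have h1 : (∑ N ∈ T U, (Sf N).card) * q ^ (finrank F U * d') ≤ (T U).card * q ^ K := by
        rw [Finset.sum_mul]
        calc ∑ N ∈ T U, (Sf N).card * q ^ (finrank F U * d') ≤ ∑ N ∈ T U, q ^ K :=
              Finset.sum_le_sum (fun N hN => hone U N hN)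
          _ = (T U).card * q ^ K := by rw [Finset.sum_const, smul_eq_mul]
      have h2 : (∑ N ∈ T U, (Sf N).card) * q ^ (s ^ 2 + 1) * q ^ E ≤ q ^ K * q ^ E := by
        calc (∑ N ∈ T U, (Sf N).card) * q ^ (s ^ 2 + 1) * q ^ E
            = (∑ N ∈ T U, (Sf N).card) * q ^ (s ^ 2 + 1 + E) := by
              rw [mul_assoc, ← pow_add]
          _ ≤ (∑ N ∈ T U, (Sf N).card) * q ^ (finrank F U * d') :=
              Nat.mul_le_mul_left _ (Nat.pow_le_pow_right hqpos hle)
          _ ≤ (T U).card * q ^ K := h1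
          _ ≤ (q ^ (n / A + 1) *
            q ^ (s * (s * t) + ∑ v, finrank F (C v ⊓ U : Submodule F (Fin s → F)))) * q ^ K :=
              Nat.mul_le_mul_right _ (hTcard U)
          _ = q ^ K * q ^ E := by
              rw [← pow_add, ← hE, mul_comm]
      exact Nat.le_of_mul_le_mul_right h2 (Nat.pow_pos hqpos)
  -- the end
  have hfin : q ^ K * q ^ (s ^ 2 + 1) ≤ q ^ (s ^ 2) * q ^ K := by
    calc q ^ K * q ^ (s ^ 2 + 1) ≤ (Sf 0).card * q ^ (s ^ 2 + 1) :=
          Nat.mul_le_mul_right _ hS0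
      _ ≤ (∑ U ∈ S, ∑ N ∈ T U, (Sf N).card) * q ^ (s ^ 2 + 1) := by
          apply Nat.mul_le_mul_right
          calc (Sf 0).card ≤ (S.biUnion (fun U => (T U).biUnion Sf)).card :=
                Finset.card_le_card hcov
            _ ≤ ∑ U ∈ S, ((T U).biUnion Sf).card := Finset.card_biUnion_le
            _ ≤ ∑ U ∈ S, ∑ N ∈ T U, (Sf N).card :=
                Finset.sum_le_sum fun U _ => Finset.card_biUnion_le
      _ = ∑ U ∈ S, (∑ N ∈ T U, (Sf N).card) * q ^ (s ^ 2 + 1) := by rw [Finset.sum_mul]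
      _ ≤ ∑ U ∈ S, q ^ K := Finset.sum_le_sum fun U _ => hX U
      _ = S.card * q ^ K := by rw [Finset.sum_const, smul_eq_mul]
      _ ≤ q ^ (s ^ 2) * q ^ K := Nat.mul_le_mul_right _ hScard
  have h3 : q ^ (s ^ 2 + 1) ≤ q ^ (s ^ 2) := by
    rw [mul_comm] at hfin
    exact Nat.le_of_mul_le_mul_right hfin (Nat.pow_pos hqpos)
  have h4 : q ^ (s ^ 2) < q ^ (s ^ 2 + 1) := Nat.pow_lt_pow_right (by omega) (by omega)
  omega

open Classical in
theorem union {p : ℕ} [Fact p.Prime] {n s t e2 d' A : ℕ} {κ : Type} [Fintype κ]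
    (Q : κ → Finset (Fin n)) (ht : 0 < t)
    (hit : ∀ T : Finset (Fin n), t ≤ T.card → (univ.filter (fun j => Disjoint (Q j) T)).card ≤ e2)
    (hd : d' + p ^ s * e2 ≤ Fintype.card κ) (hA : 2 ^ A ≤ p) (hA0 : 0 < A)
    (C : Fin n → Submodule (ZMod p) (Fin s → ZMod p))
    (H : ∀ U : Submodule (ZMod p) (Fin s → ZMod p), U ≠ ⊥ →
      s ^ 2 + n / A + 1 + s ^ 2 * t +
        ∑ v, finrank (ZMod p) (C v ⊓ U : Submodule (ZMod p) (Fin s → ZMod p)) <
        finrank (ZMod p) U * d') :
    ∃ Z : κ → Fin n → ZMod p, (∀ j v, v ∉ Q j → Z j v = 0) ∧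
      ∀ N : Fin n → Fin s → ZMod p, (∀ v, N v ∈ C v) → (∀ j, ∑ v, Z j v • N v = 0) →
        (univ.filter (fun v => N v ≠ 0)).card ≤ (s + 1) * t := by
  have hc : Fintype.card (ZMod p) = p := ZMod.card p
  obtain ⟨Z, hZ, h⟩ := unionF (F := ZMod p) Q ht hit (d' := d') (by rw [hc]; exact hd)
    (A := A) (by rw [hc]; exact hA) hA0 C H
  refine ⟨Z, hZ, fun N h1 h2 => ?_⟩
  refine le_trans (le_of_eq ?_) (h N h1 h2)
  congr 1
  ext v
  simp only [Finset.mem_filter]

end GCQ
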