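import Pool.Agent.GCQ.Code
import Pool.Agent.GCQ.Union
import Pool.Agent.GCQ.Tinf
import Pool.Agent.GCQ.Defs

/-!
# GCQ-KillF: a matrix over `ZMod p` which kills the rows of one block

PLAN. `x` from `code p s r`, `Ker = {z | ∀ j, ∑ i, z i * x i j = 0}` (a submodule). Every `U ≤ Ker` is `Robust U k`: if `z ∈ U` vanishes on `T`, `k ≤ T.card`, then at most `s - k = r` coordinates are nonzero, so `z = 0`.
Let `C v = if v ∈ T0 then Ker else van Ker (tr G u v)`. The hypothesis `H` of `union`: let `U ≠ ⊥`, `U' = U ⊓ Ker`. For `v ∉ T0`: `C v ⊓ U = van U' (tr G u v)`; for `v ∈ T0` (at most two) `finrank (C v ⊓ U) ≤ s`. So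
`∑ v, finrank (C v ⊓ U) ≤ ∑ v, finrank (van U' (tr G u v)) + 2 s`. If `U' ≠ ⊥` then `H2 U'` and `finrank U' ≤ finrank U` give `H`. If `U' = ⊥` then all `C v ⊓ U = ⊥` and `H0` with `finrank U ≥ 1` gives `H`.
`Z1` := the transpose of the `Z` of `union`. Let `W` be the submodule of all `N : Fin n → Fin s → ZMod p` with `N v ∈ C v` and `∑ v, Z1 v j • N v = 0` for all `j`. By `union` and `tinf` the set `T = {v | ∃ N ∈ W, N v ≠ 0}` has at most
`2 (s + 1) t` elements, so `Hall Q2 T`, and by Hall's theorem (`Finset.all_card_le_biUnion_card_iff_exists_injective`, index type `{v // v ∈ T}`) there is an injective `f` with `v ∈ Q2 (f v)`. Put `Z2 v j = 1` if `v ∈ T` and `j = f v`, else `0`.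
Given `N` as in the statement: the transposed `N` is in `W` (`N i v ≠ 0` and `v ∉ T0` implies `i ∉ tr G u v`), so it vanishes outside `T`, and the equation for `Z2`, `j = f v` says `N i v = 0` (`f` injective).
-/

set_option autoImplicit false

open Finset Module

namespace GCQ

/-- the vectors orthogonal to the columns of `x` -/
private def kerx {K : Type} [Field K] {s r : ℕ} (x : Fin s → Fin r → K) :
    Submodule K (Fin s → K) where
  carrier := {z | ∀ j, ∑ i, z i * x i j = 0}
  add_mem' := fun {a b} ha hb j => by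
    have h1 : ∀ i, (a + b) i * x i j = a i * x i j + b i * x i j := fun i => by
      rw [Pi.add_apply, add_mul]
    rw [Finset.sum_congr rfl fun i _ => h1 i, Finset.sum_add_distrib, ha j, hb j, add_zero]
  zero_mem' := fun j => by
    refine Finset.sum_eq_zero fun i _ => ?_
    rw [Pi.zero_apply, zero_mul]
  smul_mem' := fun c z hz j => by
    have h1 : ∀ i, (c • z) i * x i j = c * (z i * x i j) := fun i => by
      rw [Pi.smul_apply, smul_eq_mul, mul_assoc]
    rw [Finset.sum_congr rfl fun i _ => h1 i, ← Finset.mul_sum, hz j, mul_zero]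

private theorem mem_kerx {K : Type} [Field K] {s r : ℕ} {x : Fin s → Fin r → K} {z : Fin s → K} :
    z ∈ kerx x ↔ ∀ j, ∑ i, z i * x i j = 0 := Iff.rfl

private theorem mem_van {K : Type} [Field K] {s : ℕ} {U : Submodule K (Fin s → K)}
    {S : Finset (Fin s)} {z : Fin s → K} : z ∈ van U S ↔ z ∈ U ∧ ∀ i ∈ S, z i = 0 := Iff.rfl

/-- the families with `N v ∈ C v` which satisfy the equations `Z` -/
private def Wsp {K : Type} [Field K] {n s : ℕ} {κ : Type} (C : Fin n → Submodule K (Fin s → K))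
    (Z : κ → Fin n → K) : Submodule K (Fin n → Fin s → K) where
  carrier := {N | (∀ v, N v ∈ C v) ∧ ∀ j, ∑ v, Z j v • N v = 0}
  add_mem' := fun {a b} ha hb => ⟨fun v => (C v).add_mem (ha.1 v) (hb.1 v), fun j => by
    have h1 : ∀ v, Z j v • (a + b) v = Z j v • a v + Z j v • b v := fun v => by
      rw [Pi.add_apply, smul_add]
    rw [Finset.sum_congr rfl fun v _ => h1 v, Finset.sum_add_distrib, ha.2 j, hb.2 j, add_zero]⟩
  zero_mem' := ⟨fun v => (C v).zero_mem, fun j => by
    refine Finset.sum_eq_zero fun v _ => ?_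
    rw [Pi.zero_apply, smul_zero]⟩
  smul_mem' := fun c N hN => ⟨fun v => (C v).smul_mem c (hN.1 v), fun j => by
    have h1 : ∀ v, Z j v • (c • N) v = c • (Z j v • N v) := fun v => by
      rw [Pi.smul_apply, smul_comm]
    rw [Finset.sum_congr rfl fun v _ => h1 v, ← Finset.smul_sum, hN.2 j, smul_zero]⟩

private theorem robust_of_code {p : ℕ} [Fact p.Prime] {s r k : ℕ} (hs : r + k = s)
    {x : Fin s → Fin r → ZMod p}
    (hx : ∀ z : Fin s → ZMod p, (∀ j, ∑ i, z i * x i j = 0) →
      (univ.filter (fun i => z i ≠ 0)).card ≤ r → z = 0)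
    {U : Submodule (ZMod p) (Fin s → ZMod p)} (hU : U ≤ kerx x) : Robust U k := by
  intro T hT
  rw [eq_bot_iff]
  intro z hz
  obtain ⟨hz1, hz2⟩ := mem_van.1 hz
  rw [Submodule.mem_bot]
  refine hx z (mem_kerx.1 (hU hz1)) ?_
  have h1 : univ.filter (fun i => z i ≠ 0) ⊆ Tᶜ := by
    intro i hi
    rw [mem_compl]
    intro hiT
    exact (mem_filter.1 hi).2 (hz2 i hiT)
  have h2 := card_le_card h1
  rw [card_compl, Fintype.card_fin] at h2
  omega

open Classical in
private theorem hall_inj {n : ℕ} {κ : Type} [Fintype κ] (Q : κ → Finset (Fin n))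
    (T : Finset (Fin n)) (h : Hall Q T) :
    ∃ f : {v // v ∈ T} → κ, Function.Injective f ∧ ∀ v, v.1 ∈ Q (f v) := by
  obtain ⟨f, hf1, hf2⟩ := (Finset.all_card_le_biUnion_card_iff_exists_injective
    (fun v : {v // v ∈ T} => univ.filter (fun j : κ => v.1 ∈ Q j))).1 (fun S => by
      have h1 : (S.map (Function.Embedding.subtype _)) ⊆ T := by
        intro v hv
        obtain ⟨w, -, hw⟩ := mem_map.1 hv
        rw [← hw]
        exact w.2
      have h2 := h _ h1
      rw [card_map] at h2
      refine h2.trans ?_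
      unfold hit
      refine card_le_card fun j hj => ?_
      have h3 := (mem_filter.1 hj).2
      rw [Finset.not_disjoint_iff] at h3
      obtain ⟨v, hv1, hv2⟩ := h3
      obtain ⟨w, hw1, hw2⟩ := mem_map.1 hv2
      refine mem_biUnion.2 ⟨w, hw1, mem_filter.2 ⟨mem_univ _, ?_⟩⟩
      have h4 : (w : Fin n) = v := hw2
      rw [h4]
      exact hv1)
  exact ⟨f, hf1, fun v => (mem_filter.1 (hf2 v)).2⟩

open Classical in
theorem killF {p : ℕ} [Fact p.Prime] {n s r k t e2 d' A : ℕ} {κ1 κ2 : Type} [Fintype κ1] [Fintype κ2]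
    (G : SimpleGraph (Fin n)) (u : Fin s → Fin n) (T0 : Finset (Fin n)) (hT0 : T0.card ≤ 2)
    (hs : r + k = s) (hp : s ≤ p) (hA : 2 ^ A ≤ p) (hA0 : 0 < A) (ht : 0 < t)
    (Q1 : κ1 → Finset (Fin n)) (Q2 : κ2 → Finset (Fin n))
    (hit1 : ∀ T : Finset (Fin n), t ≤ T.card → (univ.filter (fun j => Disjoint (Q1 j) T)).card ≤ e2)
    (hd : d' + p ^ s * e2 ≤ Fintype.card κ1)
    (hall2 : ∀ T : Finset (Fin n), T.card ≤ 2 * ((s + 1) * t) → Hall Q2 T)
    (H0 : s ^ 2 + n / A + 1 + s ^ 2 * t + 2 * s < d')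
    (H2 : ∀ U : Submodule (ZMod p) (Fin s → ZMod p), U ≠ ⊥ → Robust U k →
      s ^ 2 + n / A + 1 + s ^ 2 * t + 2 * s + ∑ v, finrank (ZMod p) (van U (tr G u v)) <
        finrank (ZMod p) U * d') :
    ∃ (x : Fin s → Fin r → ZMod p) (Z1 : Fin n → κ1 → ZMod p) (Z2 : Fin n → κ2 → ZMod p),
      (∀ v j, v ∉ Q1 j → Z1 v j = 0) ∧ (∀ v j, v ∉ Q2 j → Z2 v j = 0) ∧
      ∀ N : Fin s → Fin n → ZMod p, (∀ i v, N i v ≠ 0 → ¬ G.Adj (u i) v ∨ v ∈ T0) →
        (∀ v j, ∑ i, N i v * x i j = 0) → (∀ i j, ∑ v, N i v * Z1 v j = 0) →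
        (∀ i j, ∑ v, N i v * Z2 v j = 0) → ∀ i v, N i v = 0 := by
  obtain ⟨x, hx⟩ := code p s r hp
  have hx' : ∀ z : Fin s → ZMod p, (∀ j, ∑ i, z i * x i j = 0) →
      (univ.filter (fun i => z i ≠ 0)).card ≤ r → z = 0 := by
    intro z h1 h2
    refine hx z h1 ?_
    convert h2
  obtain ⟨C, hC⟩ : ∃ C : Fin n → Submodule (ZMod p) (Fin s → ZMod p), C = fun v =>
    if v ∈ T0 then kerx x else van (kerx x) (tr G u v) := ⟨_, rfl⟩
  have hCker : ∀ v, C v ≤ kerx x := by
    intro v z hz
    rw [hC] at hz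
    simp only at hz
    split_ifs at hz with hv
    · exact hz
    · exact (mem_van.1 hz).1
  have H : ∀ U : Submodule (ZMod p) (Fin s → ZMod p), U ≠ ⊥ →
      s ^ 2 + n / A + 1 + s ^ 2 * t +
        ∑ v, finrank (ZMod p) (C v ⊓ U : Submodule (ZMod p) (Fin s → ZMod p)) <
        finrank (ZMod p) U * d' := by
    intro U hU
    obtain ⟨U', hU'⟩ : ∃ U', U' = U ⊓ kerx x := ⟨_, rfl⟩
    by_cases h0 : U' = ⊥
    · have h1 : ∀ v, finrank (ZMod p) (C v ⊓ U : Submodule (ZMod p) (Fin s → ZMod p)) = 0 := by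
        intro v
        have h2 : (C v ⊓ U : Submodule (ZMod p) (Fin s → ZMod p)) = ⊥ := by
          rw [eq_bot_iff, ← h0, hU', inf_comm]
          exact inf_le_inf_left U (hCker v)
        rw [h2, finrank_bot]
      rw [Finset.sum_congr rfl fun v _ => h1 v, Finset.sum_const_zero, add_zero]
      have h2 : 1 ≤ finrank (ZMod p) U := by
        rw [Nat.one_le_iff_ne_zero]
        intro h3
        exact hU (Submodule.finrank_eq_zero.1 h3)
      calc s ^ 2 + n / A + 1 + s ^ 2 * t < d' := by omega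
        _ = 1 * d' := (one_mul _).symm
        _ ≤ finrank (ZMod p) U * d' := Nat.mul_le_mul_right _ h2
    · have h1 := H2 U' h0 (robust_of_code hs hx' (by rw [hU']; exact inf_le_right))
      have h2 : finrank (ZMod p) U' ≤ finrank (ZMod p) U := by
        refine Submodule.finrank_mono ?_
        rw [hU']
        exact inf_le_left
      have h3 : ∀ v, finrank (ZMod p) (C v ⊓ U : Submodule (ZMod p) (Fin s → ZMod p)) ≤
          finrank (ZMod p) (van U' (tr G u v)) + if v ∈ T0 then s else 0 := by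
        intro v
        by_cases hv : v ∈ T0
        · rw [if_pos hv]
          have h4 := Submodule.finrank_le
            (C v ⊓ U : Submodule (ZMod p) (Fin s → ZMod p))
          rw [Module.finrank_fin_fun] at h4
          omega
        · rw [if_neg hv, add_zero]
          refine Submodule.finrank_mono ?_
          intro z hz
          obtain ⟨hz1, hz2⟩ := Submodule.mem_inf.1 hz
          rw [hC] at hz1
          simp only [if_neg hv] at hz1
          obtain ⟨hz3, hz4⟩ := mem_van.1 hz1
          refine mem_van.2 ⟨?_, hz4⟩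
          rw [hU']
          exact Submodule.mem_inf.2 ⟨hz2, hz3⟩
      have h4 : ∑ v, finrank (ZMod p) (C v ⊓ U : Submodule (ZMod p) (Fin s → ZMod p)) ≤
          ∑ v, finrank (ZMod p) (van U' (tr G u v)) + 2 * s := by
        refine (Finset.sum_le_sum fun v _ => h3 v).trans ?_
        rw [Finset.sum_add_distrib, ← Finset.sum_filter, Finset.sum_const, smul_eq_mul]
        refine Nat.add_le_add_left (Nat.mul_le_mul_right s ?_) _
        refine le_trans (card_le_card ?_) hT0
        intro v hv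
        exact (mem_filter.1 hv).2
      calc s ^ 2 + n / A + 1 + s ^ 2 * t +
            ∑ v, finrank (ZMod p) (C v ⊓ U : Submodule (ZMod p) (Fin s → ZMod p)) ≤
          s ^ 2 + n / A + 1 + s ^ 2 * t + 2 * s + ∑ v, finrank (ZMod p) (van U' (tr G u v)) := by
            omega
        _ < finrank (ZMod p) U' * d' := h1
        _ ≤ finrank (ZMod p) U * d' := Nat.mul_le_mul_right _ h2
  obtain ⟨Z, hZ1, hZ2⟩ := union Q1 ht hit1 hd hA hA0 C H
  obtain ⟨W, hW⟩ : ∃ W, W = Wsp C Z := ⟨_, rfl⟩
  have hmW : ∀ N, N ∈ W ↔ (∀ v, N v ∈ C v) ∧ ∀ j, ∑ v, Z j v • N v = 0 := by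
    intro N
    rw [hW]
    exact Iff.rfl
  have hT := tinf W (m := (s + 1) * t) (fun N hN => by
    obtain ⟨h1, h2⟩ := (hmW N).1 hN
    convert hZ2 N h1 h2)
  obtain ⟨T, hTdef⟩ : ∃ T, T = univ.filter (fun v => ∃ N ∈ W, N v ≠ 0) := ⟨_, rfl⟩
  have hTc : T.card ≤ 2 * ((s + 1) * t) := by
    rw [hTdef]
    convert hT
  obtain ⟨f, hf1, hf2⟩ := hall_inj Q2 T (hall2 T hTc)
  refine ⟨x, fun v j => Z j v, fun v j => if h : v ∈ T then (if j = f ⟨v, h⟩ then 1 else 0) else 0,
    fun v j h => hZ1 j v h, fun v j h => ?_, ?_⟩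
  · by_cases hv : v ∈ T
    · simp only [dif_pos hv]
      rw [if_neg]
      intro hj
      rw [hj] at h
      exact h (hf2 ⟨v, hv⟩)
    · simp only [dif_neg hv]
  · intro N ha hb hc hd'
    have hNW : (fun v i => N i v) ∈ W := by
      rw [hmW]
      constructor
      · intro v
        rw [hC]
        simp only
        split_ifs with hv
        · exact mem_kerx.2 fun j => hb v j
        · refine mem_van.2 ⟨mem_kerx.2 fun j => hb v j, fun i hi => ?_⟩
          by_contra h1
          rcases ha i v h1 with h2 | h2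
          · exact h2 (mem_filter.1 hi).2
          · exact hv h2
      · intro j
        ext i
        rw [Finset.sum_apply, Pi.zero_apply, ← hc i j]
        refine Finset.sum_congr rfl fun v _ => ?_
        rw [Pi.smul_apply, smul_eq_mul, mul_comm]
    have hout : ∀ v, v ∉ T → ∀ i, N i v = 0 := by
      intro v hv i
      by_contra h1
      refine hv ?_
      rw [hTdef]
      refine mem_filter.2 ⟨mem_univ _, _, hNW, fun h2 => h1 ?_⟩
      exact congrFun h2 i
    intro i v
    by_cases hv : v ∈ T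
    · have h1 := hd' i (f ⟨v, hv⟩)
      rw [Finset.sum_eq_single v] at h1
      · simp only [dif_pos hv, if_true, mul_one] at h1
        exact h1
      · intro w _ hwv
        by_cases hw : w ∈ T
        · simp only [dif_pos hw]
          rw [if_neg, mul_zero]
          intro h2
          exact hwv (congrArg Subtype.val (hf1 h2)).symm
        · simp only [dif_neg hw, mul_zero]
      · intro h2
        exact absurd (mem_univ v) h2
    · exact hout v hv i

end GCQ
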