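import Pool.Agent.GCQ.OneV
import Pool.Agent.GCQ.Dich
import Pool.Agent.GCP.One
import Pool.Agent.GCP.Rect

/-!
# GCQ-Main: assembly (helper92)
-/

set_option autoImplicit false

open Finset Filter

namespace GCQ

theorem Rect.compl {n : ℕ} {G : SimpleGraph (Fin n)} {γ δ : ℝ} (h : Rect G γ δ) : Rect Gᶜ γ δ := by
  intro X Y hXY hX hY
  obtain ⟨h1, h2⟩ := h X Y hXY hX hY
  have h3 : (GCP.edg Gᶜ X Y : ℝ) = X.card * Y.card - GCP.edg G X Y := GCP.edg_compl G hXY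
  rw [h3]
  constructor <;> linarith

theorem Rect.monoG {n : ℕ} {G : SimpleGraph (Fin n)} {γ γ' δ : ℝ} (h : Rect G γ δ) (hγ : γ' ≤ γ) :
    Rect G γ' δ := by
  intro X Y hXY hX hY
  obtain ⟨h1, h2⟩ := h X Y hXY hX hY
  have h3 : (0 : ℝ) ≤ (X.card : ℝ) * Y.card := by positivity
  exact ⟨(mul_le_mul_of_nonneg_right hγ h3).trans h1,
    h2.trans (mul_le_mul_of_nonneg_right (by linarith) h3)⟩

private lemma Main_deg (ε γ : ℝ) (hε : 0 < ε) (hγ : 0 < γ) (hγ1 : γ ≤ 1) :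
    ∃ δ : ℝ, 0 < δ ∧ ∃ n0 : ℕ, ∀ n ≥ n0, ∀ G : SimpleGraph (Fin n), Rect G γ δ →
      ∀ D : ℕ, D + 1 ≤ n → GCP.Degen Gᶜ D → ∃ d : ℕ, MrGC.PR Gᶜ d ∧ (d : ℝ) ≤ D + ε * n := by
  obtain ⟨τ, hτ, h⟩ := GCP.one ε hε
  obtain ⟨N, n0, hN⟩ := h γ hγ hγ1
  refine ⟨1 / (2 * (N + 1 : ℕ)), by positivity, max n0 (N + 1), fun n hn G hG D hD hDD => ?_⟩
  have hn0 : n0 ≤ n := (le_max_left _ _).trans hn
  have hnN : N + 1 ≤ n := (le_max_right _ _).trans hn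
  have hDe : GCP.Dense G τ γ (N + 1) := by
    refine GCP.rect (Nat.succ_pos N) hnN G τ γ hτ.le fun X Y hXY hX hY => ?_
    exact (hG X Y hXY (by rw [one_div_mul_eq_div]; exact hX)
      (by rw [one_div_mul_eq_div]; exact hY)).1
  exact hN n hn0 G (fun P hP hc => hDe P hP (hc.trans (Nat.le_succ _))) D hD hDD

/-- all pairs of disjoint sets of linear size have density bounded away from `0` and `1`: the sum of the two
minimum ranks is at most `(1 - c) n` -/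
theorem final (γ : ℝ) (hγ : 0 < γ) : ∃ c δ : ℝ, 0 < c ∧ 0 < δ ∧ ∃ n0 : ℕ, ∀ n ≥ n0,
    ∀ G : SimpleGraph (Fin n), Rect G γ δ →
    ∃ d d' : ℕ, MrGC.PR Gᶜ d ∧ MrGC.PR G d' ∧ (d : ℝ) + d' ≤ (1 - c) * n := by
  classical
  wlog hγ1 : γ ≤ 1 / 2 generalizing γ
  · obtain ⟨c, δ, hc, hδ, n0, h⟩ := this (1 / 2) (by norm_num) le_rfl
    exact ⟨c, δ, hc, hδ, n0, fun n hn G hG => h n hn G (hG.monoG (not_le.1 hγ1).le)⟩
  obtain ⟨δ1, τ, hδ1, hτ, n1, hone⟩ := oneV γ hγ hγ1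
  obtain ⟨c1, δ2, hc1, hδ2, n2, hdich⟩ := dich γ τ (γ ^ 2 / 1024) hγ hγ1 hτ (by positivity)
  obtain ⟨δ3, hδ3, n3, hdeg⟩ := Main_deg (c1 / 4) γ (by positivity) hγ (by linarith)
  refine ⟨min (c1 / 2) (γ ^ 2 / 1024), min δ1 (min δ2 δ3), lt_min (by positivity) (by positivity),
    lt_min hδ1 (lt_min hδ2 hδ3), max n1 (max n2 n3), fun n hn G hG => ?_⟩
  have hn1 : n1 ≤ n := (le_max_left _ _).trans hn
  have hn2 : n2 ≤ n := ((le_max_left _ _).trans (le_max_right _ _)).trans hn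
  have hn3 : n3 ≤ n := ((le_max_right _ _).trans (le_max_right _ _)).trans hn
  have hG1 : Rect G γ δ1 := hG.mono (min_le_left _ _)
  have hG2 : Rect G γ δ2 := hG.mono ((min_le_right _ _).trans (min_le_left _ _))
  have hG3 : Rect G γ δ3 := hG.mono ((min_le_right _ _).trans (min_le_right _ _))
  have hn : (0 : ℝ) ≤ n := Nat.cast_nonneg n
  rcases hdich n hn2 G hG2 with ⟨D, D', hD, hD', hs, hsum⟩ | ⟨D, D', hsum, hD1, hD1', hD2, hD2', hE, hE'⟩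
  · obtain ⟨d, h1, h2⟩ := hdeg n hn3 G hG3 D' (by omega) hD'
    obtain ⟨d', h1', h2'⟩ := hdeg n hn3 Gᶜ hG3.compl D (by omega) (by rwa [compl_compl])
    rw [compl_compl] at h1'
    refine ⟨d, d', h1, h1', ?_⟩
    have h3 : min (c1 / 2) (γ ^ 2 / 1024) * n ≤ c1 / 2 * n :=
      mul_le_mul_of_nonneg_right (min_le_left _ _) hn
    linarith
  · obtain ⟨d, h1, h2⟩ := hone n hn1 G hG1 D' hD1' hD2' hE'
    obtain ⟨d', h1', h2'⟩ := hone n hn1 Gᶜ hG1.compl D hD1 hD2 (by rwa [compl_compl])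
    rw [compl_compl] at h1'
    refine ⟨d, d', h1, h1', ?_⟩
    have h3 : min (c1 / 2) (γ ^ 2 / 1024) * n ≤ γ ^ 2 / 1024 * n :=
      mul_le_mul_of_nonneg_right (min_le_right _ _) hn
    linarith

end GCQ
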