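import Pool.Agent.GCQ.Ex

/-!
# GCQ-Tail: Chebyshev's inequality for the size of a random subset

First and second moment of `S.card` (independence from `ex_ind`), then Chebyshev's inequality.
-/

set_option autoImplicit false

open Finset

namespace GCQ

private lemma ex_pair_lt {s : ℕ} (κ : ℝ) {i j : Fin s} (h : i < j) :
    ex (fun _ : Fin s => κ) (fun S => (if i ∈ S then 1 else 0) * (if j ∈ S then 1 else 0)) =
      κ * κ := by
  have h1 := ex_ind (fun _ : Fin s => κ) j (fun S => if i ∈ S then 1 else 0)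
  have h2 : (fun S : Finset (Fin s) => (if i ∈ S then (1 : ℝ) else 0) * (if j ∈ S then 1 else 0)) =
      (fun S => if j ∈ S then (if i ∈ S.filter (fun l => l < j) then (1 : ℝ) else 0) else 0) := by
    funext S
    by_cases h3 : i ∈ S <;> by_cases h4 : j ∈ S <;> simp [h3, h4, h]
  have h3 : (fun S : Finset (Fin s) => (if i ∈ S.filter (fun l => l < j) then (1 : ℝ) else 0)) =
      (fun S => if i ∈ S then (1 : ℝ) else 0) := by
    funext S
    by_cases h4 : i ∈ S <;> simp [h4, h]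
  rw [h2, h1, h3, ex_mem]

private lemma ex_pair {s : ℕ} (κ : ℝ) (i j : Fin s) :
    ex (fun _ : Fin s => κ) (fun S => (if i ∈ S then 1 else 0) * (if j ∈ S then 1 else 0)) =
      κ * κ + (if i = j then κ - κ * κ else 0) := by
  rcases lt_trichotomy i j with h | h | h
  · rw [ex_pair_lt κ h, if_neg h.ne, add_zero]
  · subst h
    rw [if_pos rfl]
    have h2 : (fun S : Finset (Fin s) => (if i ∈ S then (1 : ℝ) else 0) *
        (if i ∈ S then 1 else 0)) = (fun S => if i ∈ S then (1 : ℝ) else 0) := by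
      funext S
      by_cases h3 : i ∈ S <;> simp [h3]
    rw [h2, ex_mem]
    ring
  · rw [if_neg h.ne', add_zero, ← ex_pair_lt κ h]
    congr 1
    funext S
    rw [mul_comm]

private lemma card_sum {s : ℕ} (S : Finset (Fin s)) :
    (S.card : ℝ) = ∑ i : Fin s, if i ∈ S then (1 : ℝ) else 0 := by
  rw [Finset.sum_boole]
  simp

private lemma ex_card {s : ℕ} (κ : ℝ) :
    ex (fun _ : Fin s => κ) (fun S => (S.card : ℝ)) = s * κ := by
  have h1 : (fun S : Finset (Fin s) => (S.card : ℝ)) =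
      (fun S => ∑ i : Fin s, if i ∈ S then (1 : ℝ) else 0) := by
    funext S
    exact card_sum S
  rw [h1, ex_sum (fun _ : Fin s => κ) univ (fun i S => if i ∈ S then (1 : ℝ) else 0)]
  rw [Finset.sum_congr rfl (fun i _ => ex_mem (fun _ : Fin s => κ) i)]
  simp

private lemma ex_card_sq {s : ℕ} (κ : ℝ) :
    ex (fun _ : Fin s => κ) (fun S => (S.card : ℝ) ^ 2) = s * s * (κ * κ) + s * (κ - κ * κ) := by
  have h1 : (fun S : Finset (Fin s) => (S.card : ℝ) ^ 2) =
      (fun S => ∑ i : Fin s, ∑ j : Fin s,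
        (if i ∈ S then (1 : ℝ) else 0) * (if j ∈ S then 1 else 0)) := by
    funext S
    rw [pow_two, card_sum S, Finset.sum_mul_sum]
  rw [h1, ex_sum (fun _ : Fin s => κ) univ (fun i S => ∑ j : Fin s,
        (if i ∈ S then (1 : ℝ) else 0) * (if j ∈ S then 1 else 0))]
  have h2 : ∀ i ∈ (univ : Finset (Fin s)), ex (fun _ : Fin s => κ) (fun S => ∑ j : Fin s,
        (if i ∈ S then (1 : ℝ) else 0) * (if j ∈ S then 1 else 0)) =
      s * (κ * κ) + (κ - κ * κ) := by
    intro i _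
    rw [ex_sum (fun _ : Fin s => κ) univ (fun j S =>
        (if i ∈ S then (1 : ℝ) else 0) * (if j ∈ S then 1 else 0)),
      Finset.sum_congr rfl (fun j _ => ex_pair κ i j), Finset.sum_add_distrib]
    simp
  rw [Finset.sum_congr rfl h2]
  simp only [Finset.sum_const, Finset.card_univ, Fintype.card_fin, nsmul_eq_mul]
  ring

private lemma ex_var {s : ℕ} (κ : ℝ) :
    ex (fun _ : Fin s => κ) (fun S => ((S.card : ℝ) - κ * s) ^ 2) = s * (κ - κ * κ) := by
  have h1 : (fun S : Finset (Fin s) => ((S.card : ℝ) - κ * s) ^ 2) =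
      (fun S => ((S.card : ℝ) ^ 2 + (-(2 * κ * s)) * (S.card : ℝ)) + (κ * s) ^ 2 * 1) := by
    funext S
    ring
  rw [h1, ex_add (fun _ : Fin s => κ)
      (fun S => (S.card : ℝ) ^ 2 + (-(2 * κ * s)) * (S.card : ℝ)) (fun _ => (κ * s) ^ 2 * 1),
    ex_add (fun _ : Fin s => κ) (fun S => (S.card : ℝ) ^ 2)
      (fun S => (-(2 * κ * s)) * (S.card : ℝ)),
    ex_mul (fun _ : Fin s => κ) (-(2 * κ * s)) (fun S => (S.card : ℝ)),
    ex_mul (fun _ : Fin s => κ) ((κ * s) ^ 2) (fun _ => 1), ex_card_sq, ex_card, ex_one]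
  ring

theorem tail {s k : ℕ} (hs : 0 < s) (κ τ : ℝ) (hκ0 : 0 ≤ κ) (hκ1 : κ ≤ 1) (hτ : 0 < τ)
    (hk : (k : ℝ) ≤ (κ - τ) * s) : 1 - 1 / (s * τ ^ 2) ≤ tl s k κ := by
  have hs' : (0 : ℝ) < s := Nat.cast_pos.2 hs
  have hts : 0 < τ * s := mul_pos hτ hs'
  have hpt : ∀ S : Finset (Fin s), (fun _ : Finset (Fin s) => (1 : ℝ)) S ≤
      (fun S : Finset (Fin s) => (if k ≤ S.card then (1 : ℝ) else 0) +
        (1 / (τ * s) ^ 2) * ((S.card : ℝ) - κ * s) ^ 2) S := by
    intro S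
    simp only []
    by_cases h : k ≤ S.card
    · rw [if_pos h]
      have : 0 ≤ (1 / (τ * s) ^ 2) * ((S.card : ℝ) - κ * s) ^ 2 := by positivity
      linarith
    · rw [if_neg h, zero_add]
      have h1 : (S.card : ℝ) ≤ k := by
        exact_mod_cast (not_le.1 h).le
      have h2 : τ * s ≤ κ * s - S.card := by nlinarith
      have h3 : (τ * s) ^ 2 ≤ ((S.card : ℝ) - κ * s) ^ 2 := by
        have h4 : ((S.card : ℝ) - κ * s) ^ 2 = (κ * s - S.card) ^ 2 := by ring
        rw [h4]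
        exact pow_le_pow_left₀ hts.le h2 2
      rw [one_div, ← div_eq_inv_mul, le_div_iff₀ (by positivity), one_mul]
      exact h3
  have h1 := ex_le (fun _ : Fin s => κ) (fun _ => ⟨hκ0, hκ1⟩) _ _ hpt
  rw [ex_one, ex_add (fun _ : Fin s => κ) (fun S => if k ≤ S.card then (1 : ℝ) else 0)
      (fun S => (1 / (τ * s) ^ 2) * ((S.card : ℝ) - κ * s) ^ 2),
    ex_mul (fun _ : Fin s => κ) (1 / (τ * s) ^ 2) (fun S => ((S.card : ℝ) - κ * s) ^ 2),
    ex_var] at h1
  have h2 : (1 / (τ * s) ^ 2) * (s * (κ - κ * κ)) ≤ 1 / (s * τ ^ 2) := by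
    have h3 : (1 / (τ * s) ^ 2) * (s * (κ - κ * κ)) = (1 / (s * τ ^ 2)) * (κ - κ * κ) := by
      field_simp
    rw [h3]
    have h4 : κ - κ * κ ≤ 1 := by nlinarith
    have h5 : 0 ≤ 1 / (s * τ ^ 2) := by positivity
    calc (1 / (s * τ ^ 2)) * (κ - κ * κ) ≤ (1 / (s * τ ^ 2)) * 1 :=
          mul_le_mul_of_nonneg_left h4 h5
      _ = 1 / (s * τ ^ 2) := mul_one _
  unfold tl
  linarith

end GCQ
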