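import Pool.Agent.GCQ.Core
import Pool.Agent.GCQ.Fam
import Pool.Agent.GCQ.Tail
import Pool.Agent.GCQ.Blocks
import Pool.Agent.GCQ.DegV

/-!
# GCQ-OneV: the one sided bound for nearly regular graphs
-/

set_option autoImplicit false

open Finset Filter

namespace GCQ

theorem Rect.mono {n : ℕ} {G : SimpleGraph (Fin n)} {γ δ δ' : ℝ} (h : Rect G γ δ) (hδ : δ ≤ δ') :
    Rect G γ δ' := fun X Y hXY hX hY =>
  h X Y hXY ((mul_le_mul_of_nonneg_right hδ (Nat.cast_nonneg n)).trans hX)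
    ((mul_le_mul_of_nonneg_right hδ (Nat.cast_nonneg n)).trans hY)

private lemma OneV_ev {c : ℝ} (hc : 0 < c) (C : ℝ) : ∀ᶠ n : ℕ in atTop, C ≤ c * n :=
  ((tendsto_natCast_atTop_atTop (R := ℝ)).const_mul_atTop hc).eventually_ge_atTop C

private theorem OneV_mem {n : ℕ} {Ω : SimpleGraph (Fin n)} {S : Finset (Fin n)} {v u : Fin n} :
    u ∈ MrGC.nb Ω S v ↔ u ∈ S ∧ Ω.Adj v u := by
  classical
  simp [MrGC.nb]

private theorem OneV_dg {n : ℕ} (H : SimpleGraph (Fin n)) (v : Fin n) :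
    (MrGC.nb H (univ.erase v) v).card = dg H v := by
  classical
  unfold dg
  congr 1
  ext u
  rw [OneV_mem, Finset.mem_filter, Finset.mem_erase]
  constructor
  · rintro ⟨_, h⟩
    exact ⟨Finset.mem_univ _, h⟩
  · rintro ⟨_, h⟩
    exact ⟨⟨fun h3 => H.irrefl (h3 ▸ h), Finset.mem_univ _⟩, h⟩

theorem dg_compl {n : ℕ} (G : SimpleGraph (Fin n)) (v : Fin n) : dg G v + dg Gᶜ v + 1 = n := by
  classical
  have h1 : (MrGC.nb G (univ.erase v) v).card + (MrGC.nb Gᶜ (univ.erase v) v).card =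
      (univ.erase v).card := by
    rw [← Finset.card_union_of_disjoint]
    · congr 1
      ext u
      rw [Finset.mem_union, OneV_mem, OneV_mem, SimpleGraph.compl_adj]
      constructor
      · rintro (h | h)
        · exact h.1
        · exact h.1
      · intro h
        by_cases hu : G.Adj v u
        · exact Or.inl ⟨h, hu⟩
        · exact Or.inr ⟨h, (Finset.ne_of_mem_erase h).symm, hu⟩
    · rw [Finset.disjoint_left]
      intro u hu hu'
      rw [OneV_mem] at hu hu'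
      rw [SimpleGraph.compl_adj] at hu'
      exact hu'.2.2 hu.2
  rw [OneV_dg, OneV_dg, Finset.card_erase_of_mem (Finset.mem_univ v), Finset.card_univ,
    Fintype.card_fin] at h1
  have : 0 < n := v.pos
  omega

/-- the numbers -/
private lemma OneV_num {γ a θ κ ε1 β z d' cL D' n s r B t m p2 e2 d2 : ℝ}
    (hγ : 0 < γ) (hγ1 : γ ≤ 1 / 2) (ha : a = γ / 8) (hθ : θ = γ / 64)
    (hε1 : ε1 = γ ^ 2 / 8192) (hn : 0 < n)
    (hβ : 1 + a / 2 ≤ β / κ) (hD : D' ≤ (1 - γ / 4) * n) (hg8 : 1 ≤ γ / 8 * n)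
    (hz : z = max ((1 - β / κ * ((n - 1 - D') / n)) * n) (D' - γ * cL))
    (hcL : θ * n - s ≤ cL) (hs : 0 < s) (hs2 : 1 / s ≤ γ / 16)
    (hBs : s * B ≤ θ * n) (hB0 : 0 ≤ B) (hr : r ≤ 2 * a * s + 1)
    (hd' : d' ≤ z + 4 * ε1 * n + 1) (hp2 : p2 * e2 + e2 ≤ ε1 * n)
    (hm : m + t ≤ ε1 * n) (hd2 : d2 ≤ m + e2 + t)
    (hgs : γ * s ≤ γ ^ 2 / 128 * n) (hlast : 2 ≤ γ ^ 2 / 1024 * n) :
    B * r + (d' + p2 * e2 + d2) ≤ D' - γ ^ 2 / 1024 * n := by
  have h1 : B * r ≤ 5 * γ ^ 2 / 1024 * n := by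
    have hB : B ≤ θ * n / s := by
      rw [le_div_iff₀ hs]; linarith
    have hnn : 0 ≤ 2 * a * s + 1 := by rw [ha]; positivity
    calc B * r ≤ B * (2 * a * s + 1) := mul_le_mul_of_nonneg_left hr hB0
      _ ≤ θ * n / s * (2 * a * s + 1) := mul_le_mul_of_nonneg_right hB hnn
      _ = θ * n * (2 * a + 1 / s) := by field_simp
      _ ≤ θ * n * (2 * a + γ / 16) := by
          refine mul_le_mul_of_nonneg_left (by linarith) (by rw [hθ]; positivity)
      _ = 5 * γ ^ 2 / 1024 * n := by rw [hθ, ha]; ring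
  have h2 : (1 - β / κ * ((n - 1 - D') / n)) * n ≤ D' + 1 - 8 * γ ^ 2 / 1024 * n := by
    have e1 : (1 - β / κ * ((n - 1 - D') / n)) * n = n - β / κ * (n - 1 - D') := by
      field_simp
    rw [e1]
    have e2 : γ / 8 * n ≤ n - 1 - D' := by linarith
    have e3 : (a / 2) * (γ / 8 * n) ≤ (β / κ - 1) * (n - 1 - D') := by
      refine mul_le_mul (by linarith) e2 (by positivity) ?_
      have : 0 ≤ a / 2 := by rw [ha]; positivity
      linarith
    rw [ha] at e3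
    nlinarith
  have h3 : D' - γ * cL ≤ D' + 1 - 8 * γ ^ 2 / 1024 * n := by
    have : γ * (θ * n - s) ≤ γ * cL := mul_le_mul_of_nonneg_left hcL hγ.le
    rw [hθ] at this
    nlinarith
  have h4 : z ≤ D' + 1 - 8 * γ ^ 2 / 1024 * n := by
    rw [hz]; exact max_le h2 h3
  have h5 : ε1 * n = γ ^ 2 / 8192 * n := by rw [hε1]
  have h6 : 4 * ε1 * n = 4 * (γ ^ 2 / 8192 * n) := by rw [hε1]; ring
  have h7 : 0 ≤ γ ^ 2 * n := by positivity
  nlinarith


private lemma OneV_a1 {γ : ℝ} (hγ : 0 < γ) (hγ1 : γ ≤ 1 / 2) : γ ^ 2 / 8192 ≤ 1 / 8 := by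
  have : γ ^ 2 ≤ (1 / 2) ^ 2 := pow_le_pow_left₀ hγ.le hγ1 2
  linarith

private lemma OneV_a2 {a s k : ℝ} (ha : 0 < a) (hs : 0 < s) (hk : k ≤ (1 - 2 * a) * s) : k ≤ s := by
  have : 0 < a * s := mul_pos ha hs
  linarith

private lemma OneV_a3 {s ε : ℝ} (hs : 0 < s) (hε : 0 < ε) : 2 * s * (ε / (2 * s + 1)) ≤ ε := by
  rw [← mul_div_assoc, div_le_iff₀ (by positivity)]
  linarith

private lemma OneV_a4 {s : ℝ} (hs : 0 < s) : 1 ≤ (s + 1) ^ 2 := by
  have : 0 < s ^ 2 := by positivity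
  linarith [show (s + 1) ^ 2 = s ^ 2 + 2 * s + 1 by ring]

private lemma OneV_a5 {s ε : ℝ} (hs : 0 < s) (hε1 : ε ≤ 1) : ε / (8 * (s + 1) ^ 2) ≤ 1 := by
  rw [div_le_one (by positivity)]
  linarith [OneV_a4 hs]

private lemma OneV_a6 {s ε : ℝ} (hs : 0 < s) (hε : 0 < ε) :
    s ^ 2 * (ε / (8 * (s + 1) ^ 2)) ≤ ε / 8 := by
  rw [← mul_div_assoc, div_le_div_iff₀ (by positivity) (by norm_num)]
  have h1 : 0 ≤ ε * s := by positivity
  have h2 : ε * (8 * (s + 1) ^ 2) = 8 * (s ^ 2 * ε) + 16 * (ε * s) + 8 * ε := by ring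
  rw [h2]
  linarith

private lemma OneV_a7 {s ε : ℝ} (hs : 0 < s) (hε : 0 < ε) :
    (2 * s + 3) * (ε / (8 * (s + 1) ^ 2)) ≤ ε / 2 := by
  rw [← mul_div_assoc, div_le_div_iff₀ (by positivity) (by norm_num)]
  have h1 : 0 ≤ ε * s := by positivity
  have h3 : 0 ≤ ε * s ^ 2 := by positivity
  have h2 : ε * (8 * (s + 1) ^ 2) - (2 * s + 3) * ε * 2 =
      8 * (ε * s ^ 2) + 12 * (ε * s) + 2 * ε := by ring
  linarith

private lemma OneV_a8 {P e2 L n ε : ℝ} (hL : 0 < L) (hε : 0 < ε) (hP : 0 ≤ P) (hn : 0 < n)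
    (he : e2 * L ≤ 3 * n) (h : 3 * (P + 1) / ε ≤ L) : P * e2 + e2 ≤ ε * n := by
  have h1 : e2 ≤ 3 * n / L := by
    rw [le_div_iff₀ hL]; exact he
  have h2 : 3 * (P + 1) ≤ L * ε := by
    rw [div_le_iff₀ hε] at h; exact h
  calc P * e2 + e2 = (P + 1) * e2 := by ring
    _ ≤ (P + 1) * (3 * n / L) := mul_le_mul_of_nonneg_left h1 (by positivity)
    _ = 3 * (P + 1) * n / L := by ring
    _ ≤ ε * n := by
      rw [div_le_iff₀ hL]
      calc 3 * (P + 1) * n ≤ L * ε * n := mul_le_mul_of_nonneg_right h2 hn.le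
        _ = ε * n * L := by ring

private lemma OneV_a9 {γ n D' : ℝ} (hD : D' ≤ (1 - γ / 4) * n) (h8 : 1 ≤ γ / 8 * n) :
    0 ≤ n - 1 - D' := by
  have : 0 ≤ γ / 8 * n := by linarith
  linarith

private lemma OneV_a10 {γ n D' c : ℝ} (hγ : 0 < γ) (hγ1 : γ ≤ 1 / 2) (hn : 0 < n)
    (hD : γ / 4 * n ≤ D') (hc : c ≤ γ / 64 * n) : γ / 8 * n ≤ D' - γ * c := by
  have h1 : γ * c ≤ γ * (γ / 64 * n) := mul_le_mul_of_nonneg_left hc hγ.le
  have h2 : γ * (γ / 64 * n) ≤ 1 / 2 * (γ / 64 * n) :=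
    mul_le_mul_of_nonneg_right hγ1 (by positivity)
  have h3 : 0 < γ * n := by positivity
  linarith

private lemma OneV_a11 {s e ε n t : ℝ} (hs : 0 < s) (hn : 0 < n) (h3 : (2 * s + 3) * e ≤ ε / 2)
    (ht : t < e * n + 1) (h : (2 * s + 3) * 2 ≤ ε * n) : 2 * ((s + 1) * t) + t ≤ ε * n := by
  have h1 : (2 * s + 3) * t ≤ (2 * s + 3) * (e * n + 1) :=
    mul_le_mul_of_nonneg_left ht.le (by positivity)
  have h2 : (2 * s + 3) * e * n ≤ ε / 2 * n := mul_le_mul_of_nonneg_right h3 hn.le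
  linarith

private lemma OneV_a12 {a s κ β : ℝ} (ha0 : 0 < a) (ha1 : a ≤ 1 / 16) (hs : 0 < s)
    (hs2 : 2 / a ^ 3 ≤ s) (hκ : κ = 1 - a) (hβ : 1 - 1 / (s * a ^ 2) ≤ β) : 1 + a / 2 ≤ β / κ := by
  have hκ0 : 0 < κ := by rw [hκ]; linarith
  have h1 : 1 / (s * a ^ 2) ≤ a / 2 := by
    rw [div_le_div_iff₀ (by positivity) (by norm_num)]
    rw [div_le_iff₀ (by positivity)] at hs2
    linarith [show a * (s * a ^ 2) = s * a ^ 3 by ring]
  rw [le_div_iff₀ hκ0, hκ]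
  have h2 : 0 ≤ a ^ 2 := by positivity
  linarith [show (1 + a / 2) * (1 - a) = 1 - a / 2 - a ^ 2 / 2 by ring]

private lemma OneV_a13 {s A n nA e ε t : ℝ} (hs : 0 < s) (hA : 0 < A) (hn : 0 < n) (hε : 0 < ε)
    (hnA : nA ≤ n / A) (hA1 : 1 / ε ≤ A) (he2 : s ^ 2 * e ≤ ε / 8) (ht : t < e * n + 1)
    (h : 4 * (2 * s ^ 2 + 2 * s + 1) ≤ ε * n) :
    s ^ 2 + nA + 1 + s ^ 2 * t + 2 * s ≤ 2 * ε * n := by
  have h1 : nA ≤ ε * n := by
    refine hnA.trans ?_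
    rw [div_le_iff₀ hA]
    have h2 : 1 ≤ A * ε := by
      rw [div_le_iff₀ hε] at hA1; exact hA1
    calc n = 1 * n := (one_mul n).symm
      _ ≤ A * ε * n := mul_le_mul_of_nonneg_right h2 hn.le
      _ = ε * n * A := by ring
  have h2 : s ^ 2 * t ≤ s ^ 2 * (e * n + 1) := mul_le_mul_of_nonneg_left ht.le (by positivity)
  have h3 : s ^ 2 * e * n ≤ ε / 8 * n := mul_le_mul_of_nonneg_right he2 hn.le
  have h4 : 0 < ε * n := by positivity
  linarith

private lemma OneV_a14 {γ ε z D' d' P e2 n β κ g c : ℝ} (hγ : 0 < γ) (hγ1 : γ ≤ 1 / 2) (hn : 0 < n)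
    (hε : ε ≤ 1 / 8) (hz : z = max ((1 - β / κ * g) * n) (D' - γ * c)) (hc : 0 ≤ c)
    (hβ : 1 ≤ β / κ) (hg : g = (n - 1 - D') / n) (hD : D' ≤ (1 - γ / 4) * n) (h8 : 1 ≤ γ / 8 * n)
    (hd : d' < z + 4 * ε * n + 1) (he : 0 ≤ e2) (hp : P * e2 + e2 ≤ ε * n) :
    d' + P * e2 ≤ 2 * n := by
  have h0 := OneV_a9 hD h8
  have hz1 : z ≤ D' + 1 := by
    rw [hz]
    refine max_le ?_ ?_
    · have e1 : (1 - β / κ * g) * n = n - β / κ * (n - 1 - D') := by
        rw [hg]; field_simp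
      rw [e1]
      have e2 : 1 * (n - 1 - D') ≤ β / κ * (n - 1 - D') := mul_le_mul_of_nonneg_right hβ h0
      linarith
    · have : 0 ≤ γ * c := by positivity
      linarith
  have hε8 : ε * n ≤ 1 / 8 * n := mul_le_mul_of_nonneg_right hε hn.le
  have h1 : γ / 8 * n ≤ 1 / 16 * n := mul_le_mul_of_nonneg_right (by linarith) hn.le
  have h2 : 0 ≤ γ / 4 * n := by positivity
  linarith

open Classical in
theorem oneV (γ : ℝ) (hγ : 0 < γ) (hγ1 : γ ≤ 1 / 2) : ∃ δ τ : ℝ, 0 < δ ∧ 0 < τ ∧ ∃ n0 : ℕ, ∀ n ≥ n0,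
    ∀ G : SimpleGraph (Fin n), Rect G γ δ → ∀ D' : ℕ, (D' : ℝ) ≤ (1 - γ / 4) * n →
    γ / 4 * n ≤ D' → ((univ.filter (fun v => D' < dg Gᶜ v)).card : ℝ) ≤ τ * n →
    ∃ d : ℕ, MrGC.PR Gᶜ d ∧ (d : ℝ) ≤ D' - γ ^ 2 / 1024 * n := by
  set a : ℝ := γ / 8 with ha
  set θ : ℝ := γ / 64 with hθ
  set κ : ℝ := 1 - a with hκ
  set ε1 : ℝ := γ ^ 2 / 8192 with hε1
  have ha0 : 0 < a := by positivity
  have ha1 : a ≤ 1 / 16 := by rw [ha]; linarith
  have hκ0 : 0 < κ := by rw [hκ]; linarith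
  have hκ1 : κ ≤ 1 := by rw [hκ]; linarith
  have hε0 : 0 < ε1 := by positivity
  have hε08 : ε1 ≤ 1 / 8 := OneV_a1 hγ hγ1
  have hε01 : ε1 ≤ 1 := by linarith
  -- the size of the blocks
  obtain ⟨s, hs1⟩ := exists_nat_ge (max (2 / a ^ 3) (max (16 / γ) 1))
  have hs2 : 2 / a ^ 3 ≤ (s : ℝ) := (le_max_left _ _).trans hs1
  have hs3 : 16 / γ ≤ (s : ℝ) := ((le_max_left _ _).trans (le_max_right _ _)).trans hs1
  have hs4 : (1 : ℝ) ≤ s := ((le_max_right _ _).trans (le_max_right _ _)).trans hs1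
  have hs0 : 0 < s := by exact_mod_cast lt_of_lt_of_le one_pos hs4
  have hs0' : (0 : ℝ) < s := by exact_mod_cast hs0
  set k : ℕ := ⌊(1 - 2 * a) * s⌋₊ with hk
  have hk1 : (k : ℝ) ≤ (1 - 2 * a) * s := Nat.floor_le (by
    have : 0 ≤ 1 - 2 * a := by linarith
    positivity)
  have hk2 : (1 - 2 * a) * s < (k : ℝ) + 1 := Nat.lt_floor_add_one _
  have hks : k ≤ s := by
    have : (k : ℝ) ≤ s := OneV_a2 ha0 hs0' hk1
    exact_mod_cast this
  set r : ℕ := s - k with hr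
  have hrk : r + k = s := by omega
  have hr2 : (r : ℝ) ≤ 2 * a * s + 1 := by
    have : (r : ℝ) + k = s := by exact_mod_cast hrk
    linarith
  -- the prime
  obtain ⟨A, hA1⟩ := exists_nat_ge (1 / ε1)
  have hA0' : (0 : ℝ) < A := lt_of_lt_of_le (by positivity) hA1
  have hA0 : 0 < A := by exact_mod_cast hA0'
  obtain ⟨p, hp1, hp2⟩ := Nat.exists_infinite_primes (max s (2 ^ A))
  have : Fact p.Prime := ⟨hp2⟩
  have hsp : s ≤ p := (le_max_left _ _).trans hp1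
  have hAp : 2 ^ A ≤ p := (le_max_right _ _).trans hp1
  -- small numbers
  set εT : ℝ := ε1 / (2 * s + 1) with hεT
  have hεT0 : 0 < εT := by positivity
  have hεT1 : 2 * s * εT ≤ ε1 := OneV_a3 hs0' hε0
  set e : ℝ := ε1 / (8 * (s + 1) ^ 2) with he
  have he0 : 0 < e := by positivity
  have he1 : e ≤ 1 := OneV_a5 hs0' hε01
  have he2 : (s : ℝ) ^ 2 * e ≤ ε1 / 8 := OneV_a6 hs0' hε0
  have he3 : (2 * (s : ℝ) + 3) * e ≤ ε1 / 2 := OneV_a7 hs0' hε0
  obtain ⟨L, hL1⟩ := exists_nat_ge (3 * ((p : ℝ) ^ s + 1) / ε1)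
  have hL0' : (0 : ℝ) < L := lt_of_lt_of_le (by positivity) hL1
  have hL0 : 0 < L := by exact_mod_cast hL0'
  set τ : ℝ := min (1 / 4) ε1 with hτ
  have hτ0 : 0 < τ := lt_min (by norm_num) hε0
  obtain ⟨δ1, hδ1, n1, hblocks⟩ := blocks γ hγ hγ1 s εT hεT0
  obtain ⟨δ2, hδ2, n2, hfam⟩ := fam γ hγ (by linarith) e he0 he1 L
  set δ : ℝ := min (min δ1 δ2) (min ε1 (θ / 2)) with hδ
  have hδ0 : 0 < δ := lt_min (lt_min hδ1 hδ2) (lt_min hε0 (by positivity))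
  have hev : ∀ᶠ n : ℕ in atTop, (n1 ≤ n ∧ n2 ≤ n ∧ 1 ≤ n) ∧ ((4 * (2 * (s : ℝ) ^ 2 + 2 * s + 1) ≤ ε1 * n ∧
      (2 * (s : ℝ) + 3) * 2 ≤ ε1 * n ∧ 1 ≤ γ / 8 * n ∧ γ * s ≤ γ ^ 2 / 128 * n) ∧
      2 ≤ γ ^ 2 / 1024 * n ∧ (s : ℝ) ≤ θ / 2 * n) := by
    refine ((eventually_ge_atTop n1).and ((eventually_ge_atTop n2).and (eventually_ge_atTop 1))).and
      (((OneV_ev hε0 _).and ((OneV_ev hε0 _).and ((OneV_ev (by positivity) _).and
        (OneV_ev (by positivity) _)))).and ((OneV_ev (by positivity) _).and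
        (OneV_ev (by positivity) _)))
  obtain ⟨n0, hn0⟩ := eventually_atTop.1 hev
  refine ⟨δ, τ, hδ0, hτ0, n0, fun n hn G hR D' hD1 hD2 hD3 => ?_⟩
  obtain ⟨⟨hn1, hn2, hn3⟩, ⟨hv1, hv2, hv3, hv4⟩, hv5, hv6⟩ := hn0 n hn
  have hnpos : (0 : ℝ) < n := by exact_mod_cast hn3
  have hR1 : Rect G γ δ1 := hR.mono ((min_le_left _ _).trans (min_le_left _ _))
  -- blocks
  set B : ℕ := ⌊θ * n / s⌋₊ with hB
  have hB1 : (s : ℝ) * B ≤ θ * n := by
    have : (B : ℝ) ≤ θ * n / s := Nat.floor_le (by positivity)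
    rw [le_div_iff₀ hs0'] at this
    linarith
  have hB2 : θ * n - s ≤ (s : ℝ) * B := by
    have : θ * n / s < (B : ℝ) + 1 := Nat.lt_floor_add_one _
    rw [div_lt_iff₀ hs0'] at this
    linarith
  have hθ1 : θ ≤ 1 / 2 := by rw [hθ]; linarith
  obtain ⟨u, hu1, hu2, hu3, hu4⟩ := hblocks n hn1 G hR1 (univ.filter (fun v => D' < dg Gᶜ v))
    (by
      refine hD3.trans ?_
      have : τ ≤ 1 / 4 := min_le_left _ _
      nlinarith) B (by nlinarith)
  -- the set of the block vertices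
  set Ls : Finset (Fin n) := univ.image (fun q : Fin B × Fin s => u q.1 q.2) with hLs
  have hLinj : Function.Injective (fun q : Fin B × Fin s => u q.1 q.2) := by
    rintro ⟨b, i⟩ ⟨b', j⟩ h
    have hb : b = b' := hu3 b b' i j h
    subst hb
    by_contra hne
    have hij : i ≠ j := fun h' => hne (by rw [h'])
    have := hu2 b i j hij
    simp only at h
    rw [h] at this
    exact G.irrefl this
  have hLc : (Ls.card : ℝ) = s * B := by
    rw [hLs, Finset.card_image_of_injective _ hLinj, Finset.card_univ, Fintype.card_prod,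
      Fintype.card_fin, Fintype.card_fin]
    push_cast
    ring
  -- families
  set t : ℕ := ⌈e * n⌉₊ with ht
  have ht0 : 0 < t := Nat.ceil_pos.2 (by positivity)
  have ht1 : e * n ≤ (t : ℝ) := Nat.le_ceil _
  have ht2 : (t : ℝ) < e * n + 1 := Nat.ceil_lt_add_one (by positivity)
  set e2 : ℕ := 3 * n / L with he2'
  have he2L : (e2 : ℝ) * L ≤ 3 * n := by
    have : e2 * L ≤ 3 * n := Nat.div_mul_le_self _ _
    exact_mod_cast this
  have hp2 : (p : ℝ) ^ s * e2 + e2 ≤ ε1 * n :=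
    OneV_a8 hL0' hε0 (by positivity) hnpos he2L hL1
  set β : ℝ := tl s k κ with hβ
  set g : ℝ := ((n : ℝ) - 1 - D') / n with hg
  have hg0 : 0 ≤ g := by
    rw [hg]
    exact div_nonneg (OneV_a9 hD1 hv3) hnpos.le
  set z : ℝ := max ((1 - β / κ * g) * n) (D' - γ * Ls.card) with hz
  set d' : ℕ := ⌈z + 4 * ε1 * n⌉₊ with hd'
  have hz0 : γ / 8 * n ≤ z := by
    refine le_trans ?_ (le_max_right _ _)
    rw [hLc]
    exact OneV_a10 hγ hγ1 hnpos hD2 hB1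
  have hd1 : z + 4 * ε1 * n ≤ (d' : ℝ) := Nat.le_ceil _
  have hzpos : 0 ≤ z + 4 * ε1 * n := by
    have : 0 ≤ γ / 8 * n := by positivity
    have : 0 ≤ 4 * ε1 * n := by positivity
    linarith
  have hd2 : (d' : ℝ) < z + 4 * ε1 * n + 1 := Nat.ceil_lt_add_one hzpos
  set m : ℕ := 2 * ((s + 1) * t) with hm
  have hmt : (m : ℝ) + t ≤ ε1 * n := by
    rw [hm]; push_cast
    exact OneV_a11 hs0' hnpos he3 ht2 hv2
  -- z is at most n
  have hβ1 : 1 - 1 / (s * a ^ 2) ≤ β := tail hs0 κ a hκ0.le hκ1 ha0 (by rw [hκ]; linarith)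
  have hβ2 : 1 + a / 2 ≤ β / κ := OneV_a12 ha0 ha1 hs0' hs2 hκ hβ1
  have herr : (((s ^ 2 + n / A + 1 + s ^ 2 * t + 2 * s : ℕ)) : ℝ) ≤ 2 * ε1 * n := by
    push_cast
    exact OneV_a13 hs0' hA0' hnpos hε0 Nat.cast_div_le hA1 he2 ht2 hv1
  have hdn : d' + p ^ s * e2 ≤ 2 * n := by
    have h1 : ((d' + p ^ s * e2 : ℕ) : ℝ) ≤ ((2 * n : ℕ) : ℝ) := by
      push_cast
      exact OneV_a14 hγ hγ1 hnpos hε08 hz (Nat.cast_nonneg _) (by linarith) hg hD1 hv3 hd2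
        (Nat.cast_nonneg _) hp2
    exact_mod_cast h1
  obtain ⟨Q1, hQ1, hit1⟩ := hfam n hn2 G δ ((min_le_left _ _).trans (min_le_right _ _)) hR
    (d' + p ^ s * e2)
  have hmn : m + e2 ≤ 2 * n := by
    have h1 : ((m + e2 : ℕ) : ℝ) ≤ ((2 * n : ℕ) : ℝ) := by
      push_cast
      have h2 : (0 : ℝ) ≤ (p : ℝ) ^ s * e2 := by positivity
      have h3 : (0 : ℝ) ≤ t := Nat.cast_nonneg _
      have : ε1 * n ≤ 1 * n := mul_le_mul_of_nonneg_right hε01 hnpos.le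
      linarith
    exact_mod_cast h1
  obtain ⟨Q0, hQ0, hit0⟩ := hfam n hn2 G δ ((min_le_left _ _).trans (min_le_right _ _)) hR (m + e2)
  have hmiss : ∀ (x d : ℕ), d ≤ 2 * n → L * x ≤ n + d → x ≤ e2 := by
    intro x d hd hx
    rw [he2', Nat.le_div_iff_mul_le hL0]
    calc x * L = L * x := Nat.mul_comm _ _
      _ ≤ n + d := hx
      _ ≤ 3 * n := by omega
  have hte : ∀ T : Finset (Fin n), t ≤ T.card → e * n ≤ (T.card : ℝ) := fun T hT =>
    ht1.trans (by exact_mod_cast hT)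
  obtain ⟨d2, Q2, hd2', hQ2, hall2⟩ := fam2 G t m e2 (by rw [hm]; nlinarith) Q0 hQ0
    (fun T hT => by
      have := hmiss _ _ hmn (hit0 T (hte T hT))
      convert this using 2)
  have hcl : ∀ Q : Finset (Fin n), (∀ a ∈ Q, ∀ b ∈ Q, a ≠ b → G.Adj a b) →
      ∀ a ∈ Q, ∀ b ∈ Q, ¬ Gᶜ.Adj a b := by
    intro Q hQ a ha b hb hab
    rw [SimpleGraph.compl_adj] at hab
    exact hab.2 (hQ a ha b hb hab.1)
  have hcore := core (p := p) (s := s) (r := r) (k := k) (t := t) (e2 := e2) (d' := d') (A := A)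
    G (1 - γ) εT κ g (by rw [hκ, ha]; linarith) hκ0 hκ1 hg0 hrk hsp hAp hA0 ht0 u hu2 hu4
    (by
      intro b i
      have h1 := hu1 b i
      rw [Finset.mem_filter, not_and] at h1
      have h2 := h1 (Finset.mem_univ _)
      have h3 := dg_compl G (u b i)
      have h4 : (n : ℝ) - 1 - D' ≤ dg G (u b i) := by
        have h5 : n ≤ dg G (u b i) + D' + 1 := by omega
        have h6 : (n : ℝ) ≤ dg G (u b i) + D' + 1 := by exact_mod_cast h5
        linarith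
      rw [hg, div_mul_cancel₀ _ hnpos.ne']
      exact h4)
    Q1 Q2 (fun j => hcl _ (hQ1 j)) (fun j => hcl _ (hQ2 j))
    (fun T hT => hmiss _ _ hdn (hit1 T (hte T hT))) hall2
    (by
      have h1 : (((s ^ 2 + n / A + 1 + s ^ 2 * t + 2 * s : ℕ)) : ℝ) < d' := by
        have : 0 < ε1 * n := by positivity
        have : 0 ≤ γ / 8 * n := by positivity
        linarith
      exact_mod_cast h1)
    (by
      have h1 : (1 - β / κ * g) * n ≤ z := le_max_left _ _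
      have h2 : 2 * s * εT * n ≤ ε1 * n := mul_le_mul_of_nonneg_right hεT1 hnpos.le
      have : 0 < ε1 * n := by positivity
      linarith)
    (by
      intro S hS hSu
      have hSL : Disjoint S Ls := by
        rw [Finset.disjoint_right]
        intro x hx
        obtain ⟨q, -, rfl⟩ := Finset.mem_image.1 hx
        exact hSu q.1 q.2
      obtain ⟨v, hv, hle⟩ := degV G γ δ τ (by positivity) hR Ls (by
        rw [hLc]
        have : δ ≤ θ / 2 := (min_le_right _ _).trans (min_le_right _ _)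
        have h2 : δ * n ≤ θ / 2 * n := mul_le_mul_of_nonneg_right this hnpos.le
        linarith) D' (by convert hD3 using 3) S hS hSL
      refine ⟨v, hv, ?_⟩
      have h1 : ((MrGC.nb Gᶜ S v).card : ℝ) + 1 ≤ d' := by
        have h2 : (τ + δ) * n ≤ 2 * ε1 * n := by
          refine mul_le_mul_of_nonneg_right ?_ hnpos.le
          have h3 : τ ≤ ε1 := min_le_right _ _
          have h4 : δ ≤ ε1 := (min_le_right _ _).trans (min_le_left _ _)
          linarith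
        have h5 : (1 : ℝ) ≤ ε1 * n := by nlinarith
        have h6 : D' - γ * (Ls.card : ℝ) ≤ z := le_max_right _ _
        have h7 : max (D' - γ * (Ls.card : ℝ)) ((τ + δ) * n) ≤ z + 2 * ε1 * n := by
          refine max_le ?_ ?_
          · have : 0 ≤ 2 * ε1 * n := by positivity
            linarith
          · have : 0 ≤ γ / 8 * n := by positivity
            linarith
        linarith
      exact_mod_cast h1)
  refine ⟨_, hcore, ?_⟩
  push_cast
  refine OneV_num (γ := γ) (a := a) (θ := θ) (κ := κ) (ε1 := ε1) (β := β) (z := z) (cL := Ls.card)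
    (n := n) (s := s) (t := t) (m := m) (e2 := e2) hγ hγ1 ha hθ hε1 hnpos hβ2 hD1 hv3
    (by rw [hz, hg]) (by rw [hLc]; exact hB2) hs0' ?_ hB1 (Nat.cast_nonneg _) hr2 hd2.le hp2 hmt
    ?_ hv4 hv5
  · rw [div_le_div_iff₀ hs0' (by norm_num)]
    rw [div_le_iff₀ hγ] at hs3
    linarith
  · exact_mod_cast hd2'

end GCQ
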