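import Pool.Agent.GCQ.SM
import Pool.Agent.GCP.Count
import Pool.Agent.GCP.Reg

/-!
# GCQ-Pick: a typical clique in a set with at least `n / 4` vertices

PLAN. Let `c0 = γ ^ (s ^ 2) / 8 ^ s / 2`. Choose `ε' ∈ (0, 1]` with `s ^ 2 * ε' ≤ c0`, `2 ^ s * (2 * (s + 2) * √ε') / c0 ≤ ε / 2`, `√ε' ≤ 1 / (64 (s + 1))` and `8 s √ε' ≤ ε / 4`, and `l` large (`64 (s + 1) ≤ l`, `8 s / l ≤ ε / 4`).
`szemeredi_regularity` with `ε'`, `l` gives `N = bound` and for `n ≥ l` a uniform equipartition `P` with `M` parts, `l ≤ M ≤ N`; take `δ = 1 / (2 N)`, `n0 = max l N`: all parts have between `n / (2 M)` and `2 n / M` elements (`≥ δ n`), so by `Rect` the densities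
`dn` (`GCP.dn`) of different parts are in `[γ, 1 - γ]`, and uniform pairs satisfy `GCP.Cut` with error `ε'` (the lemma `cut_of_uniform` is (private) in `Pool/Agent/GCP/Reg.lean`: copy it).
Call a part `U` bad if it is in more than `√ε' M` non-uniform pairs `(U, V)`: at most `√ε' M` parts are bad (the number of non-uniform pairs is at most `ε' M^2`; uniformity is symmetric). The parts with `|R ∩ U| ≥ |U| / 8`: at least `M / 16` (otherwise
`n / 4 ≤ |R| < (M / 16) (2 n / M) + n / 8`). So at least `M / 16 - √ε' M ≥ M / 32` parts have `|R ∩ U| ≥ |U| / 8` and are not bad. Choose `P_0, ..., P_{s-1}` among them greedily, pairwise different and pairwise uniform: each chosen part excludes at most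
`√ε' M + 1` parts, `s (√ε' M + 1) < M / 32` (induction on the number of chosen parts; statement: for every `j ≤ s` there is an injective family of `j` such parts, pairwise uniform).
Let `A i = R ∩ P_i`. `GCP.count`: `(trans G A).card ≥ γ ^ (s^2) ∏ |A i| - s^2 ε' ∏ |P i| ≥ 2 c0 Π - c0 Π = c0 Π > 0`, `Π = ∏ |P_i|`.
GOOD parts `Y`: `Y` different from all `P_i` and all pairs `(P_i, Y)` uniform; `d Y i = dn G (P_i) Y ∈ [γ, 1 - γ]`; for the other parts put `d Y i = 0`; there are at most `s (√ε' M + 1)` of them, with at most `s (√ε' M + 1) * 2 n / M` vertices; for these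
`∑ S, |..| ≤ 2 |Y|` (the numbers `n_S` add up to `|Y|`, the weights to `1`), so they contribute at most `4 s (√ε' + 1 / M) n ≤ ε n / 2`. The good parts: by `sm` the sum over `u ∈ trans G A` of `∑ Y good, ∑ S |..|` is at most
`2 ^ s (2 (s + 2) √ε') Π n ≤ (ε / 2) n * (trans G A).card`; so for some `u` it is at most `ε n / 2` (`Finset.exists_le_of_sum_le`). This `u` is the clique: `u i ∈ A i ⊆ R`, pairwise adjacent, `Typ G (1 - γ) ε u`.
-/

set_option autoImplicit false

open Finset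

namespace GCQ

open Classical in
private theorem pk_dn_eq {n : ℕ} (G : SimpleGraph (Fin n)) (U V : Finset (Fin n)) :
    ((G.edgeDensity U V : ℚ) : ℝ) = GCP.dn G U V := by
  unfold GCP.dn GCP.edg
  rw [SimpleGraph.edgeDensity_def]
  push_cast
  simp only [SimpleGraph.interedges, Rel.interedges]

private theorem pk_edg_le {n : ℕ} (G : SimpleGraph (Fin n)) (X Y : Finset (Fin n)) :
    (GCP.edg G X Y : ℝ) ≤ X.card * Y.card := by
  classical
  have h : GCP.edg G X Y ≤ X.card * Y.card := by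
    unfold GCP.edg
    exact (card_filter_le _ _).trans (by rw [card_product])
  exact_mod_cast h

private theorem pk_dn_mul {n : ℕ} (G : SimpleGraph (Fin n)) (X Y : Finset (Fin n)) :
    (GCP.edg G X Y : ℝ) = GCP.dn G X Y * (X.card * Y.card) := by
  unfold GCP.dn
  by_cases h : (X.card : ℝ) * Y.card = 0
  · have h1 := pk_edg_le G X Y
    have h2 : (0 : ℝ) ≤ (GCP.edg G X Y : ℝ) := Nat.cast_nonneg _
    rw [h] at h1 ⊢
    linarith
  · rw [div_mul_cancel₀ _ h]

private theorem pk_dn_nonneg {n : ℕ} (G : SimpleGraph (Fin n)) (X Y : Finset (Fin n)) :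
    0 ≤ GCP.dn G X Y := by
  unfold GCP.dn
  positivity

private theorem pk_dn_le_one {n : ℕ} (G : SimpleGraph (Fin n)) (X Y : Finset (Fin n)) :
    GCP.dn G X Y ≤ 1 := by
  unfold GCP.dn
  exact div_le_one_of_le₀ (pk_edg_le G X Y) (by positivity)

open Classical in
private theorem pk_cut {n : ℕ} (G : SimpleGraph (Fin n)) (ε : ℝ) (hε : 0 < ε)
    (U V : Finset (Fin n)) (h : G.IsUniform ε U V) : GCP.Cut G U V ε (GCP.dn G U V) := by
  intro X hX Y hY
  have hXU : (X.card : ℝ) ≤ U.card := by exact_mod_cast card_le_card hX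
  have hYV : (Y.card : ℝ) ≤ V.card := by exact_mod_cast card_le_card hY
  have hX0 : (0 : ℝ) ≤ X.card := Nat.cast_nonneg _
  have hY0 : (0 : ℝ) ≤ Y.card := Nat.cast_nonneg _
  have hU0 : (0 : ℝ) ≤ U.card := Nat.cast_nonneg _
  have hV0 : (0 : ℝ) ≤ V.card := Nat.cast_nonneg _
  have hXY0 : (0 : ℝ) ≤ X.card * Y.card := mul_nonneg hX0 hY0
  have hXYUV : (X.card : ℝ) * Y.card ≤ U.card * V.card := mul_le_mul hXU hYV hY0 hU0
  -- the rough bound
  have hrough : |(GCP.edg G X Y : ℝ) - GCP.dn G U V * (X.card * Y.card)| ≤ X.card * Y.card := by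
    have h1 := pk_edg_le G X Y
    have h0 : (0 : ℝ) ≤ (GCP.edg G X Y : ℝ) := Nat.cast_nonneg _
    have h2 : 0 ≤ GCP.dn G U V * (X.card * Y.card) := mul_nonneg (pk_dn_nonneg G U V) hXY0
    have h3 : GCP.dn G U V * (X.card * Y.card) ≤ 1 * (X.card * Y.card) :=
      mul_le_mul_of_nonneg_right (pk_dn_le_one G U V) hXY0
    rw [abs_le]
    constructor
    · linarith
    · linarith
  by_cases hx : (U.card : ℝ) * ε ≤ X.card
  · by_cases hy : (V.card : ℝ) * ε ≤ Y.card
    · have h2 := h hX hY hx hy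
      rw [pk_dn_eq, pk_dn_eq] at h2
      rw [pk_dn_mul G X Y, ← sub_mul, abs_mul, abs_of_nonneg hXY0]
      exact mul_le_mul h2.le hXYUV hXY0 hε.le
    · push Not at hy
      refine hrough.trans ?_
      calc (X.card : ℝ) * Y.card ≤ U.card * (V.card * ε) := mul_le_mul hXU hy.le hY0 hU0
        _ = ε * (U.card * V.card) := by ring
  · push Not at hx
    refine hrough.trans ?_
    calc (X.card : ℝ) * Y.card ≤ (U.card * ε) * V.card := mul_le_mul hx.le hYV hY0
          (mul_nonneg hU0 hε.le)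
      _ = ε * (U.card * V.card) := by ring

private theorem pk_small (a b : ℝ) (ha : 0 ≤ a) (hb : 0 < b) :
    ∃ t0 : ℝ, 0 < t0 ∧ ∀ t, 0 ≤ t → t ≤ t0 → a * t ≤ b := by
  refine ⟨b / (a + 1), by positivity, fun t ht h => ?_⟩
  rw [le_div_iff₀ (by positivity)] at h
  have h1 : a * t = t * (a + 1) - t := by ring
  linarith

private theorem pk_t (s : ℕ) (c0 ε : ℝ) (hc0 : 0 < c0) (hε : 0 < ε) :
    ∃ t : ℝ, 0 < t ∧ t ≤ 1 ∧ (s : ℝ) ^ 2 * t ≤ c0 ∧
      2 ^ s * (2 * ((s : ℝ) + 2)) * t ≤ c0 * (ε / 2) ∧ 64 * ((s : ℝ) + 1) * t ≤ 1 ∧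
      8 * (s : ℝ) * t ≤ ε / 2 := by
  obtain ⟨t1, ht1, h1⟩ := pk_small ((s : ℝ) ^ 2) c0 (by positivity) hc0
  obtain ⟨t2, ht2, h2⟩ := pk_small (2 ^ s * (2 * ((s : ℝ) + 2))) (c0 * (ε / 2))
    (by positivity) (by positivity)
  obtain ⟨t3, ht3, h3⟩ := pk_small (64 * ((s : ℝ) + 1)) 1 (by positivity) one_pos
  obtain ⟨t4, ht4, h4⟩ := pk_small (8 * (s : ℝ)) (ε / 2) (by positivity) (by positivity)
  have hpos : 0 < min 1 (min (min t1 t2) (min t3 t4)) :=
    lt_min one_pos (lt_min (lt_min ht1 ht2) (lt_min ht3 ht4))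
  refine ⟨min 1 (min (min t1 t2) (min t3 t4)), hpos, min_le_left _ _, h1 _ hpos.le ?_,
    h2 _ hpos.le ?_, h3 _ hpos.le ?_, h4 _ hpos.le ?_⟩
  · exact (min_le_right _ _).trans ((min_le_left _ _).trans (min_le_left _ _))
  · exact (min_le_right _ _).trans ((min_le_left _ _).trans (min_le_right _ _))
  · exact (min_le_right _ _).trans ((min_le_right _ _).trans (min_le_left _ _))
  · exact (min_le_right _ _).trans ((min_le_right _ _).trans (min_le_right _ _))

private theorem pk_greedy {α : Type} (C : Finset α) (r : α → α → Prop)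
    (hr : ∀ x y, r x y → r y x) (b : ℝ) (hb : 0 ≤ b)
    (h : ∀ x ∈ C, ∃ B : Finset α, (∀ y ∈ C, r x y → y ∈ B) ∧ (B.card : ℝ) ≤ b) (s : ℕ)
    (hs : s * b < C.card) :
    ∃ f : Fin s → α, (∀ i, f i ∈ C) ∧ ∀ i j, i ≠ j → ¬ r (f i) (f j) := by
  classical
  induction s with
  | zero => exact ⟨fun i => i.elim0, fun i => i.elim0, fun i => i.elim0⟩
  | succ s ih =>
    have h1 : (s : ℝ) * b < C.card := by
      push_cast at hs
      linarith
    obtain ⟨f, hf, hfr⟩ := ih h1
    choose B hB1 hB2 using fun i => h (f i) (hf i)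
    have h2 : ((univ.biUnion B).card : ℝ) ≤ s * b := by
      have h4 := card_biUnion_le (s := (univ : Finset (Fin s))) (t := B)
      calc ((univ.biUnion B).card : ℝ) ≤ ∑ i, ((B i).card : ℝ) := by exact_mod_cast h4
        _ ≤ ∑ i : Fin s, b := sum_le_sum fun i _ => hB2 i
        _ = s * b := by simp
    have h3 : ¬ C ⊆ univ.biUnion B := by
      intro hsub
      have h5 : (C.card : ℝ) ≤ (univ.biUnion B).card := by exact_mod_cast card_le_card hsub
      linarith
    rw [not_subset] at h3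
    obtain ⟨x, hxC, hx⟩ := h3
    have hx' : ∀ i, ¬ r (f i) x := by
      intro i hri
      exact hx (mem_biUnion.2 ⟨i, mem_univ _, hB1 i x hxC hri⟩)
    refine ⟨Fin.cons x f, ?_, ?_⟩
    · intro i
      refine Fin.cases ?_ (fun j => ?_) i
      · exact hxC
      · exact hf j
    · intro i j
      refine Fin.cases ?_ (fun i => ?_) i
      · refine Fin.cases ?_ (fun j => ?_) j
        · intro h6
          exact absurd rfl h6
        · intro _ h6
          exact hx' j (hr _ _ h6)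
      · refine Fin.cases ?_ (fun j => ?_) j
        · intro _ h6
          exact hx' i h6
        · intro h6 h7
          exact hfr i j (fun h8 => h6 (by rw [h8])) h7

private theorem pk_size {n : ℕ} (P : Finpartition (univ : Finset (Fin n)))
    (hP : P.IsEquipartition) (hM0 : 0 < P.parts.card) (hMn : P.parts.card ≤ n)
    (U : Finset (Fin n)) (hU : U ∈ P.parts) :
    (n : ℝ) / (2 * P.parts.card) ≤ U.card ∧ (U.card : ℝ) ≤ 2 * n / P.parts.card := by
  have h1 := hP.average_le_card_part hU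
  have h2 := hP.card_part_le_average_add_one hU
  rw [card_univ, Fintype.card_fin] at h1 h2
  have hM : (0 : ℝ) < P.parts.card := by exact_mod_cast hM0
  have hq : 1 ≤ n / P.parts.card := (Nat.one_le_div_iff hM0).2 hMn
  have h3 : n < P.parts.card * (n / P.parts.card + 1) := by
    have := Nat.lt_mul_div_succ n hM0
    exact this
  have h4 : P.parts.card * (n / P.parts.card) ≤ n := Nat.mul_div_le n _
  have hMn' : (P.parts.card : ℝ) ≤ n := by exact_mod_cast hMn
  have h3' : (n : ℝ) < P.parts.card * (((n / P.parts.card : ℕ) : ℝ) + 1) := by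
    exact_mod_cast h3
  have h4' : (P.parts.card : ℝ) * ((n / P.parts.card : ℕ) : ℝ) ≤ n := by exact_mod_cast h4
  have hq' : (1 : ℝ) ≤ ((n / P.parts.card : ℕ) : ℝ) := by exact_mod_cast hq
  have h1' : ((n / P.parts.card : ℕ) : ℝ) ≤ U.card := by exact_mod_cast h1
  have h2' : (U.card : ℝ) ≤ ((n / P.parts.card : ℕ) : ℝ) + 1 := by exact_mod_cast h2
  constructor
  · rw [div_le_iff₀ (by positivity)]
    have h5 : (P.parts.card : ℝ) * (((n / P.parts.card : ℕ) : ℝ) + 1) ≤
        P.parts.card * (2 * U.card) := by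
      apply mul_le_mul_of_nonneg_left _ hM.le
      linarith
    calc (n : ℝ) ≤ P.parts.card * (2 * U.card) := h3'.le.trans h5
      _ = U.card * (2 * P.parts.card) := by ring
  · rw [le_div_iff₀ hM]
    calc (U.card : ℝ) * P.parts.card ≤ (((n / P.parts.card : ℕ) : ℝ) + 1) * P.parts.card :=
          mul_le_mul_of_nonneg_right h2' hM.le
      _ = P.parts.card * ((n / P.parts.card : ℕ) : ℝ) + P.parts.card := by ring
      _ ≤ n + n := add_le_add h4' hMn'
      _ = 2 * n := by ring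

private theorem pk_rect {n : ℕ} (G : SimpleGraph (Fin n)) (γ δ : ℝ) (h : Rect G γ δ)
    (X Y : Finset (Fin n)) (hd : Disjoint X Y) (hX : δ * n ≤ X.card) (hY : δ * n ≤ Y.card)
    (hX0 : 0 < X.card) (hY0 : 0 < Y.card) :
    γ ≤ GCP.dn G X Y ∧ GCP.dn G X Y ≤ 1 - γ := by
  obtain ⟨h1, h2⟩ := h X Y hd hX hY
  have hx : (0 : ℝ) < X.card := by exact_mod_cast hX0
  have hy : (0 : ℝ) < Y.card := by exact_mod_cast hY0
  unfold GCP.dn
  rw [le_div_iff₀ (by positivity), div_le_iff₀ (by positivity)]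
  exact ⟨h1, h2⟩

private theorem pk_triv {n s : ℕ} (G : SimpleGraph (Fin n)) (u : Fin s → Fin n)
    (Y : Finset (Fin n)) :
    ∑ S : Finset (Fin s), |(((Y.filter (fun v => tr G u v = S)).card : ℕ) : ℝ) -
      (∏ i, if i ∈ S then (0 : ℝ) else 1 - 0) * Y.card| ≤ 2 * Y.card := by
  have h1 : ∑ S : Finset (Fin s), (((Y.filter (fun v => tr G u v = S)).card : ℕ) : ℝ) =
      Y.card := by
    have h2 := card_eq_sum_card_fiberwise (s := Y) (t := (univ : Finset (Finset (Fin s))))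
      (f := fun v => tr G u v) (fun v _ => by simp)
    exact_mod_cast h2.symm
  have h3 : ∀ S : Finset (Fin s), (∏ i, if i ∈ S then (0 : ℝ) else 1 - 0) =
      if S = ∅ then 1 else 0 := by
    intro S
    by_cases hS : S = ∅
    · subst hS
      simp
    · rw [if_neg hS]
      obtain ⟨i, hi⟩ := nonempty_iff_ne_empty.2 hS
      exact prod_eq_zero (mem_univ i) (by rw [if_pos hi])
  calc _ ≤ ∑ S : Finset (Fin s), ((((Y.filter (fun v => tr G u v = S)).card : ℕ) : ℝ) +
        (if S = ∅ then (1 : ℝ) else 0) * Y.card) := by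
        refine sum_le_sum fun S _ => ?_
        rw [h3]
        refine (abs_sub _ _).trans ?_
        rw [abs_of_nonneg (Nat.cast_nonneg _), abs_of_nonneg (by positivity)]
    _ = 2 * Y.card := by
        rw [sum_add_distrib, h1, ← sum_mul, sum_ite_eq' univ (∅ : Finset (Fin s))]
        rw [if_pos (mem_univ _)]
        ring

open Classical in
private theorem pk_bad {n : ℕ} (G : SimpleGraph (Fin n)) (P : Finpartition (univ : Finset (Fin n)))
    (t : ℝ) (ht : 0 < t) (hM0 : 0 < P.parts.card) (hu : P.IsUniform G (t ^ 2)) :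
    ((P.parts.filter (fun U => t * P.parts.card <
      ((P.parts.filter (fun V => U ≠ V ∧ ¬ G.IsUniform (t ^ 2) U V)).card : ℝ))).card : ℝ) ≤
      t * P.parts.card := by
  set M : ℝ := (P.parts.card : ℝ) with hM
  have hMp : 0 < M := by rw [hM]; exact_mod_cast hM0
  set f : Finset (Fin n) → ℝ := fun U =>
    ((P.parts.filter (fun V => U ≠ V ∧ ¬ G.IsUniform (t ^ 2) U V)).card : ℝ) with hf
  have h1 : ∑ U ∈ P.parts, f U = ((P.nonUniforms G (t ^ 2)).card : ℝ) := by
    have h2 : P.nonUniforms G (t ^ 2) = (P.parts ×ˢ P.parts).filter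
        (fun q => q.1 ≠ q.2 ∧ ¬ G.IsUniform (t ^ 2) q.1 q.2) := by
      ext ⟨U, V⟩
      rw [Finpartition.mk_mem_nonUniforms, mem_filter, mem_product]
      constructor
      · rintro ⟨a, b, c, d⟩
        exact ⟨⟨a, b⟩, c, d⟩
      · rintro ⟨⟨a, b⟩, c, d⟩
        exact ⟨a, b, c, d⟩
    rw [h2, card_filter, sum_product]
    push_cast
    refine sum_congr rfl fun U _ => ?_
    rw [hf]
    change ((P.parts.filter (fun V => U ≠ V ∧ ¬ G.IsUniform (t ^ 2) U V)).card : ℝ) = _
    rw [card_filter]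
    push_cast
    rfl
  have h2 : ((P.nonUniforms G (t ^ 2)).card : ℝ) ≤ t ^ 2 * M ^ 2 := by
    have h3 : ((P.nonUniforms G (t ^ 2)).card : ℝ) ≤
        ((P.parts.card * (P.parts.card - 1) : ℕ) : ℝ) * t ^ 2 := hu
    have h4 : ((P.parts.card * (P.parts.card - 1) : ℕ) : ℝ) ≤ M ^ 2 := by
      have h5 : P.parts.card * (P.parts.card - 1) ≤ P.parts.card ^ 2 := by
        rw [sq]
        exact Nat.mul_le_mul_left _ (Nat.sub_le _ _)
      rw [hM]
      exact_mod_cast h5
    calc ((P.nonUniforms G (t ^ 2)).card : ℝ) ≤ _ := h3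
      _ ≤ M ^ 2 * t ^ 2 := mul_le_mul_of_nonneg_right h4 (by positivity)
      _ = t ^ 2 * M ^ 2 := by ring
  set B := P.parts.filter (fun U => t * M < f U) with hB
  have h3 : (B.card : ℝ) * (t * M) ≤ t ^ 2 * M ^ 2 := by
    calc (B.card : ℝ) * (t * M) = ∑ U ∈ B, t * M := by rw [sum_const, nsmul_eq_mul]
      _ ≤ ∑ U ∈ B, f U := sum_le_sum fun U hU => (mem_filter.1 hU).2.le
      _ ≤ ∑ U ∈ P.parts, f U := sum_le_sum_of_subset_of_nonneg (filter_subset _ _)
          (fun U _ _ => Nat.cast_nonneg _)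
      _ ≤ t ^ 2 * M ^ 2 := by rw [h1]; exact h2
  have h4 : 0 < t * M := by positivity
  have h5 : (B.card : ℝ) * (t * M) ≤ (t * M) * (t * M) := h3.trans (le_of_eq (by ring))
  exact le_of_mul_le_mul_right h5 h4

private theorem pk_sum {n : ℕ} (P : Finpartition (univ : Finset (Fin n))) (f : Fin n → ℝ) :
    ∑ v, f v = ∑ U ∈ P.parts, ∑ v ∈ U, f v := by
  have h : ∑ v ∈ P.parts.biUnion id, f v = ∑ U ∈ P.parts, ∑ v ∈ U, f v :=
    sum_biUnion P.disjoint
  rw [P.biUnion_parts] at h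
  exact h

private theorem pk_card {n : ℕ} (P : Finpartition (univ : Finset (Fin n))) :
    ∑ U ∈ P.parts, (U.card : ℝ) = n := by
  have h := pk_sum P (fun _ => (1 : ℝ))
  simp only [sum_const, nsmul_eq_mul, mul_one, card_univ, Fintype.card_fin] at h
  exact h.symm

open Classical in
private theorem pk_rich {n : ℕ} (P : Finpartition (univ : Finset (Fin n)))
    (hP : P.IsEquipartition) (hM0 : 0 < P.parts.card) (hMn : P.parts.card ≤ n)
    (R : Finset (Fin n)) (hR : (n : ℝ) / 4 ≤ R.card) :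
    (P.parts.card : ℝ) / 16 ≤
      ((P.parts.filter (fun U => (U.card : ℝ) / 8 ≤ ((R ∩ U).card : ℝ))).card : ℝ) := by
  set M : ℝ := (P.parts.card : ℝ) with hM
  have hMp : 0 < M := by rw [hM]; exact_mod_cast hM0
  have hn : (0 : ℝ) < n := by exact_mod_cast lt_of_lt_of_le hM0 hMn
  set C := P.parts.filter (fun U => (U.card : ℝ) / 8 ≤ ((R ∩ U).card : ℝ)) with hC
  have h1 : (R.card : ℝ) = ∑ U ∈ P.parts, ((R ∩ U).card : ℝ) := by
    have h := pk_sum P (fun v => if v ∈ R then (1 : ℝ) else 0)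
    rw [sum_boole, filter_mem_eq_inter, univ_inter] at h
    rw [h]
    refine sum_congr rfl fun U _ => ?_
    rw [sum_boole, filter_mem_eq_inter, inter_comm]
  have h2 : ∑ U ∈ P.parts, ((R ∩ U).card : ℝ) ≤ ∑ U ∈ P.parts,
      ((if (U.card : ℝ) / 8 ≤ ((R ∩ U).card : ℝ) then 2 * (n : ℝ) / M else 0) +
        (U.card : ℝ) / 8) := by
    refine sum_le_sum fun U hU => ?_
    have h3 := (pk_size P hP hM0 hMn U hU).2
    rw [← hM] at h3
    split_ifs with h4
    · have h5 : ((R ∩ U).card : ℝ) ≤ U.card := by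
        exact_mod_cast card_le_card inter_subset_right
      have h6 : (0 : ℝ) ≤ (U.card : ℝ) / 8 := by positivity
      linarith
    · push Not at h4
      linarith
  have h3 : ∑ U ∈ P.parts,
      ((if (U.card : ℝ) / 8 ≤ ((R ∩ U).card : ℝ) then 2 * (n : ℝ) / M else 0) +
        (U.card : ℝ) / 8) = C.card * (2 * n / M) + n / 8 := by
    rw [sum_add_distrib, ← sum_filter, ← hC, sum_const, nsmul_eq_mul, ← sum_div, pk_card]
  have h4 : (n : ℝ) / 4 ≤ C.card * (2 * n / M) + n / 8 := by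
    rw [← h3]
    exact hR.trans (h1.le.trans h2)
  have h5 : (n : ℝ) / 8 ≤ C.card * (2 * n / M) := by linarith
  have h6 : (n : ℝ) / 8 * M ≤ C.card * (2 * n) := by
    calc (n : ℝ) / 8 * M ≤ C.card * (2 * n / M) * M := mul_le_mul_of_nonneg_right h5 hMp.le
      _ = C.card * (2 * n) := by
        field_simp
  have h7 : (n : ℝ) * (M / 16) ≤ n * C.card := by linarith
  exact le_of_mul_le_mul_left h7 hn

private theorem pk_prod {s : ℕ} (γ : ℝ) (hγ : 0 < γ) (hγ1 : γ ≤ 1)
    (D : Fin s → Fin s → ℝ) (hD : ∀ i j, i < j → γ ≤ D i j) (a p : Fin s → ℝ)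
    (hp : ∀ i, 0 ≤ p i) (ha : ∀ i, p i / 8 ≤ a i) :
    γ ^ (s ^ 2) / 8 ^ s * ∏ i, p i ≤ (∏ q ∈ GCP.prs s, D q.1 q.2) * ∏ i, a i := by
  have h1 : γ ^ (s ^ 2) ≤ ∏ q ∈ GCP.prs s, D q.1 q.2 := by
    have h2 : (GCP.prs s).card ≤ s ^ 2 := by
      unfold GCP.prs
      refine (card_filter_le _ _).trans ?_
      rw [card_univ, Fintype.card_prod, Fintype.card_fin, sq]
    calc γ ^ (s ^ 2) ≤ γ ^ (GCP.prs s).card := pow_le_pow_of_le_one hγ.le hγ1 h2
      _ = ∏ q ∈ GCP.prs s, γ := by rw [prod_const]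
      _ ≤ ∏ q ∈ GCP.prs s, D q.1 q.2 := prod_le_prod (fun _ _ => hγ.le)
          (fun q hq => hD q.1 q.2 (mem_filter.1 hq).2)
  have h2 : (∏ i, p i) / 8 ^ s ≤ ∏ i, a i := by
    calc (∏ i, p i) / 8 ^ s = ∏ i, (p i / 8) := by
          rw [prod_div_distrib, prod_const, card_univ, Fintype.card_fin]
      _ ≤ ∏ i, a i := prod_le_prod (fun i _ => div_nonneg (hp i) (by norm_num))
          (fun i _ => ha i)
  have h3 : 0 ≤ (∏ i, p i) / 8 ^ s := div_nonneg (prod_nonneg fun i _ => hp i) (by positivity)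
  calc γ ^ (s ^ 2) / 8 ^ s * ∏ i, p i = γ ^ (s ^ 2) * ((∏ i, p i) / 8 ^ s) := by ring
    _ ≤ (∏ q ∈ GCP.prs s, D q.1 q.2) * ∏ i, a i :=
      mul_le_mul h1 h2 h3 ((pow_pos hγ _).le.trans h1)

open Classical in
private theorem pk_core {n s : ℕ} (G : SimpleGraph (Fin n)) (γ ε t δ : ℝ) (hγ : 0 < γ)
    (hγ1 : γ ≤ 1 / 2) (hε : 0 < ε) (ht : 0 < t) (l : ℕ)
    (ht1 : (s : ℝ) ^ 2 * t ^ 2 ≤ γ ^ (s ^ 2) / 8 ^ s / 2)
    (ht2 : 2 ^ s * (2 * ((s : ℝ) + 2)) * t ≤ γ ^ (s ^ 2) / 8 ^ s / 2 * (ε / 2))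
    (ht3 : 64 * ((s : ℝ) + 1) * t ≤ 1) (ht4 : 8 * (s : ℝ) * t ≤ ε / 2)
    (hl1 : 64 * ((s : ℝ) + 1) ≤ l) (hl2 : 8 * (s : ℝ) ≤ ε / 2 * l)
    (hG : Rect G γ δ)
    (P : Finpartition (univ : Finset (Fin n))) (hPe : P.IsEquipartition)
    (hPl : l ≤ P.parts.card) (hMn : P.parts.card ≤ n) (hPu : P.IsUniform G (t ^ 2))
    (hδ : δ * n ≤ n / (2 * P.parts.card)) (R : Finset (Fin n)) (hR : (n : ℝ) / 4 ≤ R.card) :
    ∃ u : Fin s → Fin n, (∀ i, u i ∈ R) ∧ (∀ i j, i ≠ j → G.Adj (u i) (u j)) ∧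
        Typ G (1 - γ) ε u := by
  have hl0 : (0 : ℝ) < l := lt_of_lt_of_le (by positivity) hl1
  have hM0 : 0 < P.parts.card := by
    have : (0 : ℝ) < P.parts.card := lt_of_lt_of_le hl0 (by exact_mod_cast hPl)
    exact_mod_cast this
  set M : ℝ := (P.parts.card : ℝ) with hM
  have hMp : 0 < M := by rw [hM]; exact_mod_cast hM0
  have hlM : (l : ℝ) ≤ M := by rw [hM]; exact_mod_cast hPl
  have hn : (0 : ℝ) < n := by exact_mod_cast lt_of_lt_of_le hM0 hMn
  have hpos : ∀ U ∈ P.parts, 0 < U.card := fun U hU => (P.nonempty_of_mem_parts hU).card_pos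
  have hrect : ∀ U ∈ P.parts, ∀ V ∈ P.parts, U ≠ V →
      γ ≤ GCP.dn G U V ∧ GCP.dn G U V ≤ 1 - γ := by
    intro U hU V hV hUV
    refine pk_rect G γ δ hG U V (P.disjoint hU hV hUV) ?_ ?_ (hpos U hU) (hpos V hV)
    · exact hδ.trans (pk_size P hPe hM0 hMn U hU).1
    · exact hδ.trans (pk_size P hPe hM0 hMn V hV).1
  -- the relation to be avoided
  set nb : Finset (Fin n) → Finset (Finset (Fin n)) := fun U =>
    P.parts.filter (fun V => U ≠ V ∧ ¬ G.IsUniform (t ^ 2) U V) with hnb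
  set r : Finset (Fin n) → Finset (Fin n) → Prop := fun U V =>
    U = V ∨ ¬ G.IsUniform (t ^ 2) U V with hr
  set C := (P.parts.filter (fun U => (U.card : ℝ) / 8 ≤ ((R ∩ U).card : ℝ))).filter
    (fun U => ¬ t * M < ((nb U).card : ℝ)) with hC
  have hCcard : M / 16 - t * M ≤ C.card := by
    have h1 := pk_rich P hPe hM0 hMn R hR
    have h2 := pk_bad G P t ht hM0 hPu
    rw [← hM] at h1 h2
    have h3 := card_filter_add_card_filter_not
      (s := P.parts.filter (fun U => (U.card : ℝ) / 8 ≤ ((R ∩ U).card : ℝ)))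
      (fun U => t * M < ((nb U).card : ℝ))
    have h4 : ((P.parts.filter (fun U => (U.card : ℝ) / 8 ≤ ((R ∩ U).card : ℝ))).filter
        (fun U => t * M < ((nb U).card : ℝ))).card ≤
        (P.parts.filter (fun U => t * M < ((nb U).card : ℝ))).card :=
      card_le_card (filter_subset_filter _ (filter_subset _ _))
    have h5 : (((P.parts.filter (fun U => (U.card : ℝ) / 8 ≤ ((R ∩ U).card : ℝ))).filter
        (fun U => t * M < ((nb U).card : ℝ))).card : ℝ) ≤ t * M := by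
      have h6 : (((P.parts.filter (fun U => (U.card : ℝ) / 8 ≤ ((R ∩ U).card : ℝ))).filter
        (fun U => t * M < ((nb U).card : ℝ))).card : ℝ) ≤
        (P.parts.filter (fun U => t * M < ((nb U).card : ℝ))).card := by exact_mod_cast h4
      exact h6.trans h2
    have h3' : (((P.parts.filter (fun U => (U.card : ℝ) / 8 ≤ ((R ∩ U).card : ℝ))).filter
        (fun U => t * M < ((nb U).card : ℝ))).card : ℝ) + C.card =
        (P.parts.filter (fun U => (U.card : ℝ) / 8 ≤ ((R ∩ U).card : ℝ))).card := by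
      exact_mod_cast h3
    linarith
  have hb : (0 : ℝ) ≤ t * M + 1 := by positivity
  have hstM : (s : ℝ) * (t * M + 1) < C.card := by
    have h1 : 64 * ((s : ℝ) + 1) * t * M ≤ 1 * M := mul_le_mul_of_nonneg_right ht3 hMp.le
    have h2 : 64 * ((s : ℝ) + 1) ≤ M := hl1.trans hlM
    have h3 : 0 < t * M := by positivity
    have h4 : 64 * ((s : ℝ) + 1) * t * M = 64 * (s * (t * M)) + 64 * (t * M) := by ring
    have h5 : (s : ℝ) * (t * M + 1) = s * (t * M) + s := by ring
    have h6 : (0 : ℝ) ≤ s * (t * M) := by positivity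
    linarith
  obtain ⟨Q, hQC, hQr⟩ := pk_greedy C r
    (by
      rintro x y (h | h)
      · exact Or.inl h.symm
      · exact Or.inr fun h1 => h h1.symm)
    (t * M + 1) hb
    (by
      intro x hx
      refine ⟨insert x (nb x), ?_, ?_⟩
      · intro y hy hxy
        by_cases hyx : y = x
        · rw [hyx]
          exact mem_insert_self _ _
        · refine mem_insert_of_mem (mem_filter.2 ⟨?_, fun h => hyx h.symm, ?_⟩)
          · exact (mem_filter.1 (mem_filter.1 hy).1).1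
          · rcases hxy with h | h
            · exact absurd h.symm hyx
            · exact h
      · have h1 := (mem_filter.1 hx).2
        push Not at h1
        have h2 : ((insert x (nb x)).card : ℝ) ≤ (nb x).card + 1 := by
          exact_mod_cast card_insert_le _ _
        linarith) s hstM
  have hQP : ∀ i, Q i ∈ P.parts := fun i => (mem_filter.1 (mem_filter.1 (hQC i)).1).1
  have hQR : ∀ i, ((Q i).card : ℝ) / 8 ≤ ((R ∩ Q i).card : ℝ) := fun i =>
    (mem_filter.1 (mem_filter.1 (hQC i)).1).2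
  have hQnb : ∀ i, ((nb (Q i)).card : ℝ) ≤ t * M := fun i => by
    have h1 := (mem_filter.1 (hQC i)).2
    push Not at h1
    exact h1
  have hQne : ∀ i j, i ≠ j → Q i ≠ Q j := fun i j hij h => hQr i j hij (Or.inl h)
  have hQu : ∀ i j, i ≠ j → G.IsUniform (t ^ 2) (Q i) (Q j) := fun i j hij => by
    by_contra h
    exact hQr i j hij (Or.inr h)
  set A : Fin s → Finset (Fin n) := fun i => R ∩ Q i with hA
  have hAQ : ∀ i, A i ⊆ Q i := fun i => inter_subset_right
  set D : Fin s → Fin s → ℝ := fun i j => GCP.dn G (Q i) (Q j) with hD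
  have ht2p : (0 : ℝ) < t ^ 2 := by positivity
  have hcut : ∀ i j, i < j → GCP.Cut G (Q i) (Q j) (t ^ 2) (D i j) := fun i j hij =>
    pk_cut G _ ht2p _ _ (hQu i j hij.ne)
  obtain ⟨Pi, hPi⟩ : ∃ p : ℝ, p = ∏ i, ((Q i).card : ℝ) := ⟨_, rfl⟩
  have hPi0 : 0 < Pi := by
    rw [hPi]
    exact prod_pos fun i _ => by exact_mod_cast hpos _ (hQP i)
  have hcount := GCP.count G Q A hAQ (t ^ 2) ht2p.le D (fun i j _ => pk_dn_nonneg _ _ _)
    (fun i j _ => pk_dn_le_one _ _ _) hcut
  have hlow : γ ^ (s ^ 2) / 8 ^ s / 2 * Pi ≤ (GCP.trans G A).card := by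
    have h1 := pk_prod γ hγ (by linarith) D
      (fun i j hij => (hrect _ (hQP i) _ (hQP j) (hQne i j hij.ne)).1)
      (fun i => ((A i).card : ℝ)) (fun i => ((Q i).card : ℝ)) (fun i => Nat.cast_nonneg _)
      (fun i => hQR i)
    rw [← hPi] at h1
    have h2 : (s : ℝ) ^ 2 * t ^ 2 * Pi ≤ γ ^ (s ^ 2) / 8 ^ s / 2 * Pi :=
      mul_le_mul_of_nonneg_right ht1 hPi0.le
    rw [← hPi] at hcount
    have h3 := (abs_le.1 hcount).1
    have h4 : γ ^ (s ^ 2) / 8 ^ s * Pi = 2 * (γ ^ (s ^ 2) / 8 ^ s / 2 * Pi) := by ring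
    linarith
  have hc0 : 0 < γ ^ (s ^ 2) / 8 ^ s / 2 := by positivity
  have hne : (GCP.trans G A).Nonempty := by
    rw [← card_pos]
    have h1 : (0 : ℝ) < (GCP.trans G A).card := lt_of_lt_of_le (mul_pos hc0 hPi0) hlow
    exact_mod_cast h1
  -- good parts
  set gd : Finset (Fin n) → Prop := fun Y => ∀ i, Q i ≠ Y ∧ G.IsUniform (t ^ 2) (Q i) Y with hgd
  have hsm : ∀ Y ∈ P.parts.filter gd, ∑ u ∈ GCP.trans G A, ∑ S : Finset (Fin s),
      |(((Y.filter (fun v => tr G u v = S)).card : ℕ) : ℝ) -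
        (∏ i, if i ∈ S then GCP.dn G (Q i) Y else 1 - GCP.dn G (Q i) Y) * Y.card| ≤
      2 ^ s * (2 * (s + 2) * t) * Pi * Y.card := by
    intro Y hY
    have h1 := sm G Q A Y hAQ (t ^ 2) ht2p.le D (fun i => GCP.dn G (Q i) Y)
      (fun i j _ => ⟨pk_dn_nonneg _ _ _, pk_dn_le_one _ _ _⟩)
      (fun i => ⟨pk_dn_nonneg _ _ _, pk_dn_le_one _ _ _⟩) hcut
      (fun i => pk_cut G _ ht2p _ _ ((mem_filter.1 hY).2 i).2)
    rw [Real.sqrt_sq ht.le, ← hPi] at h1
    exact h1
  have hsum : ∑ u ∈ GCP.trans G A, ∑ Y ∈ P.parts.filter gd, ∑ S : Finset (Fin s),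
      |(((Y.filter (fun v => tr G u v = S)).card : ℕ) : ℝ) -
        (∏ i, if i ∈ S then GCP.dn G (Q i) Y else 1 - GCP.dn G (Q i) Y) * Y.card| ≤
      ∑ u ∈ GCP.trans G A, (ε / 2) * n := by
    rw [sum_comm]
    calc _ ≤ ∑ Y ∈ P.parts.filter gd, 2 ^ s * (2 * (s + 2) * t) * Pi * (Y.card : ℝ) :=
          sum_le_sum hsm
      _ ≤ ∑ Y ∈ P.parts, 2 ^ s * (2 * (s + 2) * t) * Pi * (Y.card : ℝ) :=
          sum_le_sum_of_subset_of_nonneg (filter_subset _ _) (fun Y _ _ => by positivity)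
      _ = 2 ^ s * (2 * (s + 2) * t) * Pi * n := by rw [← mul_sum, pk_card]
      _ = (2 ^ s * (2 * (s + 2)) * t) * (Pi * n) := by ring
      _ ≤ (γ ^ (s ^ 2) / 8 ^ s / 2 * (ε / 2)) * (Pi * n) :=
          mul_le_mul_of_nonneg_right ht2 (by positivity)
      _ = (γ ^ (s ^ 2) / 8 ^ s / 2 * Pi) * (ε / 2 * n) := by ring
      _ ≤ (GCP.trans G A).card * (ε / 2 * n) :=
          mul_le_mul_of_nonneg_right hlow (by positivity)
      _ = ∑ u ∈ GCP.trans G A, (ε / 2) * n := by rw [sum_const, nsmul_eq_mul]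
  obtain ⟨u, hu, hue⟩ := exists_le_of_sum_le hne hsum
  have hu' := hu
  unfold GCP.trans at hu'
  rw [mem_filter, Fintype.mem_piFinset] at hu'
  obtain ⟨huA, huadj⟩ := hu'
  refine ⟨u, fun i => (mem_inter.1 (huA i)).1, ?_, ?_⟩
  · intro i j hij
    rcases lt_or_gt_of_ne hij with h | h
    · exact huadj i j h
    · exact (huadj j i h).symm
  refine ⟨P, fun Y i => if gd Y then GCP.dn G (Q i) Y else 0, ?_, ?_⟩
  · intro Y hY i
    by_cases h : gd Y
    · simp only [if_pos h]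
      exact ⟨pk_dn_nonneg _ _ _, (hrect _ (hQP i) _ hY (h i).1).2⟩
    · simp only [if_neg h]
      exact ⟨le_refl _, by linarith⟩
  rw [← sum_filter_add_sum_filter_not P.parts gd]
  have hgood : ∑ Y ∈ P.parts.filter gd, ∑ S : Finset (Fin s),
      |(((Y.filter (fun v => tr G u v = S)).card : ℕ) : ℝ) -
        (∏ i, if i ∈ S then (if gd Y then GCP.dn G (Q i) Y else 0)
          else 1 - (if gd Y then GCP.dn G (Q i) Y else 0)) * Y.card| ≤ ε / 2 * n := by
    refine le_trans (le_of_eq ?_) hue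
    refine sum_congr rfl fun Y hY => ?_
    have h : gd Y := (mem_filter.1 hY).2
    simp only [if_pos h]
  have hbadc : ((P.parts.filter (fun Y => ¬ gd Y)).card : ℝ) ≤ s * (t * M + 1) := by
    have h1 : P.parts.filter (fun Y => ¬ gd Y) ⊆
        (univ : Finset (Fin s)).biUnion (fun i => insert (Q i) (nb (Q i))) := by
      intro Y hY
      rw [mem_filter] at hY
      obtain ⟨hYP, hYg⟩ := hY
      have hYg' : ∃ i, ¬ (Q i ≠ Y ∧ G.IsUniform (t ^ 2) (Q i) Y) := by
        by_contra h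
        push Not at h
        exact hYg h
      obtain ⟨i, hi⟩ := hYg'
      refine mem_biUnion.2 ⟨i, mem_univ _, ?_⟩
      by_cases hY' : Q i = Y
      · rw [← hY']
        exact mem_insert_self _ _
      · refine mem_insert_of_mem (mem_filter.2 ⟨hYP, hY', fun h => hi ⟨hY', h⟩⟩)
    calc ((P.parts.filter (fun Y => ¬ gd Y)).card : ℝ) ≤
          (((univ : Finset (Fin s)).biUnion (fun i => insert (Q i) (nb (Q i)))).card : ℝ) := by
          exact_mod_cast card_le_card h1
      _ ≤ ∑ i : Fin s, ((insert (Q i) (nb (Q i))).card : ℝ) := by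
          exact_mod_cast card_biUnion_le
      _ ≤ ∑ i : Fin s, (t * M + 1) := by
          refine sum_le_sum fun i _ => ?_
          have h2 : ((insert (Q i) (nb (Q i))).card : ℝ) ≤ (nb (Q i)).card + 1 := by
            exact_mod_cast card_insert_le _ _
          have h3 := hQnb i
          linarith
      _ = s * (t * M + 1) := by
          rw [sum_const, nsmul_eq_mul, card_univ, Fintype.card_fin]
  have hbad : ∑ Y ∈ P.parts.filter (fun Y => ¬ gd Y), ∑ S : Finset (Fin s),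
      |(((Y.filter (fun v => tr G u v = S)).card : ℕ) : ℝ) -
        (∏ i, if i ∈ S then (if gd Y then GCP.dn G (Q i) Y else 0)
          else 1 - (if gd Y then GCP.dn G (Q i) Y else 0)) * Y.card| ≤ ε / 2 * n := by
    calc _ ≤ ∑ Y ∈ P.parts.filter (fun Y => ¬ gd Y), 4 * n / M := by
          refine sum_le_sum fun Y hY => ?_
          have h : ¬ gd Y := (mem_filter.1 hY).2
          simp only [if_neg h]
          refine (pk_triv G u Y).trans ?_
          have h2 := (pk_size P hPe hM0 hMn Y (mem_filter.1 hY).1).2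
          rw [← hM] at h2
          calc 2 * (Y.card : ℝ) ≤ 2 * (2 * n / M) := by linarith
            _ = 4 * n / M := by ring
      _ = (P.parts.filter (fun Y => ¬ gd Y)).card * (4 * n / M) := by
          rw [sum_const, nsmul_eq_mul]
      _ ≤ s * (t * M + 1) * (4 * n / M) := mul_le_mul_of_nonneg_right hbadc (by positivity)
      _ ≤ ε / 2 * n := by
          have h1 : (s : ℝ) * (t * M + 1) * 4 ≤ ε / 2 * M := by
            have h3 : 8 * (s : ℝ) * t * M ≤ ε / 2 * M := mul_le_mul_of_nonneg_right ht4 hMp.le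
            have h4 : 8 * (s : ℝ) ≤ ε / 2 * M :=
              hl2.trans (mul_le_mul_of_nonneg_left hlM (by positivity))
            have h5 : (s : ℝ) * (t * M + 1) * 4 = (8 * (s : ℝ) * t * M + 8 * (s : ℝ)) / 2 := by
              ring
            rw [h5]
            linarith
          calc (s : ℝ) * (t * M + 1) * (4 * n / M) = ((s : ℝ) * (t * M + 1) * 4) * (n / M) := by
                ring
            _ ≤ (ε / 2 * M) * (n / M) := mul_le_mul_of_nonneg_right h1 (by positivity)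
            _ = ε / 2 * n := by
                field_simp
  calc _ ≤ ε / 2 * n + ε / 2 * n := add_le_add hgood hbad
    _ = ε * n := by ring

theorem pick (γ : ℝ) (hγ : 0 < γ) (hγ1 : γ ≤ 1 / 2) (s : ℕ) (ε : ℝ) (hε : 0 < ε) :
    ∃ δ : ℝ, 0 < δ ∧ ∃ n0 : ℕ, ∀ n ≥ n0, ∀ G : SimpleGraph (Fin n), Rect G γ δ →
      ∀ R : Finset (Fin n), (n : ℝ) / 4 ≤ R.card →
      ∃ u : Fin s → Fin n, (∀ i, u i ∈ R) ∧ (∀ i j, i ≠ j → G.Adj (u i) (u j)) ∧
        Typ G (1 - γ) ε u := by
  classical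
  obtain ⟨t, ht, ht1, h1, h2, h3, h4⟩ := pk_t s (γ ^ (s ^ 2) / 8 ^ s / 2) ε (by positivity) hε
  obtain ⟨l, hl⟩ := exists_nat_ge (64 * ((s : ℝ) + 1) + 16 * s / ε)
  have hl1 : 64 * ((s : ℝ) + 1) ≤ l := by
    have : 0 ≤ 16 * (s : ℝ) / ε := by positivity
    linarith
  have hl2 : 8 * (s : ℝ) ≤ ε / 2 * l := by
    have h5 : 16 * (s : ℝ) / ε ≤ l := by
      have : 0 ≤ 64 * ((s : ℝ) + 1) := by positivity
      linarith
    rw [div_le_iff₀ hε] at h5
    linarith
  have ht2 : (0 : ℝ) < t ^ 2 := by positivity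
  have htt : t ^ 2 ≤ t := by nlinarith
  set N := SzemerediRegularity.bound (t ^ 2) l with hN
  have hNp : (0 : ℝ) < N := by exact_mod_cast SzemerediRegularity.bound_pos _ _
  refine ⟨1 / (2 * N), by positivity, max l N, ?_⟩
  intro n hn G hG R hR
  obtain ⟨P, hPe, hPl, hPN, hPu⟩ := szemeredi_regularity G ht2 (l := l)
    (by rw [Fintype.card_fin]; exact (le_max_left _ _).trans hn)
  have hMn : P.parts.card ≤ n := hPN.trans ((le_max_right _ _).trans hn)
  refine pk_core G γ ε t _ hγ hγ1 hε ht l ?_ h2 h3 h4 hl1 hl2 hG P hPe hPl hMn hPu ?_ R hR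
  · exact (mul_le_mul_of_nonneg_left htt (by positivity)).trans h1
  · have hlp : (0 : ℝ) < l := lt_of_lt_of_le (by positivity) hl1
    have hM : (0 : ℝ) < P.parts.card := lt_of_lt_of_le hlp (by exact_mod_cast hPl)
    have hMN : (P.parts.card : ℝ) ≤ N := by exact_mod_cast hPN
    rw [one_div, inv_mul_eq_div]
    gcongr

end GCQ
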