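import Mathlib

/-!
# GCQ-Rank: the number of linear relations with given support (Mathlib only)

PLAN. The functions `Z : Fin n → F` with `Z v = 0` for `v ∉ Q` correspond to the functions `Q → F`; the linear map `L : (Q → F) → (Fin s → F)`, `Z ↦ ∑ v : Q, Z v • N v` has range `span (N '' Q)`. Rank-nullity:
`finrank (ker L) + finrank (range L) = Q.card`, and the cardinality of a finite vector space is `card F ^ finrank` (`Module.card_eq_pow_finrank` / `card_eq_pow_finrank`).
-/

set_option autoImplicit false

open Finset Module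

namespace GCQ

theorem rank {F : Type} [Field F] [Fintype F] {n s : ℕ} (Q : Finset (Fin n)) (N : Fin n → Fin s → F) :
    Nat.card {Z : Fin n → F // (∀ v, v ∉ Q → Z v = 0) ∧ ∑ v, Z v • N v = 0} *
      Fintype.card F ^ finrank F (Submodule.span F (N '' (Q : Set (Fin n)))) =
      Fintype.card F ^ Q.card := by
  classical
  set L : (Q → F) →ₗ[F] (Fin s → F) := Fintype.linearCombination F (fun v : Q => N v) with hL
  have hLapp : ∀ Z : Q → F, L Z = ∑ v : Q, Z v • N v := by
    intro Z
    rw [hL, Fintype.linearCombination_apply]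
  have hran : LinearMap.range L = Submodule.span F (N '' (Q : Set (Fin n))) := by
    rw [hL, Fintype.range_linearCombination]
    congr 1
    ext x
    constructor
    · rintro ⟨v, rfl⟩
      exact ⟨v, v.2, rfl⟩
    · rintro ⟨v, hv, rfl⟩
      exact ⟨⟨v, hv⟩, rfl⟩
  have hsum : ∀ Z : Fin n → F, (∀ v, v ∉ Q → Z v = 0) →
      ∑ v, Z v • N v = ∑ v : Q, Z v • N v := by
    intro Z hZ
    rw [Finset.sum_coe_sort Q (fun v => Z v • N v)]
    symm
    apply Finset.sum_subset (Finset.subset_univ Q)
    intro v _ hv
    rw [hZ v hv, zero_smul]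
  let e : {Z : Fin n → F // (∀ v, v ∉ Q → Z v = 0) ∧ ∑ v, Z v • N v = 0} ≃ LinearMap.ker L :=
    { toFun := fun Z => ⟨fun v => Z.1 v, by
        rw [LinearMap.mem_ker, hLapp, ← hsum Z.1 Z.2.1]
        exact Z.2.2⟩
      invFun := fun Y => ⟨fun v => if h : v ∈ Q then Y.1 ⟨v, h⟩ else 0, by
        have h0 : ∀ v, v ∉ Q → (fun v => if h : v ∈ Q then Y.1 ⟨v, h⟩ else 0) v = 0 := by
          intro v hv
          exact dif_neg hv
        refine ⟨h0, ?_⟩
        rw [hsum _ h0]
        have h1 := Y.2
        rw [LinearMap.mem_ker, hLapp] at h1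
        rw [← h1]
        apply Finset.sum_congr rfl
        intro v _
        congr 1
        exact dif_pos v.2⟩
      left_inv := by
        intro Z
        apply Subtype.ext
        funext v
        by_cases h : v ∈ Q
        · exact dif_pos h
        · exact (dif_neg h).trans (Z.2.1 v h).symm
      right_inv := by
        intro Y
        apply Subtype.ext
        funext v
        exact dif_pos v.2 }
  have hker : Nat.card {Z : Fin n → F // (∀ v, v ∉ Q → Z v = 0) ∧ ∑ v, Z v • N v = 0} =
      Fintype.card F ^ finrank F (LinearMap.ker L) := by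
    rw [Nat.card_congr e, Module.natCard_eq_pow_finrank (K := F), Nat.card_eq_fintype_card]
  rw [hker, ← hran, ← pow_add, add_comm, LinearMap.finrank_range_add_finrank_ker,
    Module.finrank_fintype_fun_eq_card, Fintype.card_coe]

end GCQ
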