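import Pool.Agent.GCQ.CountR

/-!
# GCQ-SM: second moment: most transversal cliques have the expected traces

For a fixed set `S` let `m u` be the number of the `v ∈ Y` with `tr G u v = S` and `q` the product of the densities. The sums
over the transversal cliques `u` of `m u ^ 2`, `m u * |Y|` and `|Y| ^ 2` are numbers of functions `Fin (s + 2) → Fin n`, which
`countR` gives up to an error `(s + 2)^2 ε Π |Y|^2`; the main terms cancel in `∑ (m u - q |Y|)^2`. Cauchy-Schwarz.
-/

set_option autoImplicit false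

open Finset

namespace GCQ

open Classical in
private noncomputable def good {n m : ℕ} (ρ : Fin m → Fin m → Fin n → Fin n → Prop)
    (A : Fin m → Finset (Fin n)) : Finset (Fin m → Fin n) :=
  (Fintype.piFinset A).filter (fun v => ∀ i j, i < j → ρ i j (v i) (v j))

private theorem mem_good {n m : ℕ} {ρ : Fin m → Fin m → Fin n → Fin n → Prop}
    {A : Fin m → Finset (Fin n)} {v : Fin m → Fin n} :
    v ∈ good ρ A ↔ (∀ i, v i ∈ A i) ∧ ∀ i j, i < j → ρ i j (v i) (v j) := by
  classical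
  unfold good
  simp only [mem_filter, Fintype.mem_piFinset]

open Classical in
private theorem good_ext {n m : ℕ} (ρ : Fin (m + 1) → Fin (m + 1) → Fin n → Fin n → Prop)
    (A : Fin (m + 1) → Finset (Fin n)) (F : (Fin (m + 1) → Fin n) → ℝ) :
    ∑ w ∈ good ρ A, F w =
      ∑ u ∈ good (fun i j => ρ i.castSucc j.castSucc) (fun i => A i.castSucc),
        ∑ v ∈ (A (Fin.last m)).filter (fun v => ∀ i : Fin m, ρ i.castSucc (Fin.last m) (u i) v),
          F (Fin.snoc u v) := by
  rw [Finset.sum_sigma']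
  refine Finset.sum_nbij' (fun w => ⟨fun i => w i.castSucc, w (Fin.last m)⟩)
    (fun p => Fin.snoc p.1 p.2) ?_ ?_ ?_ ?_ ?_
  · intro w hw
    rw [mem_good] at hw
    rw [mem_sigma, mem_good, mem_filter]
    exact ⟨⟨fun i => hw.1 _, fun i j hij => hw.2 _ _ (Fin.castSucc_lt_castSucc_iff.2 hij)⟩,
      hw.1 _, fun i => hw.2 _ _ (Fin.castSucc_lt_last i)⟩
  · rintro ⟨u, v⟩ hp
    rw [mem_sigma, mem_good, mem_filter] at hp
    obtain ⟨⟨h1, h2⟩, h3, h4⟩ := hp
    rw [mem_good]
    refine ⟨fun i => ?_, fun i j hij => ?_⟩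
    · refine Fin.lastCases ?_ (fun i => ?_) i
      · simp only [Fin.snoc_last]
        exact h3
      · simp only [Fin.snoc_castSucc]
        exact h1 i
    · revert hij
      refine Fin.lastCases ?_ (fun j => ?_) j
      · refine Fin.lastCases ?_ (fun i => ?_) i
        · intro hij
          exact absurd hij (lt_irrefl _)
        · intro _
          simp only [Fin.snoc_last, Fin.snoc_castSucc]
          exact h4 i
      · refine Fin.lastCases ?_ (fun i => ?_) i
        · intro hij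
          exact absurd hij (not_lt.2 (Fin.le_last _))
        · intro hij
          simp only [Fin.snoc_castSucc]
          exact h2 i j (Fin.castSucc_lt_castSucc_iff.1 hij)
  · intro w _
    exact Fin.snoc_init_self w
  · rintro ⟨u, v⟩ _
    simp only [Fin.snoc_last, Fin.snoc_castSucc]
  · intro w _
    congr 1
    exact (Fin.snoc_init_self w).symm

private theorem prs_prod {m : ℕ} (d : Fin (m + 1) → Fin (m + 1) → ℝ) :
    ∏ p ∈ GCP.prs (m + 1), d p.1 p.2 =
      (∏ p ∈ GCP.prs m, d p.1.castSucc p.2.castSucc) * ∏ i : Fin m, d i.castSucc (Fin.last m) := by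
  unfold GCP.prs
  rw [prod_filter, prod_filter, Fintype.prod_prod_type, Fintype.prod_prod_type,
    Fin.prod_univ_castSucc]
  have h1 : ∏ y : Fin (m + 1), (if Fin.last m < y then d (Fin.last m) y else 1) = 1 := by
    refine prod_eq_one fun y _ => ?_
    rw [if_neg (not_lt.2 (Fin.le_last y))]
  rw [h1, mul_one, ← prod_mul_distrib]
  refine prod_congr rfl fun i _ => ?_
  rw [Fin.prod_univ_castSucc, if_pos (Fin.castSucc_lt_last i)]
  congr 1

private theorem edgR_adj {n : ℕ} (G : SimpleGraph (Fin n)) (X Y : Finset (Fin n)) :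
    edgR (fun x v => G.Adj x v) X Y = GCP.edg G X Y := by
  unfold edgR GCP.edg
  rfl

private theorem edgR_congr {n : ℕ} {ρ ρ' : Fin n → Fin n → Prop} (h : ∀ x v, ρ x v ↔ ρ' x v)
    (X Y : Finset (Fin n)) : edgR ρ X Y = edgR ρ' X Y := by
  have h1 : ρ = ρ' := by
    funext x v
    exact propext (h x v)
  rw [h1]

private theorem cutR_true {n : ℕ} {ρ : Fin n → Fin n → Prop} (h : ∀ x v, ρ x v)
    (P P' : Finset (Fin n)) {ε : ℝ} (hε : 0 ≤ ε) : CutR ρ P P' ε 1 := by
  classical
  intro X _ Y _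
  have h1 : edgR ρ X Y = X.card * Y.card := by
    unfold edgR
    rw [← card_product]
    congr 1
    rw [filter_true_of_mem]
    intro p _
    exact h _ _
  rw [h1, Nat.cast_mul, one_mul, sub_self, abs_zero]
  positivity

private theorem cutR_adj {n : ℕ} {G : SimpleGraph (Fin n)} {P P' : Finset (Fin n)} {ε d : ℝ}
    (hc : GCP.Cut G P P' ε d) {ρ : Fin n → Fin n → Prop} (h : ∀ x v, ρ x v ↔ G.Adj x v) :
    CutR ρ P P' ε d := by
  intro X hX Y hY
  rw [edgR_congr h, edgR_adj]
  exact hc X hX Y hY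

private theorem cutR_not {n : ℕ} {G : SimpleGraph (Fin n)} {P P' : Finset (Fin n)} {ε d : ℝ}
    (hc : GCP.Cut G P P' ε d) {ρ : Fin n → Fin n → Prop} (h : ∀ x v, ρ x v ↔ ¬ G.Adj x v) :
    CutR ρ P P' ε (1 - d) := by
  classical
  intro X hX Y hY
  have h1 : edgR ρ X Y + GCP.edg G X Y = X.card * Y.card := by
    rw [edgR_congr h, ← edgR_adj, ← card_product]
    unfold edgR
    rw [card_filter, card_filter, ← sum_add_distrib, card_eq_sum_ones]
    refine sum_congr rfl fun p _ => ?_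
    by_cases h' : G.Adj p.1 p.2
    · simp [h']
    · simp [h']
  have h2 : (edgR ρ X Y : ℝ) = X.card * Y.card - GCP.edg G X Y := by
    rw [eq_sub_iff_add_eq]
    exact_mod_cast h1
  have h3 := hc X hX Y hY
  rw [h2]
  have e : (X.card : ℝ) * Y.card - (GCP.edg G X Y : ℝ) - (1 - d) * (X.card * Y.card) =
      -((GCP.edg G X Y : ℝ) - d * (X.card * Y.card)) := by ring
  rw [e, abs_neg]
  exact h3

/-- the relations for the count -/
private def rho {n s : ℕ} (G : SimpleGraph (Fin n)) (S : Finset (Fin s)) (b1 b2 : Bool)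
    (i j : Fin (s + 1 + 1)) (x v : Fin n) : Prop :=
  (i.val < s → j.val < s → G.Adj x v) ∧
    (∀ h : i.val < s, j.val = s → b1 = true → (G.Adj x v ↔ (⟨i.val, h⟩ : Fin s) ∈ S)) ∧
    (∀ h : i.val < s, j.val = s + 1 → b2 = true → (G.Adj x v ↔ (⟨i.val, h⟩ : Fin s) ∈ S))

private noncomputable def dd {s : ℕ} (S : Finset (Fin s)) (b1 b2 : Bool)
    (D : Fin s → Fin s → ℝ) (y : Fin s → ℝ) (i j : Fin (s + 1 + 1)) : ℝ :=
  if h : i.val < s ∧ j.val < s then D ⟨i.val, h.1⟩ ⟨j.val, h.2⟩
  else if h : i.val < s then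
    (if (if j.val = s then b1 else b2) = true then
      (if (⟨i.val, h⟩ : Fin s) ∈ S then y ⟨i.val, h⟩ else 1 - y ⟨i.val, h⟩) else 1)
  else 1

private def AA {n s : ℕ} (A : Fin s → Finset (Fin n)) (Y : Finset (Fin n))
    (i : Fin (s + 1 + 1)) : Finset (Fin n) :=
  if h : i.val < s then A ⟨i.val, h⟩ else Y

private noncomputable def MM {n s : ℕ} (G : SimpleGraph (Fin n)) (S : Finset (Fin s))
    (Y : Finset (Fin n)) (b : Bool) (u : Fin s → Fin n) : ℝ :=
  (((Y.filter (fun v => b = true → tr G u v = S)).card : ℕ) : ℝ)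

private theorem tr_eq {n s : ℕ} (G : SimpleGraph (Fin n)) (S : Finset (Fin s))
    (u : Fin s → Fin n) (v : Fin n) : tr G u v = S ↔ ∀ i, (G.Adj (u i) v ↔ i ∈ S) := by
  unfold tr
  rw [Finset.ext_iff]
  simp only [mem_filter, mem_univ, true_and]

private theorem AA_lt {n s : ℕ} (A : Fin s → Finset (Fin n)) (Y : Finset (Fin n)) (i : Fin s) :
    AA A Y i.castSucc.castSucc = A i := by
  unfold AA
  rw [dif_pos (show (i.castSucc.castSucc).val < s from i.2)]
  rfl

private theorem AA_s {n s : ℕ} (A : Fin s → Finset (Fin n)) (Y : Finset (Fin n)) :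
    AA A Y (Fin.last s).castSucc = Y := by
  unfold AA
  rw [dif_neg (show ¬ ((Fin.last s).castSucc).val < s from lt_irrefl s)]

private theorem AA_s1 {n s : ℕ} (A : Fin s → Finset (Fin n)) (Y : Finset (Fin n)) :
    AA A Y (Fin.last (s + 1)) = Y := by
  unfold AA
  rw [dif_neg (show ¬ (Fin.last (s + 1)).val < s from by rw [Fin.val_last]; omega)]

private theorem AA_prod {n s : ℕ} (A : Fin s → Finset (Fin n)) (Y : Finset (Fin n)) :
    ∏ i, ((AA A Y i).card : ℝ) = (∏ i, ((A i).card : ℝ)) * (Y.card : ℝ) ^ 2 := by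
  rw [Fin.prod_univ_castSucc, Fin.prod_univ_castSucc, AA_s, AA_s1]
  simp only [AA_lt]
  ring

private theorem count_eq {n s : ℕ} (G : SimpleGraph (Fin n)) (A : Fin s → Finset (Fin n))
    (Y : Finset (Fin n)) (S : Finset (Fin s)) (b1 b2 : Bool) :
    ((good (rho G S b1 b2) (AA A Y)).card : ℝ) =
      ∑ u ∈ GCP.trans G A, MM G S Y b1 u * MM G S Y b2 u := by
  classical
  have h1 : ((good (rho G S b1 b2) (AA A Y)).card : ℝ) =
      ∑ w ∈ good (rho G S b1 b2) (AA A Y), (1 : ℝ) := by
    rw [sum_const, nsmul_eq_mul, mul_one]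
  have h2 : ∀ w : Fin (s + 1) → Fin n,
      ∑ v ∈ (AA A Y (Fin.last (s + 1))).filter (fun v => ∀ i : Fin (s + 1),
        rho G S b1 b2 i.castSucc (Fin.last (s + 1)) (w i) v), (1 : ℝ) =
        MM G S Y b2 (fun i => w i.castSucc) := by
    intro w
    rw [sum_const, nsmul_eq_mul, mul_one, AA_s1]
    unfold MM
    congr 2
    ext v
    rw [mem_filter, mem_filter]
    refine and_congr_right fun _ => ?_
    constructor
    · intro h hb
      rw [tr_eq]
      intro i
      exact (h i.castSucc).2.2 i.2 rfl hb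
    · intro h i
      refine ⟨fun _ h' => ?_, fun _ h' => ?_, fun hi _ hb => ?_⟩
      · rw [Fin.val_last] at h'
        omega
      · rw [Fin.val_last] at h'
        omega
      · exact (tr_eq _ _ _ _).1 (h hb) ⟨i.val, hi⟩
  have h3 : ∀ u : Fin s → Fin n,
      ((AA A Y (Fin.last s).castSucc).filter (fun v => ∀ i : Fin s,
        rho G S b1 b2 i.castSucc.castSucc (Fin.last s).castSucc (u i) v)) =
        Y.filter (fun v => b1 = true → tr G u v = S) := by
    intro u
    rw [AA_s]
    ext v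
    rw [mem_filter, mem_filter]
    refine and_congr_right fun _ => ?_
    constructor
    · intro h hb
      rw [tr_eq]
      intro i
      exact (h i).2.1 i.2 rfl hb
    · intro h i
      refine ⟨fun _ h' => ?_, fun hi _ hb => ?_, fun _ h' => ?_⟩
      · exact absurd h' (lt_irrefl s)
      · exact (tr_eq _ _ _ _).1 (h hb) i
      · have h'' : s = s + 1 := h'
        omega
  have h4 : good (fun i j : Fin s => rho G S b1 b2 i.castSucc.castSucc j.castSucc.castSucc)
      (fun i => AA A Y i.castSucc.castSucc) = GCP.trans G A := by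
    ext u
    rw [mem_good]
    unfold GCP.trans
    rw [mem_filter, Fintype.mem_piFinset]
    simp only [AA_lt]
    refine and_congr_right fun _ => ?_
    constructor
    · intro h i j hij
      exact (h i j hij).1 i.2 j.2
    · intro h i j hij
      refine ⟨fun _ _ => h i j hij, fun _ h' => ?_, fun _ h' => ?_⟩
      · have h'' : j.val = s := h'
        have := j.2
        omega
      · have h'' : j.val = s + 1 := h'
        have := j.2
        omega
  rw [h1, good_ext]
  simp only [h2]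
  rw [good_ext]
  rw [h4]
  refine sum_congr rfl fun u _ => ?_
  rw [h3]
  simp only [Fin.snoc_castSucc]
  rw [sum_const, nsmul_eq_mul]
  rfl

private theorem dd_prod {s : ℕ} (S : Finset (Fin s)) (b1 b2 : Bool)
    (D : Fin s → Fin s → ℝ) (y : Fin s → ℝ) :
    ∏ p ∈ GCP.prs (s + 1 + 1), dd S b1 b2 D y p.1 p.2 = (∏ p ∈ GCP.prs s, D p.1 p.2) *
      (∏ i, if b1 = true then (if i ∈ S then y i else 1 - y i) else 1) *
      (∏ i, if b2 = true then (if i ∈ S then y i else 1 - y i) else 1) := by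
  rw [prs_prod, prs_prod (fun i j : Fin (s + 1) => dd S b1 b2 D y i.castSucc j.castSucc),
    Fin.prod_univ_castSucc]
  have e1 : ∀ i j : Fin s, dd S b1 b2 D y i.castSucc.castSucc j.castSucc.castSucc = D i j := by
    intro i j
    unfold dd
    rw [dif_pos (show (i.castSucc.castSucc).val < s ∧ (j.castSucc.castSucc).val < s from
      ⟨i.2, j.2⟩)]
    rfl
  have e2 : ∀ i : Fin s, dd S b1 b2 D y i.castSucc.castSucc (Fin.last s).castSucc =
      if b1 = true then (if i ∈ S then y i else 1 - y i) else 1 := by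
    intro i
    unfold dd
    rw [dif_neg (show ¬ ((i.castSucc.castSucc).val < s ∧ ((Fin.last s).castSucc).val < s) from
      fun h => lt_irrefl s h.2), dif_pos (show (i.castSucc.castSucc).val < s from i.2),
      if_pos (show ((Fin.last s).castSucc).val = s from rfl)]
    rfl
  have e3 : ∀ i : Fin s, dd S b1 b2 D y i.castSucc.castSucc (Fin.last (s + 1)) =
      if b2 = true then (if i ∈ S then y i else 1 - y i) else 1 := by
    intro i
    have h1 : (Fin.last (s + 1)).val = s + 1 := rfl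
    unfold dd
    rw [dif_neg (show ¬ ((i.castSucc.castSucc).val < s ∧ (Fin.last (s + 1)).val < s) from
      fun h => by have := h.2; omega), dif_pos (show (i.castSucc.castSucc).val < s from i.2),
      if_neg (show ¬ (Fin.last (s + 1)).val = s from by omega)]
    rfl
  have e4 : dd S b1 b2 D y (Fin.last s).castSucc (Fin.last (s + 1)) = 1 := by
    unfold dd
    rw [dif_neg (show ¬ (((Fin.last s).castSucc).val < s ∧ (Fin.last (s + 1)).val < s) from
      fun h => lt_irrefl s h.1), dif_neg (show ¬ ((Fin.last s).castSucc).val < s from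
      lt_irrefl s)]
  rw [e4, mul_one]
  simp only [e1, e2, e3]

private theorem key {n s : ℕ} (G : SimpleGraph (Fin n)) (P A : Fin s → Finset (Fin n))
    (Y : Finset (Fin n)) (hA : ∀ i, A i ⊆ P i) (ε : ℝ) (hε : 0 ≤ ε) (D : Fin s → Fin s → ℝ)
    (y : Fin s → ℝ) (hD : ∀ i j, i < j → 0 ≤ D i j ∧ D i j ≤ 1) (hy : ∀ i, 0 ≤ y i ∧ y i ≤ 1)
    (hcut : ∀ i j, i < j → GCP.Cut G (P i) (P j) ε (D i j))
    (hcutY : ∀ i, GCP.Cut G (P i) Y ε (y i)) (S : Finset (Fin s)) (b1 b2 : Bool) :
    |∑ u ∈ GCP.trans G A, MM G S Y b1 u * MM G S Y b2 u - (∏ p ∈ GCP.prs s, D p.1 p.2) *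
      (∏ i, if b1 = true then (if i ∈ S then y i else 1 - y i) else 1) *
      (∏ i, if b2 = true then (if i ∈ S then y i else 1 - y i) else 1) *
      ((∏ i, ((A i).card : ℝ)) * (Y.card : ℝ) ^ 2)| ≤
      ((s : ℝ) + 2) ^ 2 * ε * ((∏ i, ((P i).card : ℝ)) * (Y.card : ℝ) ^ 2) := by
  have hcY : ∀ (i : Fin s) (b : Bool) (ρ : Fin n → Fin n → Prop),
      (∀ x v, ρ x v ↔ (b = true → (G.Adj x v ↔ i ∈ S))) →
      CutR ρ (P i) Y ε (if b = true then (if i ∈ S then y i else 1 - y i) else 1) := by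
    intro i b ρ hρ
    cases b with
    | false =>
      rw [if_neg (by decide)]
      exact cutR_true (fun x v => (hρ x v).2 (fun h => absurd h (by decide))) _ _ hε
    | true =>
      rw [if_pos rfl]
      by_cases hi : i ∈ S
      · rw [if_pos hi]
        refine cutR_adj (hcutY i) fun x v => ?_
        rw [hρ]
        exact ⟨fun h => (h rfl).2 hi, fun h _ => ⟨fun _ => hi, fun _ => h⟩⟩
      · rw [if_neg hi]
        refine cutR_not (hcutY i) fun x v => ?_
        rw [hρ]
        exact ⟨fun h h' => hi ((h rfl).1 h'), fun h _ => ⟨fun h' => absurd h' h,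
          fun h' => absurd h' hi⟩⟩
  have hq : ∀ (i : Fin s) (b : Bool),
      0 ≤ (if b = true then (if i ∈ S then y i else 1 - y i) else 1) ∧
      (if b = true then (if i ∈ S then y i else 1 - y i) else 1) ≤ 1 := by
    intro i b
    have h1 := hy i
    split_ifs
    · exact h1
    · exact ⟨by linarith [h1.2], by linarith [h1.1]⟩
    · exact ⟨zero_le_one, le_rfl⟩
  have hdd : ∀ i j : Fin (s + 1 + 1), i < j → 0 ≤ dd S b1 b2 D y i j ∧ dd S b1 b2 D y i j ≤ 1 := by
    intro i j hij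
    unfold dd
    by_cases h : i.val < s ∧ j.val < s
    · rw [dif_pos h]
      exact hD _ _ hij
    · rw [dif_neg h]
      by_cases h' : i.val < s
      · rw [dif_pos h']
        exact hq _ _
      · rw [dif_neg h']
        exact ⟨zero_le_one, le_rfl⟩
  have hAA : ∀ i, AA A Y i ⊆ AA P Y i := by
    intro i
    unfold AA
    by_cases h : i.val < s
    · rw [dif_pos h, dif_pos h]
      exact hA _
    · rw [dif_neg h, dif_neg h]
  have hcc : ∀ i j : Fin (s + 1 + 1), i < j →
      CutR (rho G S b1 b2 i j) (AA P Y i) (AA P Y j) ε (dd S b1 b2 D y i j) := by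
    intro i j hij
    have hij' : i.val < j.val := hij
    by_cases h : i.val < s
    · by_cases h' : j.val < s
      · have e1 : dd S b1 b2 D y i j = D ⟨i.val, h⟩ ⟨j.val, h'⟩ := by
          unfold dd
          rw [dif_pos ⟨h, h'⟩]
        have e2 : AA P Y i = P ⟨i.val, h⟩ := by
          unfold AA
          rw [dif_pos h]
        have e3 : AA P Y j = P ⟨j.val, h'⟩ := by
          unfold AA
          rw [dif_pos h']
        rw [e1, e2, e3]
        refine cutR_adj (hcut _ _ hij) fun x v => ?_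
        unfold rho
        exact ⟨fun h1 => h1.1 h h', fun h1 => ⟨fun _ _ => h1, fun _ h2 => by omega,
          fun _ h2 => by omega⟩⟩
      · have e1 : dd S b1 b2 D y i j = if (if j.val = s then b1 else b2) = true then
            (if (⟨i.val, h⟩ : Fin s) ∈ S then y ⟨i.val, h⟩ else 1 - y ⟨i.val, h⟩) else 1 := by
          unfold dd
          rw [dif_neg (fun h1 => h' h1.2), dif_pos h]
        have e2 : AA P Y i = P ⟨i.val, h⟩ := by
          unfold AA
          rw [dif_pos h]
        have e3 : AA P Y j = Y := by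
          unfold AA
          rw [dif_neg h']
        rw [e1, e2, e3]
        refine hcY _ _ _ fun x v => ?_
        unfold rho
        by_cases hj : j.val = s
        · rw [if_pos hj]
          exact ⟨fun h1 => h1.2.1 h hj, fun h1 => ⟨fun _ h2 => absurd h2 h', fun _ _ => h1,
            fun _ h2 => by omega⟩⟩
        · rw [if_neg hj]
          have hj2 : j.val = s + 1 := by
            have := j.2
            omega
          exact ⟨fun h1 => h1.2.2 h hj2, fun h1 => ⟨fun _ h2 => absurd h2 h',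
            fun _ h2 => absurd h2 hj, fun _ _ => h1⟩⟩
    · have e1 : dd S b1 b2 D y i j = 1 := by
        unfold dd
        rw [dif_neg (fun h1 => h h1.1), dif_neg h]
      rw [e1]
      refine cutR_true (fun x v => ?_) _ _ hε
      unfold rho
      exact ⟨fun h1 => absurd h1 h, fun h1 => absurd h1 h, fun h1 => absurd h1 h⟩
  have h1 := countR (rho G S b1 b2) (AA P Y) (AA A Y) hAA ε hε (dd S b1 b2 D y)
    (fun i j hij => (hdd i j hij).1) (fun i j hij => (hdd i j hij).2) hcc
  have h2 := count_eq G A Y S b1 b2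
  unfold good at h2
  rw [h2, dd_prod, AA_prod, AA_prod] at h1
  refine h1.trans (le_of_eq ?_)
  push_cast
  ring

private theorem alg {N2 N1 N0 g q Z E : ℝ} (hq0 : 0 ≤ q) (hq1 : q ≤ 1) (hE0 : 0 ≤ E)
    (kTT : |N2 - g * q * q * Z| ≤ E) (kTF : |N1 - g * q * Z| ≤ E) (kFF : |N0 - g * Z| ≤ E) :
    N2 - 2 * q * N1 + q ^ 2 * N0 ≤ 4 * E := by
  have a1 := (abs_le.1 kTT).2
  have a2 := (abs_le.1 kTF).1
  have a3 := (abs_le.1 kFF).2
  have b2 : 2 * q * (g * q * Z - E) ≤ 2 * q * N1 :=
    mul_le_mul_of_nonneg_left (by linarith) (by positivity)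
  have b3 : q ^ 2 * N0 ≤ q ^ 2 * (g * Z + E) :=
    mul_le_mul_of_nonneg_left (by linarith) (by positivity)
  have c1 : q * E ≤ E := mul_le_of_le_one_left hE0 hq1
  have c2 : q ^ 2 * E ≤ E := mul_le_of_le_one_left hE0 (pow_le_one₀ hq0 hq1)
  nlinarith [a1, b2, b3, c1, c2]

private theorem one_S {n s : ℕ} (G : SimpleGraph (Fin n)) (P A : Fin s → Finset (Fin n))
    (Y : Finset (Fin n)) (hA : ∀ i, A i ⊆ P i) (ε : ℝ) (hε : 0 ≤ ε) (D : Fin s → Fin s → ℝ)
    (y : Fin s → ℝ) (hD : ∀ i j, i < j → 0 ≤ D i j ∧ D i j ≤ 1) (hy : ∀ i, 0 ≤ y i ∧ y i ≤ 1)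
    (hcut : ∀ i j, i < j → GCP.Cut G (P i) (P j) ε (D i j))
    (hcutY : ∀ i, GCP.Cut G (P i) Y ε (y i)) (S : Finset (Fin s)) :
    ∑ u ∈ GCP.trans G A, |(((Y.filter (fun v => tr G u v = S)).card : ℕ) : ℝ) -
        (∏ i, if i ∈ S then y i else 1 - y i) * Y.card| ≤
      (2 * (s + 2) * √ε) * (∏ i, ((P i).card : ℝ)) * Y.card := by
  classical
  set q : ℝ := ∏ i, if i ∈ S then y i else 1 - y i with hq
  set Q : ℝ := ∏ i, ((P i).card : ℝ) with hQ
  set g : ℝ := ∏ p ∈ GCP.prs s, D p.1 p.2 with hg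
  set R : ℝ := ∏ i, ((A i).card : ℝ) with hR
  have hQ0 : 0 ≤ Q := prod_nonneg fun i _ => Nat.cast_nonneg _
  have hq0 : 0 ≤ q := by
    refine prod_nonneg fun i _ => ?_
    have h1 := hy i
    split_ifs
    · exact h1.1
    · linarith [h1.2]
  have hq1 : q ≤ 1 := by
    refine prod_le_one (fun i _ => ?_) (fun i _ => ?_)
    · have h1 := hy i
      split_ifs
      · exact h1.1
      · linarith [h1.2]
    · have h1 := hy i
      split_ifs
      · exact h1.2
      · linarith [h1.1]
  have mT : ∀ u, MM G S Y true u = (((Y.filter (fun v => tr G u v = S)).card : ℕ) : ℝ) := by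
    intro u
    unfold MM
    congr 2
    ext v
    rw [mem_filter, mem_filter]
    exact and_congr_right fun _ => ⟨fun h => h rfl, fun h _ => h⟩
  have mF : ∀ u : Fin s → Fin n, MM G S Y false u = (Y.card : ℝ) := by
    intro u
    unfold MM
    congr 2
    rw [filter_true_of_mem]
    intro v _ h
    exact absurd h (by decide)
  have kTT := key G P A Y hA ε hε D y hD hy hcut hcutY S true true
  have kTF := key G P A Y hA ε hε D y hD hy hcut hcutY S true false
  have kFF := key G P A Y hA ε hε D y hD hy hcut hcutY S false false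
  have eT : (∏ i : Fin s, if true = true then (if i ∈ S then y i else 1 - y i) else 1) = q :=
    prod_congr rfl fun i _ => if_pos rfl
  have eF : (∏ i : Fin s, if false = true then (if i ∈ S then y i else 1 - y i) else 1) = 1 :=
    prod_eq_one fun i _ => if_neg (by decide)
  rw [eT] at kTT kTF
  rw [eF] at kTF kFF
  set N2 : ℝ := ∑ u ∈ GCP.trans G A, (((Y.filter (fun v => tr G u v = S)).card : ℕ) : ℝ) *
    (((Y.filter (fun v => tr G u v = S)).card : ℕ) : ℝ) with hN2
  set N1 : ℝ := ∑ u ∈ GCP.trans G A, (((Y.filter (fun v => tr G u v = S)).card : ℕ) : ℝ) *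
    (Y.card : ℝ) with hN1
  set N0 : ℝ := ∑ u ∈ GCP.trans G A, (Y.card : ℝ) * (Y.card : ℝ) with hN0
  set E : ℝ := ((s : ℝ) + 2) ^ 2 * ε * (Q * (Y.card : ℝ) ^ 2) with hE
  have sTT : ∑ u ∈ GCP.trans G A, MM G S Y true u * MM G S Y true u = N2 :=
    sum_congr rfl fun u _ => by rw [mT]
  have sTF : ∑ u ∈ GCP.trans G A, MM G S Y true u * MM G S Y false u = N1 :=
    sum_congr rfl fun u _ => by rw [mT, mF]
  have sFF : ∑ u ∈ GCP.trans G A, MM G S Y false u * MM G S Y false u = N0 :=
    sum_congr rfl fun u _ => by rw [mF]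
  rw [sTT] at kTT
  rw [sTF, mul_one] at kTF
  rw [sFF, mul_one, mul_one] at kFF
  have hE0 : 0 ≤ E := mul_nonneg (mul_nonneg (sq_nonneg _) hε) (mul_nonneg hQ0 (sq_nonneg _))
  have hsq : ∑ u ∈ GCP.trans G A, ((((Y.filter (fun v => tr G u v = S)).card : ℕ) : ℝ) -
      q * Y.card) ^ 2 = N2 - 2 * q * N1 + q ^ 2 * N0 := by
    rw [hN2, hN1, hN0, mul_sum, mul_sum, ← sum_sub_distrib, ← sum_add_distrib]
    exact sum_congr rfl fun u _ => by ring
  have hle : ∑ u ∈ GCP.trans G A, ((((Y.filter (fun v => tr G u v = S)).card : ℕ) : ℝ) -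
      q * Y.card) ^ 2 ≤ 4 * E := by
    rw [hsq]
    exact alg hq0 hq1 hE0 kTT kTF kFF
  have hcard : ((GCP.trans G A).card : ℝ) ≤ Q := by
    have h1 : (GCP.trans G A).card ≤ (Fintype.piFinset A).card := by
      unfold GCP.trans
      exact card_filter_le _ _
    rw [Fintype.card_piFinset] at h1
    have h2 : ((GCP.trans G A).card : ℝ) ≤ R := by
      rw [hR]
      exact_mod_cast h1
    refine h2.trans (prod_le_prod (fun i _ => Nat.cast_nonneg _) fun i _ => ?_)
    exact_mod_cast card_le_card (hA i)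
  have hcs := sq_sum_le_card_mul_sum_sq (s := GCP.trans G A)
    (f := fun u => |(((Y.filter (fun v => tr G u v = S)).card : ℕ) : ℝ) - q * Y.card|)
  simp only [sq_abs] at hcs
  have hfin : (∑ u ∈ GCP.trans G A, |(((Y.filter (fun v => tr G u v = S)).card : ℕ) : ℝ) -
      q * Y.card|) ^ 2 ≤ ((2 * (s + 2) * √ε) * Q * Y.card) ^ 2 := by
    refine hcs.trans ?_
    have h1 : ((GCP.trans G A).card : ℝ) * ∑ u ∈ GCP.trans G A,
        ((((Y.filter (fun v => tr G u v = S)).card : ℕ) : ℝ) - q * Y.card) ^ 2 ≤ Q * (4 * E) :=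
      mul_le_mul hcard hle (sum_nonneg fun u _ => sq_nonneg _) hQ0
    refine h1.trans (le_of_eq ?_)
    have h2 : √ε ^ 2 = ε := Real.sq_sqrt hε
    have h3 : ((2 * ((s : ℝ) + 2) * √ε) * Q * Y.card) ^ 2 =
        4 * ((s : ℝ) + 2) ^ 2 * (√ε ^ 2) * Q ^ 2 * (Y.card : ℝ) ^ 2 := by ring
    rw [h3, h2, hE]
    ring
  have hn1 : 0 ≤ ∑ u ∈ GCP.trans G A, |(((Y.filter (fun v => tr G u v = S)).card : ℕ) : ℝ) -
      q * Y.card| := sum_nonneg fun u _ => abs_nonneg _
  have hs2 : (0 : ℝ) ≤ 2 * ((s : ℝ) + 2) := by positivity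
  have hn2 : 0 ≤ (2 * ((s : ℝ) + 2) * √ε) * Q * Y.card :=
    mul_nonneg (mul_nonneg (mul_nonneg hs2 (Real.sqrt_nonneg _)) hQ0) (Nat.cast_nonneg _)
  exact (pow_le_pow_iff_left₀ hn1 hn2 two_ne_zero).1 hfin

theorem sm {n s : ℕ} (G : SimpleGraph (Fin n)) (P A : Fin s → Finset (Fin n)) (Y : Finset (Fin n))
    (hA : ∀ i, A i ⊆ P i) (ε : ℝ) (hε : 0 ≤ ε) (D : Fin s → Fin s → ℝ) (y : Fin s → ℝ)
    (hD : ∀ i j, i < j → 0 ≤ D i j ∧ D i j ≤ 1) (hy : ∀ i, 0 ≤ y i ∧ y i ≤ 1)
    (hcut : ∀ i j, i < j → GCP.Cut G (P i) (P j) ε (D i j))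
    (hcutY : ∀ i, GCP.Cut G (P i) Y ε (y i)) :
    ∑ u ∈ GCP.trans G A, ∑ S : Finset (Fin s),
      |(((Y.filter (fun v => tr G u v = S)).card : ℕ) : ℝ) -
        (∏ i, if i ∈ S then y i else 1 - y i) * Y.card| ≤
      2 ^ s * (2 * (s + 2) * √ε) * (∏ i, ((P i).card : ℝ)) * Y.card := by
  rw [sum_comm]
  have h1 : ∀ S ∈ (univ : Finset (Finset (Fin s))), ∑ u ∈ GCP.trans G A,
      |(((Y.filter (fun v => tr G u v = S)).card : ℕ) : ℝ) -
        (∏ i, if i ∈ S then y i else 1 - y i) * Y.card| ≤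
      (2 * (s + 2) * √ε) * (∏ i, ((P i).card : ℝ)) * Y.card := fun S _ =>
    one_S G P A Y hA ε hε D y hD hy hcut hcutY S
  refine (sum_le_card_nsmul _ _ _ h1).trans (le_of_eq ?_)
  rw [nsmul_eq_mul, card_univ, Fintype.card_finset, Fintype.card_fin]
  push_cast
  ring

end GCQ
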