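import Pool.Agent.GCQ.Ex

/-!
# GCQ-Thin: the expected dimension of the vectors vanishing on a random set
-/

set_option autoImplicit false

open Finset Module

namespace GCQ

open Classical in
/-- drop of the dimension when the coordinate `i` is also required to vanish -/
private noncomputable def dr {K : Type} [Field K] {s : ℕ} (U : Submodule K (Fin s → K))
    (i : Fin s) (A : Finset (Fin s)) : ℝ := if ∃ z ∈ van U A, z i ≠ 0 then 1 else 0

private theorem mem_van {K : Type} [Field K] {s : ℕ} (U : Submodule K (Fin s → K))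
    (A : Finset (Fin s)) (z : Fin s → K) : z ∈ van U A ↔ z ∈ U ∧ ∀ i ∈ A, z i = 0 := Iff.rfl

private theorem van_anti {K : Type} [Field K] {s : ℕ} (U : Submodule K (Fin s → K))
    {A B : Finset (Fin s)} (h : A ⊆ B) : van U B ≤ van U A := by
  intro z hz
  rw [mem_van] at hz ⊢
  exact ⟨hz.1, fun i hi => hz.2 i (h hi)⟩

private theorem van_le {K : Type} [Field K] {s : ℕ} (U : Submodule K (Fin s → K))
    (A : Finset (Fin s)) : van U A ≤ U := by
  intro z hz
  exact ((mem_van U A z).1 hz).1

private theorem van_empty {K : Type} [Field K] {s : ℕ} (U : Submodule K (Fin s → K)) :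
    van U ∅ = U := by
  apply le_antisymm (van_le U ∅)
  intro z hz
  rw [mem_van]
  exact ⟨hz, fun i hi => absurd hi (Finset.notMem_empty i)⟩

private theorem dr_nonneg {K : Type} [Field K] {s : ℕ} (U : Submodule K (Fin s → K))
    (i : Fin s) (A : Finset (Fin s)) : 0 ≤ dr U i A := by
  rw [dr]
  split_ifs <;> norm_num

private theorem dr_le_one {K : Type} [Field K] {s : ℕ} (U : Submodule K (Fin s → K))
    (i : Fin s) (A : Finset (Fin s)) : dr U i A ≤ 1 := by
  rw [dr]
  split_ifs <;> norm_num

private theorem dr_anti {K : Type} [Field K] {s : ℕ} (U : Submodule K (Fin s → K))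
    (i : Fin s) {A B : Finset (Fin s)} (h : A ⊆ B) : dr U i B ≤ dr U i A := by
  by_cases hB : ∃ z ∈ van U B, z i ≠ 0
  · obtain ⟨z, hz, hzi⟩ := hB
    have hA : ∃ z ∈ van U A, z i ≠ 0 := ⟨z, van_anti U h hz, hzi⟩
    rw [dr, dr, if_pos hA]
    split_ifs <;> norm_num
  · have e : dr U i B = 0 := by rw [dr, if_neg hB]
    rw [e]
    exact dr_nonneg U i A

private theorem drop_eq {K : Type} [Field K] {s : ℕ} (U : Submodule K (Fin s → K))
    (i : Fin s) (A : Finset (Fin s)) :
    (finrank K (van U A) : ℝ) = finrank K (van U (insert i A)) + dr U i A := by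
  by_cases h : ∃ z ∈ van U A, z i ≠ 0
  · obtain ⟨z, hz, hzi⟩ := h
    let φ : van U A →ₗ[K] K := (LinearMap.proj i).comp (van U A).subtype
    have hφ : ∀ w : van U A, φ w = (w : Fin s → K) i := fun w => rfl
    have hsurj : Function.Surjective φ := by
      intro c
      refine ⟨(c / z i) • ⟨z, hz⟩, ?_⟩
      rw [hφ]
      show (c / z i) * z i = c
      exact div_mul_cancel₀ c hzi
    have h1 := φ.finrank_range_add_finrank_ker
    rw [LinearMap.range_eq_top.2 hsurj, finrank_top, finrank_self] at h1
    have h2 : (LinearMap.ker φ).map (van U A).subtype = van U (insert i A) := by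
      ext w
      rw [Submodule.mem_map, mem_van]
      constructor
      · rintro ⟨y, hy, rfl⟩
        have hy' : (y : Fin s → K) i = 0 := by
          rw [← hφ]
          exact LinearMap.mem_ker.1 hy
        have hyA := (mem_van U A y).1 y.2
        refine ⟨hyA.1, ?_⟩
        intro j hj
        rcases Finset.mem_insert.1 hj with rfl | hj
        · exact hy'
        · exact hyA.2 j hj
      · rintro ⟨hwU, hw⟩
        refine ⟨⟨w, (mem_van U A w).2 ⟨hwU, fun j hj => hw j (Finset.mem_insert_of_mem hj)⟩⟩, ?_, rfl⟩
        rw [LinearMap.mem_ker, hφ]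
        exact hw i (Finset.mem_insert_self i A)
    have h3 : finrank K (van U (insert i A)) = finrank K (LinearMap.ker φ) := by
      rw [← h2]
      exact Submodule.finrank_map_subtype_eq _ _
    have h4 : dr U i A = 1 := by rw [dr, if_pos ⟨z, hz, hzi⟩]
    rw [h3, h4, ← h1]
    push_cast
    ring
  · have h2 : van U (insert i A) = van U A := by
      apply le_antisymm (van_anti U (Finset.subset_insert i A))
      intro w hw
      rw [mem_van]
      have hw' := (mem_van U A w).1 hw
      refine ⟨hw'.1, ?_⟩
      intro j hj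
      rcases Finset.mem_insert.1 hj with rfl | hj
      · by_contra hne
        exact h ⟨w, hw, hne⟩
      · exact hw'.2 j hj
    rw [h2, dr, if_neg h, add_zero]

private theorem telescope {K : Type} [Field K] {s : ℕ} (U : Submodule K (Fin s → K))
    (S : Finset (Fin s)) :
    (finrank K U : ℝ) = finrank K (van U S) + ∑ i ∈ S, dr U i (S.filter (fun j => j < i)) := by
  induction S using Finset.induction_on_max with
  | empty => rw [van_empty, Finset.sum_empty, add_zero]
  | insert a S ha ih =>
    have haS : a ∉ S := fun h => lt_irrefl a (ha a h)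
    rw [Finset.sum_insert haS]
    have e1 : (insert a S).filter (fun j => j < a) = S := by
      rw [Finset.filter_insert, if_neg (lt_irrefl a)]
      apply Finset.filter_true_of_mem
      exact ha
    have e2 : ∀ i ∈ S, dr U i ((insert a S).filter (fun j => j < i)) =
        dr U i (S.filter (fun j => j < i)) := by
      intro i hi
      rw [Finset.filter_insert, if_neg (not_lt.2 (ha i hi).le)]
    rw [e1, Finset.sum_congr rfl e2, ih, drop_eq U a S]
    ring

private theorem ex_zero {s : ℕ} (x : Fin s → ℝ) : ex x (fun _ => 0) = 0 := by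
  simp [ex]

private theorem ex_van {K : Type} [Field K] {s : ℕ} (U : Submodule K (Fin s → K))
    (x : Fin s → ℝ) :
    ex x (fun S => (finrank K (van U S) : ℝ)) =
      finrank K U - ∑ i, x i * ex x (fun S => dr U i (S.filter (fun j => j < i))) := by
  have e1 : (fun S : Finset (Fin s) => (finrank K (van U S) : ℝ)) =
      fun S => (fun S : Finset (Fin s) => (finrank K U : ℝ) * (fun _ => (1 : ℝ)) S) S +
        (fun S : Finset (Fin s) => (-1 : ℝ) * (fun S => ∑ i ∈ (Finset.univ : Finset (Fin s)),
          (fun (i : Fin s) (S : Finset (Fin s)) =>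
            if i ∈ S then (fun T => dr U i T) (S.filter (fun j => j < i)) else 0) i S) S) S := by
    funext S
    have h1 := telescope U S
    have h2 : ∑ i ∈ (Finset.univ : Finset (Fin s)),
        (if i ∈ S then dr U i (S.filter (fun j => j < i)) else 0) =
        ∑ i ∈ S, dr U i (S.filter (fun j => j < i)) := by
      rw [← Finset.sum_filter]
      apply Finset.sum_congr _ (fun _ _ => rfl)
      ext i
      simp
    simp only
    rw [h2]
    linarith
  rw [e1, ex_add, ex_mul, ex_mul, ex_one, ex_sum]
  have e2 : ∀ i ∈ (Finset.univ : Finset (Fin s)),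
      ex x (fun S : Finset (Fin s) =>
        if i ∈ S then (fun T => dr U i T) (S.filter (fun j => j < i)) else 0) =
      x i * ex x (fun S => dr U i (S.filter (fun j => j < i))) := by
    intro i _
    exact ex_ind x i (fun T => dr U i T)
  rw [Finset.sum_congr rfl e2]
  ring

theorem thin {K : Type} [Field K] {s k : ℕ} (U : Submodule K (Fin s → K)) (hU : Robust U k)
    (κ : ℝ) (hκ0 : 0 ≤ κ) (hκ1 : κ ≤ 1) :
    ∃ l : Fin s → ℝ, (∀ i, 0 ≤ l i ∧ l i ≤ 1) ∧
      (finrank K U : ℝ) * tl s k κ ≤ κ * ∑ i, l i ∧
      ∀ x : Fin s → ℝ, (∀ i, 0 ≤ x i ∧ x i ≤ κ) →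
        ex x (fun S => (finrank K (van U S) : ℝ)) ≤ finrank K U - ∑ i, l i * x i := by
  refine ⟨fun i => ex (fun _ => κ) (fun S => dr U i (S.filter (fun j => j < i))), ?_, ?_, ?_⟩
  · intro i
    constructor
    · have h := ex_le (fun _ : Fin s => κ) (fun _ => ⟨hκ0, hκ1⟩) (fun _ => 0)
        (fun S => dr U i (S.filter (fun j => j < i))) (fun S => dr_nonneg U i _)
      rw [ex_zero] at h
      exact h
    · have h := ex_le (fun _ : Fin s => κ) (fun _ => ⟨hκ0, hκ1⟩)
        (fun S => dr U i (S.filter (fun j => j < i))) (fun _ => 1) (fun S => dr_le_one U i _)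
      rw [ex_one] at h
      exact h
  · have h1 := ex_van U (fun _ : Fin s => κ)
    rw [← Finset.mul_sum] at h1
    have h2 : ex (fun _ : Fin s => κ) (fun S => (finrank K (van U S) : ℝ)) ≤
        ex (fun _ : Fin s => κ) (fun S => (fun S : Finset (Fin s) =>
          (finrank K U : ℝ) * (fun _ => (1 : ℝ)) S) S +
          (fun S : Finset (Fin s) => (-(finrank K U : ℝ)) *
            (fun S : Finset (Fin s) => if k ≤ S.card then (1 : ℝ) else 0) S) S) := by
      apply ex_le (fun _ : Fin s => κ) (fun _ => ⟨hκ0, hκ1⟩)
      intro S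
      simp only
      by_cases hk : k ≤ S.card
      · rw [if_pos hk, hU S hk, finrank_bot]
        simp
      · rw [if_neg hk]
        have h3 : finrank K (van U S) ≤ finrank K U := Submodule.finrank_mono (van_le U S)
        have h4 : (finrank K (van U S) : ℝ) ≤ finrank K U := by exact_mod_cast h3
        linarith
    rw [ex_add, ex_mul, ex_mul, ex_one] at h2
    have h3 : ex (fun _ : Fin s => κ) (fun S : Finset (Fin s) => if k ≤ S.card then (1 : ℝ) else 0) =
        tl s k κ := rfl
    rw [h3, h1] at h2
    linarith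
  · intro x hx
    rw [ex_van U x]
    have h1 : ∑ i, (ex (fun _ => κ) (fun S => dr U i (S.filter (fun j => j < i)))) * x i ≤
        ∑ i, x i * ex x (fun S => dr U i (S.filter (fun j => j < i))) := by
      apply Finset.sum_le_sum
      intro i _
      rw [mul_comm]
      apply mul_le_mul_of_nonneg_left _ (hx i).1
      apply ex_anti x (fun _ => κ) (fun j => ⟨(hx j).1, (hx j).2, hκ1⟩)
      intro S T hST
      exact dr_anti U i (Finset.filter_subset_filter _ hST)
    linarith

end GCQ
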