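import Pool.Agent.GCQ.Defs

/-!
# GCQ-Transf: from `ZMod p` to generic real matrices

PLAN. `transf`: put `A : Matrix R S ℤ`, `Ap` its image over `ZMod p`. By `h` the linear map `Ap.mulVecLin` is injective, so it has a left inverse `B : Matrix S R (ZMod p)`, `B * Ap = 1` (`LinearMap.exists_leftInverse_of_injective`, `LinearMap.toMatrix'`).
Lift `B` to `B' : Matrix S R ℤ` (`ZMod.intCast_surjective` or `ZMod.val`). Then `(B' * A).det` is `1` modulo `p` (`Int.cast_det`/`RingHom.map_det`), so it is not `0`, also as a real number. If `∑ s, A r s * c s = 0` for all `r` then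
`(B' * A)` (over `ℝ`) kills `c`, so `c = 0` (`Matrix.eq_zero_of_mulVec_eq_zero`).
`gen_kill`: use `GCT.gen_inj` with the index type `S` of the unknowns `{q : Fin s × Fin n // ¬ G.Adj (u q.1) q.2 ∨ q.2 ∈ T0}` and the equations `R = (Fin n × {j // j ∈ J}) ⊕ (Fin s × κ)`; the entries of the matrix are `0` or variables `X (v, j)` (`v ∈ Q j`, otherwise `0`):
row `inl (v, j)`, column `(i, w)`: `if v = w then (entry (u i) j) else 0`; row `inr (i', j)`, column `(i, w)`: `if i = i' then (entry w j) else 0`, where `entry v j = if v ∈ Q j then MvPolynomial.X (v, j) else 0`. The point `x0 (v, j)` = the real number of an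
integer lift of `X v j` (`(X v j).val` or `ZMod.cast`), and `transf` with the integer matrix obtained from these lifts (over `ZMod p` it is the system of `Kill G u T0 J X`, because `X v j = 0` for `v ∉ Q j`).
-/

set_option autoImplicit false

open Finset

namespace GCQ

theorem transf {R S : Type} [Fintype R] [Fintype S] {p : ℕ} [Fact p.Prime] (A : R → S → ℤ)
    (h : ∀ c : S → ZMod p, (∀ r, ∑ s, (A r s : ZMod p) * c s = 0) → ∀ s, c s = 0) :
    ∀ c : S → ℝ, (∀ r, ∑ s, (A r s : ℝ) * c s = 0) → ∀ s, c s = 0 := by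
  classical
  let M : Matrix R S ℤ := Matrix.of A
  let Mp : Matrix R S (ZMod p) := M.map (Int.castRingHom (ZMod p))
  have hinj : LinearMap.ker (Matrix.toLin' Mp) = ⊥ := by
    rw [LinearMap.ker_eq_bot']
    intro c hc
    funext s
    refine h c (fun r => ?_) s
    have := congrFun hc r
    simpa [Matrix.toLin'_apply, Matrix.mulVec, dotProduct, Mp, M] using this
  obtain ⟨g, hg⟩ := LinearMap.exists_leftInverse_of_injective _ hinj
  let B : Matrix S R (ZMod p) := LinearMap.toMatrix' g
  have hB : B * Mp = 1 := by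
    have h1 := congrArg LinearMap.toMatrix' hg
    rw [LinearMap.toMatrix'_comp, LinearMap.toMatrix'_toLin', LinearMap.toMatrix'_id] at h1
    exact h1
  let B' : Matrix S R ℤ := fun s r => ((B s r).val : ℤ)
  have hB' : B'.map (Int.castRingHom (ZMod p)) = B := by
    ext s r
    simp [B', Matrix.map_apply]
  have hprod : (B' * M).map (Int.castRingHom (ZMod p)) = 1 := by
    rw [Matrix.map_mul, hB']
    exact hB
  have hdet : (Int.castRingHom (ZMod p)) (B' * M).det = 1 := by
    rw [RingHom.map_det, RingHom.mapMatrix_apply, hprod, Matrix.det_one]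
  have hdet0 : (B' * M).det ≠ 0 := by
    intro h0
    rw [h0, map_zero] at hdet
    exact zero_ne_one hdet
  have hdetR : ((B' * M).map (Int.castRingHom ℝ)).det ≠ 0 := by
    rw [← RingHom.mapMatrix_apply, ← RingHom.map_det]
    simpa using hdet0
  intro c hc
  have hc0 : ((B' * M).map (Int.castRingHom ℝ)).mulVec c = 0 := by
    rw [Matrix.map_mul, ← Matrix.mulVec_mulVec]
    have : (M.map (Int.castRingHom ℝ)).mulVec c = 0 := by
      funext r
      have := hc r
      simpa [Matrix.mulVec, dotProduct, M] using this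
    rw [this, Matrix.mulVec_zero]
  have := Matrix.eq_zero_of_mulVec_eq_zero hdetR hc0
  intro s
  rw [this]
  rfl

/-- the coefficients of the linear system of `Kill` -/
private def co {n s : ℕ} {κ K : Type} [CommRing K] (u : Fin s → Fin n) (J : Finset κ) (Y : Fin n → κ → K) :
    (Fin n × {j // j ∈ J}) ⊕ (Fin s × κ) → Fin s × Fin n → K
  | Sum.inl r, q => if r.1 = q.2 then Y (u q.1) r.2.1 else 0
  | Sum.inr r, q => if r.1 = q.1 then Y q.2 r.2 else 0

private lemma co_map {n s : ℕ} {κ K L : Type} [CommRing K] [CommRing L] (f : K →+* L) (u : Fin s → Fin n)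
    (J : Finset κ) (Y : Fin n → κ → K) (r : (Fin n × {j // j ∈ J}) ⊕ (Fin s × κ)) (q : Fin s × Fin n) :
    f (co u J Y r q) = co u J (fun v j => f (Y v j)) r q := by
  rcases r with r | r
  · simp only [co]
    split_ifs with h
    · rfl
    · exact map_zero f
  · simp only [co]
    split_ifs with h
    · rfl
    · exact map_zero f

private lemma co_sum {n s : ℕ} {κ K : Type} [CommRing K] (P : Fin s × Fin n → Prop) [DecidablePred P]
    (u : Fin s → Fin n) (J : Finset κ) (Y : Fin n → κ → K) (N : Fin s → Fin n → K)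
    (hN : ∀ i v, N i v ≠ 0 → P (i, v)) (r : (Fin n × {j // j ∈ J}) ⊕ (Fin s × κ)) :
    ∑ q : {q : Fin s × Fin n // P q}, co u J Y r q.1 * N q.1.1 q.1.2 =
      match r with
      | Sum.inl r => ∑ i, N i r.1 * Y (u i) r.2.1
      | Sum.inr r => ∑ v, N r.1 v * Y v r.2 := by
  classical
  have h1 : ∑ q : {q : Fin s × Fin n // P q}, co u J Y r q.1 * N q.1.1 q.1.2 =
      ∑ q : Fin s × Fin n, co u J Y r q * N q.1 q.2 := by
    rw [← Finset.sum_subtype (univ.filter P) (fun x => by simp)
      (fun q : Fin s × Fin n => co u J Y r q * N q.1 q.2)]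
    refine Finset.sum_filter_of_ne ?_
    intro q _ hq
    exact hN q.1 q.2 (fun h0 => hq (by rw [h0, mul_zero]))
  rw [h1, Fintype.sum_prod_type]
  rcases r with r | r
  · refine Finset.sum_congr rfl (fun i _ => ?_)
    rw [Finset.sum_eq_single r.1]
    · simp only [co, if_true]
      rw [mul_comm]
    · intro v _ hv
      simp only [co]
      rw [if_neg (fun h => hv h.symm), zero_mul]
    · intro h
      exact absurd (mem_univ _) h
  · rw [Finset.sum_eq_single r.1]
    · refine Finset.sum_congr rfl (fun v _ => ?_)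
      simp only [co, if_true]
      rw [mul_comm]
    · intro i _ hi
      refine Finset.sum_eq_zero (fun v _ => ?_)
      simp only [co]
      rw [if_neg (fun h => hi h.symm), zero_mul]
    · intro h
      exact absurd (mem_univ _) h

private lemma kill_iff {n s : ℕ} {κ K : Type} [CommRing K] (G : SimpleGraph (Fin n)) (u : Fin s → Fin n)
    (T0 : Finset (Fin n)) (J : Finset κ) (Y : Fin n → κ → K) 
    [DecidablePred (fun q : Fin s × Fin n => ¬ G.Adj (u q.1) q.2 ∨ q.2 ∈ T0)] :
    Kill G u T0 J Y ↔
      ∀ c : {q : Fin s × Fin n // ¬ G.Adj (u q.1) q.2 ∨ q.2 ∈ T0} → K,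
        (∀ r, ∑ q, co u J Y r q.1 * c q = 0) → ∀ q, c q = 0 := by
  classical
  constructor
  · intro hK c hc q
    let N : Fin s → Fin n → K := fun i v =>
      if h : ¬ G.Adj (u i) v ∨ v ∈ T0 then c ⟨(i, v), h⟩ else 0
    have hNs : ∀ i v, N i v ≠ 0 → ¬ G.Adj (u i) v ∨ v ∈ T0 := by
      intro i v h0
      by_contra hn
      exact h0 (by simp only [N]; rw [dif_neg hn])
    have hNc : ∀ q : {q : Fin s × Fin n // ¬ G.Adj (u q.1) q.2 ∨ q.2 ∈ T0}, N q.1.1 q.1.2 = c q := by
      intro q
      simp only [N]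
      rw [dif_pos q.2]
    have hs : ∀ r, ∑ q : {q : Fin s × Fin n // ¬ G.Adj (u q.1) q.2 ∨ q.2 ∈ T0},
        co u J Y r q.1 * N q.1.1 q.1.2 = 0 := by
      intro r
      rw [← hc r]
      exact Finset.sum_congr rfl (fun q _ => by rw [hNc])
    have h0 := hK N hNs (fun v j hj => by
        have h2 := hs (Sum.inl (v, ⟨j, hj⟩))
        rw [co_sum (fun q : Fin s × Fin n => ¬ G.Adj (u q.1) q.2 ∨ q.2 ∈ T0) u J Y N hNs] at h2
        exact h2)
      (fun i j => by
        have h2 := hs (Sum.inr (i, j))
        rw [co_sum (fun q : Fin s × Fin n => ¬ G.Adj (u q.1) q.2 ∨ q.2 ∈ T0) u J Y N hNs] at h2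
        exact h2)
    rw [← hNc q]
    exact h0 _ _
  · intro hc N hNs h1 h2 i v
    by_contra hne
    refine hne (hc (fun q => N q.1.1 q.1.2) (fun r => ?_) ⟨(i, v), hNs i v hne⟩)
    rw [co_sum (fun q : Fin s × Fin n => ¬ G.Adj (u q.1) q.2 ∨ q.2 ∈ T0) u J Y N hNs]
    rcases r with r | r
    · exact h1 r.1 r.2.1 r.2.2
    · exact h2 r.1 r.2

theorem gen_kill {n s : ℕ} {κ : Type} [Fintype κ] {p : ℕ} [Fact p.Prime] (G : SimpleGraph (Fin n))
    (u : Fin s → Fin n) (T0 : Finset (Fin n)) (J : Finset κ) (Q : κ → Finset (Fin n))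
    (X : Fin n → κ → ZMod p) (hX : ∀ v j, v ∉ Q j → X v j = 0) (h : Kill G u T0 J X) :
    GCT.Gen (fun x : Fin n × κ → ℝ => Kill G u T0 J (mat Q x)) := by
  classical
  let S := {q : Fin s × Fin n // ¬ G.Adj (u q.1) q.2 ∨ q.2 ∈ T0}
  let R := (Fin n × {j // j ∈ J}) ⊕ (Fin s × κ)
  let en : Fin n → κ → MvPolynomial (Fin n × κ) ℝ := fun v j => if v ∈ Q j then MvPolynomial.X (v, j) else 0
  have hen : ∀ x v j, MvPolynomial.eval x (en v j) = mat Q x v j := by
    intro x v j
    simp only [en, mat]
    split_ifs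
    · rw [MvPolynomial.eval_X]
    · rw [map_zero]
  let zn : Fin n → κ → ℤ := fun v j => ((X v j).val : ℤ)
  let x0 : Fin n × κ → ℝ := fun q => (zn q.1 q.2 : ℝ)
  have hx0 : ∀ v j, mat Q x0 v j = (zn v j : ℝ) := by
    intro v j
    simp only [mat, x0]
    split_ifs with hv
    · rfl
    · simp only [zn]
      rw [hX v j hv, ZMod.val_zero]
      simp
  have hco : ∀ x (r : R) (q : S), MvPolynomial.eval x (co u J en r q.1) = co u J (mat Q x) r q.1 := by
    intro x r q
    rw [co_map]
    congr 1
    funext v j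
    exact hen x v j
  have key := GCT.gen_inj (R := R) (S := S) (fun r q => co u J en r q.1) x0 (by
    intro c hc
    refine transf (R := R) (S := S) (p := p) (fun r q => co u J zn r q.1) ?_ c ?_
    · refine (kill_iff G u T0 J X).mp h |> fun h' => ?_
      intro c' hc'
      refine h' c' (fun r => ?_)
      rw [← hc' r]
      refine Finset.sum_congr rfl (fun q _ => ?_)
      congr 1
      have h3 := co_map (Int.castRingHom (ZMod p)) u J zn r q.1
      simp only [eq_intCast] at h3
      rw [h3]
      congr 1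
      funext v j
      simp [zn]
    · intro r
      rw [← hc r]
      refine Finset.sum_congr rfl (fun q _ => ?_)
      congr 1
      rw [hco]
      have h3 := co_map (Int.castRingHom ℝ) u J zn r q.1
      simp only [eq_intCast] at h3
      rw [h3]
      congr 1
      funext v j
      exact (hx0 v j).symm)
  have heq : (fun x : Fin n × κ → ℝ => Kill G u T0 J (mat Q x)) =
      (fun x => ∀ c : S → ℝ, (∀ r : R, ∑ q, MvPolynomial.eval x (co u J en r q.1) * c q = 0) →
        ∀ q, c q = 0) := by
    funext x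
    refine propext ?_
    rw [kill_iff G u T0 J (mat Q x)]
    simp only [hco]
    exact Iff.rfl
  rw [heq]
  exact key

end GCQ
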